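import Mathlib

set_option autoImplicit false

/-!
# Colon ideals of the local components, in an arbitrary commutative domain
-/

namespace Pool.Agent.Y186.CM

variable {R : Type} [CommRing R]

/-- `Q` is `P`-primary in the weak sense that elements outside `P` are regular modulo `Q` -/
def Prim (Q P : Ideal R) : Prop := ∀ u f, u ∉ P → u * f ∈ Q → f ∈ Q

theorem prim_self {P : Ideal R} (h : P.IsPrime) : Prim P P :=
  fun _ _ hu hf => (h.mem_or_mem hf).resolve_left hu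

theorem prim_glue {Q Q' K P : Ideal R} (e : R) (h1 : ∀ a, e * a ∈ Q ↔ a ∈ Q')
    (h2 : ∀ g, g ∈ K ↔ ∃ i ∈ Q, ∃ b, g = i + e * b) (hQ' : Prim Q' P) (hK : Prim K P) :
    Prim Q P := by
  intro u f hu hf
  have hle : Q ≤ K := fun g hg => (h2 g).2 ⟨g, hg, 0, by ring⟩
  obtain ⟨i, hi, b, rfl⟩ := (h2 f).1 (hK u f hu (hle hf))
  have h3 : e * (u * b) ∈ Q := by
    have : e * (u * b) = u * (i + e * b) - u * i := by ring
    rw [this]
    exact Ideal.sub_mem _ hf (Ideal.mul_mem_left _ _ hi)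
  exact Ideal.add_mem _ hi ((h1 b).2 (hQ' u b hu ((h1 _).1 h3)))

/-- the ideal of a plane curve in the plane `l` -/
def Cl (l m : R) : Ideal R := Ideal.span {l, m}

theorem mem_Cl {l m g : R} : g ∈ Cl l m ↔ ∃ a b, g = l * a + m * b := by
  unfold Cl
  rw [Ideal.mem_span_pair]
  constructor
  · rintro ⟨a, b, rfl⟩
    exact ⟨a, b, by ring⟩
  · rintro ⟨a, b, rfl⟩
    exact ⟨a, b, by ring⟩

theorem Cl_mul (l m₁ m₂ : R) (hl : Prime l) (hm : ¬ l ∣ m₁) (x : R) :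
    m₁ * x ∈ Cl l (m₁ * m₂) ↔ x ∈ Cl l m₂ := by
  constructor
  · intro h
    obtain ⟨u, v, huv⟩ := mem_Cl.1 h
    have h1 : l ∣ m₁ * (x - m₂ * v) := ⟨u, by linear_combination huv⟩
    obtain ⟨w, hw⟩ := (hl.dvd_or_dvd h1).resolve_left hm
    exact mem_Cl.2 ⟨w, v, by linear_combination hw⟩
  · intro h
    obtain ⟨u, v, rfl⟩ := mem_Cl.1 h
    exact mem_Cl.2 ⟨m₁ * u, v, by ring⟩

theorem Cl_sup (l m₁ m₂ : R) (g : R) :
    g ∈ Cl l m₁ ↔ ∃ i ∈ Cl l (m₁ * m₂), ∃ b, g = i + m₁ * b := by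
  constructor
  · intro h
    obtain ⟨u, v, rfl⟩ := mem_Cl.1 h
    exact ⟨l * u, mem_Cl.2 ⟨u, 0, by ring⟩, v, by ring⟩
  · rintro ⟨i, hi, b, rfl⟩
    obtain ⟨u, v, rfl⟩ := mem_Cl.1 hi
    exact mem_Cl.2 ⟨u, m₂ * v + b, by ring⟩

theorem prim_Cl_mul {P : Ideal R} (l m₁ m₂ : R) (hl : Prime l) (hm : ¬ l ∣ m₁)
    (h1 : Prim (Cl l m₁) P) (h2 : Prim (Cl l m₂) P) : Prim (Cl l (m₁ * m₂)) P :=
  prim_glue m₁ (Cl_mul l m₁ m₂ hl hm) (Cl_sup l m₁ m₂) h2 h1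

/-- the Jacobian component of a triple line: the partial derivatives of `a b (a + b)` -/
def Tid (a b : R) : Ideal R := Ideal.span {a * (a + 2 * b), b * (b + 2 * a)}

/-- the double structure on the line `a = b = 0` in the direction of the plane `a = b` -/
def Uid (a b : R) : Ideal R := Ideal.span {a - b, a * b}

theorem mem_Tid {a b g : R} : g ∈ Tid a b ↔ ∃ α β, g = α * (a * (a + 2 * b)) + β * (b * (b + 2 * a)) := by
  unfold Tid
  rw [Ideal.mem_span_pair]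
  constructor
  · rintro ⟨α, β, rfl⟩
    exact ⟨α, β, rfl⟩
  · rintro ⟨α, β, rfl⟩
    exact ⟨α, β, rfl⟩

theorem mem_Uid {a b g : R} : g ∈ Uid a b ↔ ∃ α β, g = α * (a - b) + β * (a * b) := by
  unfold Uid
  rw [Ideal.mem_span_pair]
  constructor
  · rintro ⟨α, β, rfl⟩
    exact ⟨α, β, rfl⟩
  · rintro ⟨α, β, rfl⟩
    exact ⟨α, β, rfl⟩

theorem Uid_eq (a b : R) : Uid a b = Cl (a - b) (a * a) := by
  ext g
  rw [mem_Uid, mem_Cl]
  constructor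
  · rintro ⟨α, β, rfl⟩
    exact ⟨α - β * a, β, by ring⟩
  · rintro ⟨α, β, rfl⟩
    exact ⟨α + β * a, β, by ring⟩

theorem Uid_symm (a b : R) : Uid a b = Uid b a := by
  ext g
  rw [mem_Uid, mem_Uid]
  constructor
  · rintro ⟨α, β, rfl⟩
    exact ⟨-α, β, by ring⟩
  · rintro ⟨α, β, rfl⟩
    exact ⟨-α, β, by ring⟩

theorem Cl_sub (a b : R) : Cl (a - b) a = Cl a b := by
  ext g
  rw [mem_Cl, mem_Cl]
  constructor
  · rintro ⟨α, β, rfl⟩
    exact ⟨α + β, -α, by ring⟩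
  · rintro ⟨α, β, rfl⟩
    exact ⟨-β, α + β, by ring⟩

theorem Cl_add (a b : R) : Cl (a + b) a = Cl a b := by
  ext g
  rw [mem_Cl, mem_Cl]
  constructor
  · rintro ⟨α, β, rfl⟩
    exact ⟨α + β, α, by ring⟩
  · rintro ⟨α, β, rfl⟩
    exact ⟨β, α - β, by ring⟩

theorem Uid_colon (a b : R) (hl : Prime (a - b)) (hm : ¬ (a - b) ∣ a) (x : R) :
    a * x ∈ Uid a b ↔ x ∈ Cl a b := by
  rw [Uid_eq, Cl_mul (a - b) a a hl hm, Cl_sub]

theorem prim_Uid {P : Ideal R} (a b : R) (hl : Prime (a - b)) (hm : ¬ (a - b) ∣ a)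
    (h : Prim (Cl a b) P) : Prim (Uid a b) P := by
  rw [Uid_eq]
  rw [← Cl_sub] at h
  exact prim_Cl_mul (a - b) a a hl hm h h

theorem Uid_le (a b : R) : Uid a b ≤ Cl a b := by
  intro g hg
  obtain ⟨α, β, rfl⟩ := mem_Uid.1 hg
  exact mem_Cl.2 ⟨α + β * b, -α, by ring⟩

theorem Tid_le (a b : R) : Tid a b ≤ Cl a b := by
  intro g hg
  obtain ⟨α, β, rfl⟩ := mem_Tid.1 hg
  exact mem_Cl.2 ⟨α * (a + 2 * b), β * (b + 2 * a), by ring⟩

/-- cubic forms in `a`, `b` lie in the Jacobian component, when `3` is invertible -/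
theorem cub1 {a b t : R} (h3 : 3 * t = 1) : a * (a * b) ∈ Tid a b :=
  mem_Tid.2 ⟨-(t * b), 2 * t * a, by linear_combination (-(a * (a * b))) * h3⟩

theorem cub2 {a b t : R} (h3 : 3 * t = 1) : b * (a * b) ∈ Tid a b :=
  mem_Tid.2 ⟨2 * t * b, -(t * a), by linear_combination (-(b * (a * b))) * h3⟩

theorem Tid_colon [IsDomain R] {a b t : R} (h3 : 3 * t = 1) (hl : Prime (a + b))
    (hm : ¬ (a + b) ∣ a) (x : R) : (a + b) * x ∈ Tid a b ↔ x ∈ Uid a b := by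
  constructor
  · intro h
    obtain ⟨α, β, hαβ⟩ := mem_Tid.1 h
    have h1 : (a + b) ∣ a * (a * (α + β)) :=
      ⟨α * (2 * a) + β * (a + b) - x, by linear_combination hαβ⟩
    have h2 : (a + b) ∣ α + β :=
      (hl.dvd_or_dvd ((hl.dvd_or_dvd h1).resolve_left hm)).resolve_left hm
    obtain ⟨γ, hγ⟩ := h2
    have h3' : (a + b) * x = (a + b) * (α * (a - b) + γ * (b * (b + 2 * a))) := by
      linear_combination hαβ + (b * (b + 2 * a)) * hγ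
    have h4 := mul_left_cancel₀ hl.ne_zero h3'
    rw [h4]
    refine mem_Uid.2 ⟨α - γ * b, 3 * γ, by ring⟩
  · intro h
    obtain ⟨α, β, rfl⟩ := mem_Uid.1 h
    refine mem_Tid.2 ⟨α + β * (t * b), -α + β * (t * a), ?_⟩
    linear_combination (-(β * (a * (a * b) + b * (a * b)))) * h3

theorem Tid_sup (a b : R) (g : R) :
    g ∈ Cl (a + b) (a * a) ↔ ∃ i ∈ Tid a b, ∃ c, g = i + (a + b) * c := by
  constructor
  · intro h
    obtain ⟨u, v, rfl⟩ := mem_Cl.1 h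
    exact ⟨-v * (a * (a + 2 * b)), mem_Tid.2 ⟨-v, 0, by ring⟩, u + 2 * v * a, by ring⟩
  · rintro ⟨i, hi, c, rfl⟩
    obtain ⟨α, β, rfl⟩ := mem_Tid.1 hi
    exact mem_Cl.2 ⟨α * (2 * a) + β * (b + a) + c, -α - β, by ring⟩

theorem prim_Tid [IsDomain R] {P : Ideal R} {a b t : R} (h3 : 3 * t = 1) (hl : Prime (a + b))
    (hm : ¬ (a + b) ∣ a) (hl' : Prime (a - b)) (hm' : ¬ (a - b) ∣ a) (h : Prim (Cl a b) P) :
    Prim (Tid a b) P := by
  refine prim_glue (a + b) (Tid_colon h3 hl hm) (Tid_sup a b) (prim_Uid a b hl' hm' h) ?_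
  rw [← Cl_add] at h
  exact prim_Cl_mul (a + b) a a hl hm h h

theorem Tid_le_left (a b : R) : Tid a b ≤ Cl a (b * (a + b)) := by
  intro g hg
  obtain ⟨α, β, rfl⟩ := mem_Tid.1 hg
  exact mem_Cl.2 ⟨α * (a + 2 * b) + β * b, β, by ring⟩

theorem Tid_le_right (a b : R) : Tid a b ≤ Cl b (a * (a + b)) := by
  intro g hg
  obtain ⟨α, β, rfl⟩ := mem_Tid.1 hg
  exact mem_Cl.2 ⟨α * a + β * (b + 2 * a), α, by ring⟩

theorem Tid_le_sum (a b : R) : Tid a b ≤ Cl (a + b) (a * b) := by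
  intro g hg
  obtain ⟨α, β, rfl⟩ := mem_Tid.1 hg
  exact mem_Cl.2 ⟨α * a + β * b, α + β, by ring⟩

/-- the relation between the restrictions to the three planes of an element of the Jacobian
component -/
theorem Tid_rel {a b g A₁ A₂ A₃ : R} (hl1 : Prime a) (hl2 : Prime b) (hl3 : Prime (a + b))
    (hab : ¬ a ∣ b) (hba : ¬ b ∣ a) (hca : ¬ (a + b) ∣ a) (hg : g ∈ Tid a b)
    (h1 : ∃ u, g = a * u + b * -(a + b) * A₁) (h2 : ∃ u, g = b * u + a * -(a + b) * A₂)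
    (h3 : ∃ u, g = -(a + b) * u + a * b * A₃) : A₁ + A₂ + A₃ ∈ Cl a b := by
  obtain ⟨α, β, hαβ⟩ := mem_Tid.1 hg
  obtain ⟨u1, e1⟩ := h1
  obtain ⟨u2, e2⟩ := h2
  obtain ⟨u3, e3⟩ := h3
  have d1 : a ∣ b * (b * (β + A₁)) :=
    ⟨u1 - b * A₁ - α * (a + 2 * b) - 2 * β * b, by linear_combination e1 - hαβ⟩
  have d2 : b ∣ a * (a * (α + A₂)) :=
    ⟨u2 - a * A₂ - β * (b + 2 * a) - 2 * α * a, by linear_combination e2 - hαβ⟩
  have d3 : (a + b) ∣ a * (a * (A₃ - α - β)) :=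
    ⟨-u3 + a * A₃ - α * (2 * a) - β * (a + b), by linear_combination e3 - hαβ⟩
  obtain ⟨w1, hw1⟩ := (hl1.dvd_or_dvd ((hl1.dvd_or_dvd d1).resolve_left hab)).resolve_left hab
  obtain ⟨w2, hw2⟩ := (hl2.dvd_or_dvd ((hl2.dvd_or_dvd d2).resolve_left hba)).resolve_left hba
  obtain ⟨w3, hw3⟩ := (hl3.dvd_or_dvd ((hl3.dvd_or_dvd d3).resolve_left hca)).resolve_left hca
  exact mem_Cl.2 ⟨w1 + w3, w2 + w3, by linear_combination hw1 + hw2 + hw3⟩

end Pool.Agent.Y186.CM
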