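import Mathlib
import Pool.Agent.W490.CMA.Null
import Pool.Agent.W490.CMA.Lattice

set_option autoImplicit false

/-!
# Lines in projective three-space, with coordinates chosen so that `s` vanishes at `(1,0,0,0)`

This is the starting file `Pool.Agent.W490.CMA.Base` with two other auxiliary linear forms.
-/

namespace Pool.Agent.Y186.CM

open MvPolynomial
open Pool.Agent.W490.CMA (R V lin det4 cramer Pid A eV algA lin_eV self_mem_left self_mem_right
  pderiv_prod pderiv_lin)

/-- two auxiliary linear forms, which together with the equations of each of the lines that we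
consider form a basis of the space of linear forms -/
def sV : V := ![0, -3, 2, 1]
/-- see `sV` -/
def tV : V := ![1, 1, 0, 1]

/-- the line `p = q = 0` is not degenerate and does not meet `s = t = 0` -/
def nd (p q : V) : Prop := det4 sV tV p q ≠ 0

instance (p q : V) : Decidable (nd p q) := inferInstanceAs (Decidable (_ ≠ _))

/-- the form `v` vanishes on the line `p = q = 0` -/
def inP (v p q : V) : Prop := det4 v tV p q = 0 ∧ det4 sV v p q = 0

instance (v p q : V) : Decidable (inP v p q) := inferInstanceAs (Decidable (_ ∧ _))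

/-- the coordinates of a linear form on the plane `p = q = 0` -/
noncomputable def cf (p q v : V) : A :=
  Polynomial.C (Polynomial.C (((det4 v tV p q : ℤ) : ℂ) / ((det4 sV tV p q : ℤ) : ℂ))) *
      Polynomial.X +
    Polynomial.C (Polynomial.C (((det4 sV v p q : ℤ) : ℂ) / ((det4 sV tV p q : ℤ) : ℂ)) *
        Polynomial.X)

/-- restriction to the plane `p = q = 0` of affine space, with coordinates `s`, `t` -/
noncomputable def eps (p q : V) : R →ₐ[ℂ] A :=
  aeval (fun j : Fin 4 => cf p q (eV j))

theorem eps_lin (p q v : V) : eps p q (lin v) = cf p q v := by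
  have e1 : det4 v tV p q = ∑ j, v j * det4 (eV j) tV p q := by
    simp only [Fin.sum_univ_four, det4, eV]
    simp
    ring
  have e2 : det4 sV v p q = ∑ j, v j * det4 sV (eV j) p q := by
    simp only [Fin.sum_univ_four, det4, eV]
    simp
    ring
  unfold eps lin
  simp only [map_sum, map_mul, aeval_X, algHom_C, algA, cf]
  rw [e1, e2]
  simp only [Fin.sum_univ_four]
  push_cast
  simp only [add_div, map_add, mul_div_assoc, map_mul]
  ring

theorem eps_p (p q : V) : eps p q (lin p) = 0 := by
  rw [eps_lin, cf]
  have e1 : det4 p tV p q = 0 := by simp only [det4]; ring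
  have e2 : det4 sV p p q = 0 := by simp only [det4]; ring
  simp [e1, e2]

theorem eps_q (p q : V) : eps p q (lin q) = 0 := by
  rw [eps_lin, cf]
  have e1 : det4 q tV p q = 0 := by simp only [det4]; ring
  have e2 : det4 sV q p q = 0 := by simp only [det4]; ring
  simp [e1, e2]

theorem eps_s {p q : V} (h : nd p q) : eps p q (lin sV) = Polynomial.X := by
  rw [eps_lin, cf]
  have e2 : det4 sV sV p q = 0 := by simp only [det4]; ring
  have h' : ((det4 sV tV p q : ℤ) : ℂ) ≠ 0 := by exact_mod_cast h
  simp [e2, div_self h']

theorem eps_t {p q : V} (h : nd p q) : eps p q (lin tV) = Polynomial.C Polynomial.X := by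
  rw [eps_lin, cf]
  have e2 : det4 tV tV p q = 0 := by simp only [det4]; ring
  have h' : ((det4 sV tV p q : ℤ) : ℂ) ≠ 0 := by exact_mod_cast h
  simp [e2, div_self h']

/-- extension of functions from the plane to affine space, by projection -/
noncomputable def iota : A →+* R :=
  Polynomial.eval₂RingHom (Polynomial.aeval (lin tV)).toRingHom (lin sV)

theorem iota_X : iota (Polynomial.X) = lin sV := by simp [iota]
theorem iota_CX : iota (Polynomial.C Polynomial.X) = lin tV := by simp [iota]
theorem iota_CC (z : ℂ) : iota (Polynomial.C (Polynomial.C z)) = C z := by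
  simp [iota]

theorem eps_iota {p q : V} (h : nd p q) (x : A) : eps p q (iota x) = x := by
  have : ((eps p q).toRingHom.comp iota) = RingHom.id A := by
    apply Polynomial.ringHom_ext'
    · apply Polynomial.ringHom_ext
      · intro a
        simp only [RingHom.comp_apply, RingHom.id_apply, iota_CC]
        exact algHom_C _ _
      · simp only [RingHom.comp_apply, RingHom.id_apply, iota_CX]
        exact eps_t h
    · simp only [RingHom.comp_apply, RingHom.id_apply, iota_X]
      exact eps_s h
  exact congrArg (fun f => f x) this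

theorem lin_comb {p q : V} (h : nd p q) (v : V) :
    lin v - iota (cf p q v) ∈ Pid p q := by
  have h' : ((det4 sV tV p q : ℤ) : ℂ) ≠ 0 := by exact_mod_cast h
  have key : lin v - iota (cf p q v) =
      C (((det4 sV tV v q : ℤ) : ℂ) / ((det4 sV tV p q : ℤ) : ℂ)) * lin p +
      C (((det4 sV tV p v : ℤ) : ℂ) / ((det4 sV tV p q : ℤ) : ℂ)) * lin q := by
    have hv : ∀ i, ((v i : ℤ) : ℂ) =
        ((det4 v tV p q : ℤ) : ℂ) / ((det4 sV tV p q : ℤ) : ℂ) * ((sV i : ℤ) : ℂ) +
        ((det4 sV v p q : ℤ) : ℂ) / ((det4 sV tV p q : ℤ) : ℂ) * ((tV i : ℤ) : ℂ) +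
        ((det4 sV tV v q : ℤ) : ℂ) / ((det4 sV tV p q : ℤ) : ℂ) * ((p i : ℤ) : ℂ) +
        ((det4 sV tV p v : ℤ) : ℂ) / ((det4 sV tV p q : ℤ) : ℂ) * ((q i : ℤ) : ℂ) := by
      intro i
      have := congrArg (fun z : ℤ => (z : ℂ)) (cramer sV tV p q v i)
      push_cast at this
      field_simp
      linear_combination this
    have e0 : iota (cf p q v) =
        C (((det4 v tV p q : ℤ) : ℂ) / ((det4 sV tV p q : ℤ) : ℂ)) * lin sV +
        C (((det4 sV v p q : ℤ) : ℂ) / ((det4 sV tV p q : ℤ) : ℂ)) * lin tV := by
      simp only [cf, map_add, map_mul, iota_CC, iota_X, iota_CX]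
    rw [e0]
    unfold lin
    simp only [Finset.mul_sum, ← Finset.sum_add_distrib, ← Finset.sum_sub_distrib]
    refine Finset.sum_congr rfl fun i _ => ?_
    rw [hv i]
    simp only [map_add, map_mul]
    ring
  rw [key]
  exact Ideal.add_mem _ (Ideal.mul_mem_left _ _ (Ideal.subset_span (by simp)))
    (Ideal.mul_mem_left _ _ (Ideal.subset_span (by simp)))

theorem sub_iota_mem {p q : V} (h : nd p q) (g : R) : g - iota (eps p q g) ∈ Pid p q := by
  rw [← Ideal.Quotient.eq]
  have : (Ideal.Quotient.mk (Pid p q)) =
      (Ideal.Quotient.mk (Pid p q)).comp (iota.comp (eps p q).toRingHom) := by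
    apply MvPolynomial.ringHom_ext
    · intro a
      simp only [RingHom.comp_apply]
      congr 1
      have : (eps p q).toRingHom (C a) = Polynomial.C (Polynomial.C a) := algHom_C _ _
      rw [this, iota_CC]
    · intro j
      simp only [RingHom.comp_apply]
      rw [Ideal.Quotient.eq]
      have h1 := lin_comb h (eV j)
      rw [lin_eV] at h1
      have h2 : (eps p q).toRingHom (X j) = cf p q (eV j) := by
        have := eps_lin p q (eV j)
        rw [lin_eV] at this
        exact this
      rw [h2]
      exact h1
  exact congrArg (fun f => f g) this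

theorem mem_Pid {p q : V} (h : nd p q) (g : R) : g ∈ Pid p q ↔ eps p q g = 0 := by
  constructor
  · intro hg
    have : Pid p q ≤ RingHom.ker (eps p q).toRingHom := by
      rw [Pid, Ideal.span_le]
      intro x hx
      rcases hx with rfl | hx
      · exact eps_p p q
      · rw [Set.mem_singleton_iff] at hx
        subst hx
        exact eps_q p q
    exact this hg
  · intro hg
    have := sub_iota_mem h g
    rwa [hg, map_zero, sub_zero] at this

theorem Pid_prime {p q : V} (h : nd p q) : (Pid p q).IsPrime := by
  have : Pid p q = RingHom.ker (eps p q).toRingHom := by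
    ext g
    rw [mem_Pid h]
    rfl
  rw [this]
  exact RingHom.ker_isPrime _

theorem lin_mem_Pid {p q : V} (h : nd p q) (v : V) : lin v ∈ Pid p q ↔ inP v p q := by
  have h' : ((det4 sV tV p q : ℤ) : ℂ) ≠ 0 := by exact_mod_cast h
  rw [mem_Pid h, eps_lin, cf]
  constructor
  · intro hz
    have h0 := congrArg (fun x : A => (x.coeff 1).coeff 0) hz
    have h1 := congrArg (fun x : A => (x.coeff 0).coeff 1) hz
    simp [Polynomial.coeff_C] at h0 h1
    constructor
    · rcases h0 with h0 | h0
      · exact h0
      · exact absurd (by exact_mod_cast h0) h'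
    · rcases h1 with h1 | h1
      · exact h1
      · exact absurd (by exact_mod_cast h1) h'
  · rintro ⟨h1, h2⟩
    simp [h1, h2]

theorem Pid_le {p q p' q' : V} (h : nd p' q') (h1 : inP p p' q') (h2 : inP q p' q') :
    Pid p q ≤ Pid p' q' := by
  rw [Pid, Ideal.span_le]
  intro x hx
  rcases hx with rfl | hx
  · exact (lin_mem_Pid h p).2 h1
  · rw [Set.mem_singleton_iff] at hx
    subst hx
    exact (lin_mem_Pid h q).2 h2

end Pool.Agent.Y186.CM
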