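import Mathlib
import Pool.Agent.Y186.CM.Base
import Pool.Agent.Y186.CM.Alg

set_option autoImplicit false

/-!
# The components of the Jacobian curve
-/

namespace Pool.Agent.Y186.CM

open MvPolynomial
open Pool.Agent.W490.CMA (R V lin det4 cramer Pid A eV algA lin_eV self_mem_left self_mem_right
  pderiv_prod pderiv_lin aeval_lin)

theorem lin_smul (x : ℤ) (v : V) : lin (x • v) = C ((x : ℤ) : ℂ) * lin v := by
  unfold lin
  rw [Finset.mul_sum]
  refine Finset.sum_congr rfl fun j _ => ?_
  simp [mul_assoc]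

theorem lin_add (v w : V) : lin (v + w) = lin v + lin w := by
  unfold lin
  rw [← Finset.sum_add_distrib]
  refine Finset.sum_congr rfl fun j _ => ?_
  simp [add_mul]

theorem lin_sub (v w : V) : lin (v - w) = lin v - lin w := by
  unfold lin
  rw [← Finset.sum_sub_distrib]
  refine Finset.sum_congr rfl fun j _ => ?_
  simp [sub_mul]

theorem lin_zero : lin 0 = 0 := by
  unfold lin
  simp

theorem coeff_lin (v : V) (i : Fin 4) : (lin v).coeff (Finsupp.single i 1) = ((v i : ℤ) : ℂ) := by
  classical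
  unfold lin
  rw [coeff_sum, Finset.sum_eq_single i]
  · rw [coeff_C_mul, coeff_X, if_pos rfl, mul_one]
  · intro j _ hj
    rw [coeff_C_mul, coeff_X, if_neg, mul_zero]
    rwa [Finsupp.single_left_inj Nat.one_ne_zero]
  · simp

theorem prime_lin {v : V} (h : v ≠ 0) : Prime (lin v) := by
  rw [← irreducible_iff_prime]
  obtain ⟨i, hi⟩ := Function.ne_iff.1 h
  have hi' : ((v i : ℤ) : ℂ) ≠ 0 := by exact_mod_cast hi
  apply irreducible_of_totalDegree_eq_one
  · apply le_antisymm
    · unfold lin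
      apply totalDegree_finsetSum_le
      intro j _
      refine le_trans (totalDegree_mul _ _) ?_
      rw [totalDegree_C, totalDegree_X]
    · rw [← not_lt, Nat.lt_one_iff, totalDegree_eq_zero_iff]
      intro h0
      have := h0 (Finsupp.single i 1) (by rwa [mem_support_iff, coeff_lin]) i
      simp at this
  · intro r hr
    have h1 := hr (Finsupp.single i 1)
    rw [coeff_lin] at h1
    exact isUnit_of_dvd_unit h1 (isUnit_iff_ne_zero.2 hi')

theorem nd_left {p q : V} (h : nd p q) : p ≠ 0 := by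
  rintro rfl
  apply h
  simp [det4]

theorem nd_symm {p q : V} (h : nd p q) : nd q p := by
  intro h0
  apply h
  rw [← neg_eq_zero, ← h0]
  simp only [det4]
  ring

theorem nd_right {p q : V} (h : nd p q) : q ≠ 0 := nd_left (nd_symm h)

theorem nd_add {p q : V} (h : nd p q) : nd (p + q) p := by
  intro h0
  apply h
  rw [← neg_eq_zero, ← h0]
  simp only [det4, Pi.add_apply]
  ring

theorem nd_sub {p q : V} (h : nd p q) : nd (p - q) p := by
  intro h0
  apply h
  rw [← h0]
  simp only [det4, Pi.sub_apply]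
  ring

theorem nd_smul {p q : V} (h : nd p q) {x y : ℤ} (hx : x ≠ 0) (hy : y ≠ 0) :
    nd (x • p) (y • q) := by
  intro h0
  have : x * y * det4 sV tV p q = 0 := by
    rw [← h0]
    simp only [det4, Pi.smul_apply, smul_eq_mul]
    ring
  rcases mul_eq_zero.1 this with h1 | h1
  · exact mul_ne_zero hx hy h1
  · exact h h1

theorem not_dvd {p q : V} (h : nd p q) : ¬ lin p ∣ lin q := by
  rintro ⟨c, hc⟩
  have h1 := congrArg (aeval (fun j : Fin 4 => ((det4 sV tV p (eV j) : ℤ) : ℂ))) hc
  rw [map_mul, aeval_lin, aeval_lin] at h1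
  have e1 : (∑ j, ((p j : ℤ) : ℂ) * ((det4 sV tV p (eV j) : ℤ) : ℂ)) =
      ((det4 sV tV p p : ℤ) : ℂ) := by
    simp only [Fin.sum_univ_four, det4, eV]
    simp
    ring
  have e2 : (∑ j, ((q j : ℤ) : ℂ) * ((det4 sV tV p (eV j) : ℤ) : ℂ)) =
      ((det4 sV tV p q : ℤ) : ℂ) := by
    simp only [Fin.sum_univ_four, det4, eV]
    simp
    ring
  have e3 : det4 sV tV p p = 0 := by simp only [det4]; ring
  rw [e1, e2, e3] at h1
  have h' : ((det4 sV tV p q : ℤ) : ℂ) ≠ 0 := by exact_mod_cast h
  exact h' (by rw [h1]; simp)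

theorem Pid_eq (p q : V) : Pid p q = Cl (lin p) (lin q) := rfl

theorem three_inv : (3 : R) * C (1 / 3 : ℂ) = 1 := by
  have : (3 : R) = C (3 : ℂ) := (map_ofNat C 3).symm
  rw [this, ← C_mul]
  norm_num

theorem C_ne {x : ℤ} (hx : x ≠ 0) : C (((x : ℤ) : ℂ)⁻¹) * C ((x : ℤ) : ℂ) = (1 : R) := by
  have hx' : ((x : ℤ) : ℂ) ≠ 0 := by exact_mod_cast hx
  rw [← C_mul, inv_mul_cancel₀ hx', C_1]

theorem Cl_smul (p : V) (m : R) {x : ℤ} (hx : x ≠ 0) : Cl (lin (x • p)) m = Cl (lin p) m := by
  ext g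
  rw [mem_Cl, mem_Cl, lin_smul]
  constructor
  · rintro ⟨a, b, rfl⟩
    exact ⟨C ((x : ℤ) : ℂ) * a, b, by ring⟩
  · rintro ⟨a, b, rfl⟩
    refine ⟨C (((x : ℤ) : ℂ)⁻¹) * a, b, ?_⟩
    linear_combination (-(lin p * a)) * C_ne hx

theorem Cl_unit (l m u w : R) (h : w * u = 1) : Cl l (u * m) = Cl l m := by
  ext g
  rw [mem_Cl, mem_Cl]
  constructor
  · rintro ⟨a, b, rfl⟩
    exact ⟨a, u * b, by ring⟩
  · rintro ⟨a, b, rfl⟩
    refine ⟨a, w * b, ?_⟩
    linear_combination (-(m * b)) * h

theorem Pid_smul (p q : V) {x y : ℤ} (hx : x ≠ 0) (hy : y ≠ 0) :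
    Pid (x • p) (y • q) = Pid p q := by
  rw [Pid_eq, Pid_eq, Cl_smul _ _ hx, lin_smul, Cl_unit _ _ _ _ (C_ne hy)]

theorem prim_T {p q : V} (h : nd p q) : Prim (Tid (lin p) (lin q)) (Pid p q) := by
  have h1 := nd_add h
  have h2 := nd_sub h
  have p1 := prime_lin (nd_left h1)
  have p2 := prime_lin (nd_left h2)
  have d1 := not_dvd h1
  have d2 := not_dvd h2
  rw [lin_add] at p1 d1
  rw [lin_sub] at p2 d2
  exact prim_Tid three_inv p1 d1 p2 d2 (prim_self (Pid_prime h))

theorem prim_U {p q : V} (h : nd p q) : Prim (Uid (lin p) (lin q)) (Pid p q) := by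
  have h2 := nd_sub h
  have p2 := prime_lin (nd_left h2)
  have d2 := not_dvd h2
  rw [lin_sub] at p2 d2
  exact prim_Uid _ _ p2 d2 (prim_self (Pid_prime h))

/-- three planes `i`, `j`, `k` through a line, with the relation between their equations -/
structure Tr where
  /-- first plane -/
  i : Fin 13
  /-- second plane -/
  j : Fin 13
  /-- third plane -/
  k : Fin 13
  /-- first coefficient -/
  x : ℤ
  /-- second coefficient -/
  y : ℤ
  /-- third coefficient -/
  z : ℤ
deriving DecidableEq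

/-- components: lines, Jacobian components of triple lines, and double lines -/
inductive Comp where
  /-- a line -/
  | P (i j : Fin 13) : Comp
  /-- the Jacobian component of a triple line -/
  | T (t : Tr) : Comp
  /-- its residual with respect to the third plane -/
  | U (t : Tr) : Comp
deriving DecidableEq

variable (f : Fin 13 → V)

/-- the first generator -/
noncomputable def ga (t : Tr) : R := lin (t.x • f t.i)
/-- the second generator -/
noncomputable def gb (t : Tr) : R := lin (t.y • f t.j)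

/-- the ideal of a component -/
noncomputable def idl : Comp → Ideal R
  | .P i j => Pid (f i) (f j)
  | .T t => Tid (ga f t) (gb f t)
  | .U t => Uid (ga f t) (gb f t)

/-- the first plane -/
def b1 : Comp → Fin 13
  | .P i _ => i
  | .T t => t.i
  | .U t => t.i

/-- the second plane -/
def b2 : Comp → Fin 13
  | .P _ j => j
  | .T t => t.j
  | .U t => t.j

/-- the relation of a triple -/
def okt (t : Tr) : Prop :=
  (t.x ≠ 0 ∧ t.y ≠ 0 ∧ t.z ≠ 0) ∧ (t.i ≠ t.j ∧ t.i ≠ t.k ∧ t.j ≠ t.k) ∧
    (∀ a : Fin 4, t.x * f t.i a + t.y * f t.j a + t.z * f t.k a = 0) ∧ nd (f t.i) (f t.j)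

instance (t : Tr) : Decidable (okt f t) := inferInstanceAs (Decidable (_ ∧ _))

/-- validity of a component -/
def okc : Comp → Prop
  | .P i j => i ≠ j ∧ nd (f i) (f j)
  | .T t => okt f t
  | .U t => okt f t

instance : (c : Comp) → Decidable (okc f c)
  | .P i j => inferInstanceAs (Decidable (i ≠ j ∧ nd (f i) (f j)))
  | .T t => inferInstanceAs (Decidable (okt f t))
  | .U t => inferInstanceAs (Decidable (okt f t))

variable {f}

theorem okc_nd {c : Comp} (h : okc f c) : nd (f (b1 c)) (f (b2 c)) := by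
  cases c with
  | P i j => exact h.2
  | T t => exact h.2.2.2
  | U t => exact h.2.2.2

theorem prim_idl {c : Comp} (h : okc f c) : Prim (idl f c) (Pid (f (b1 c)) (f (b2 c))) := by
  cases c with
  | P i j => exact prim_self (Pid_prime h.2)
  | T t =>
    obtain ⟨⟨hx, hy, -⟩, -, -, hnd⟩ := h
    have := prim_T (nd_smul hnd hx hy)
    rw [Pid_smul _ _ hx hy] at this
    exact this
  | U t =>
    obtain ⟨⟨hx, hy, -⟩, -, -, hnd⟩ := h
    have := prim_U (nd_smul hnd hx hy)
    rw [Pid_smul _ _ hx hy] at this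
    exact this

theorem idl_le {c : Comp} (h : okc f c) : idl f c ≤ Pid (f (b1 c)) (f (b2 c)) := by
  cases c with
  | P i j => exact le_refl _
  | T t =>
    obtain ⟨⟨hx, hy, -⟩, -, -, hnd⟩ := h
    have := Tid_le (ga f t) (gb f t)
    rw [ga, gb, ← Pid_eq, Pid_smul _ _ hx hy] at this
    exact this
  | U t =>
    obtain ⟨⟨hx, hy, -⟩, -, -, hnd⟩ := h
    have := Uid_le (ga f t) (gb f t)
    rw [ga, gb, ← Pid_eq, Pid_smul _ _ hx hy] at this
    exact this

/-- the relation, for polynomials -/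
theorem okt_rel {t : Tr} (h : okt f t) : ga f t + gb f t = -(C ((t.z : ℤ) : ℂ) * lin (f t.k)) := by
  have h1 : t.x • f t.i + t.y • f t.j = -(t.z • f t.k) := by
    funext a
    have := h.2.2.1 a
    simp only [Pi.add_apply, Pi.smul_apply, Pi.neg_apply, smul_eq_mul]
    linear_combination this
  have h2 : lin (t.x • f t.i + t.y • f t.j) = lin (-(t.z • f t.k)) := by rw [h1]
  rw [lin_add] at h2
  have h3 : lin (-(t.z • f t.k)) = -lin (t.z • f t.k) := by
    rw [← zero_sub, lin_sub, lin_zero, zero_sub]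
  rw [ga, gb, h2, h3, lin_smul]

end Pool.Agent.Y186.CM
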