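import Mathlib
import Pool.Agent.Y186.CM.Comp

set_option autoImplicit false

/-!
# Weighted sums of the products of all planes but one
-/

namespace Pool.Agent.Y186.CM

open MvPolynomial
open Pool.Agent.W490.CMA (R V lin det4 cramer Pid A eV algA lin_eV self_mem_left self_mem_right
  pderiv_prod pderiv_lin aeval_lin)

variable (f : Fin 13 → V)

/-- the product of the equations of the planes in `S` -/
noncomputable def PP (S : Finset (Fin 13)) : R := ∏ a ∈ S, lin (f a)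

/-- the weighted sum of the products of all the planes in `S` but one -/
noncomputable def ss (S : Finset (Fin 13)) (σ : Fin 13 → ℤ) : R :=
  ∑ a ∈ S, C ((σ a : ℤ) : ℂ) * PP f (S.erase a)

variable {f}

theorem PP_erase {S : Finset (Fin 13)} {i : Fin 13} (h : i ∈ S) :
    PP f S = lin (f i) * PP f (S.erase i) := by
  exact (Finset.mul_prod_erase S (fun a => lin (f a)) h).symm

theorem ss_erase {S : Finset (Fin 13)} {i : Fin 13} (σ : Fin 13 → ℤ) (h : i ∈ S) :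
    ss f S σ = C ((σ i : ℤ) : ℂ) * PP f (S.erase i) + lin (f i) * ss f (S.erase i) σ := by
  unfold ss
  rw [← Finset.add_sum_erase _ _ h, Finset.mul_sum]
  congr 1
  refine Finset.sum_congr rfl fun b hb => ?_
  have h1 : i ∈ S.erase b := Finset.mem_erase.2 ⟨(Finset.ne_of_mem_erase hb).symm, h⟩
  rw [PP_erase h1, Finset.erase_right_comm]
  ring

/-- weights that make the weighted sum vanish on a component -/
def okS (S : Finset (Fin 13)) (σ : Fin 13 → ℤ) : Comp → Prop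
  | .P i j => (i ∈ S ∧ j ∈ S) ∨ (i ∈ S ∧ σ i = 0) ∨ (j ∈ S ∧ σ j = 0)
  | .T t => (t.i ∈ S ∧ t.j ∈ S ∧ t.k ∈ S) ∧ t.x * σ t.i + t.y * σ t.j + t.z * σ t.k = 0
  | .U t => (t.i ∈ S ∧ t.j ∈ S) ∧ t.x * σ t.i + t.y * σ t.j = 0

instance (S : Finset (Fin 13)) (σ : Fin 13 → ℤ) : (c : Comp) → Decidable (okS S σ c)
  | .P i j => inferInstanceAs (Decidable ((i ∈ S ∧ j ∈ S) ∨ (i ∈ S ∧ σ i = 0) ∨ (j ∈ S ∧ σ j = 0)))
  | .T t => inferInstanceAs (Decidable ((t.i ∈ S ∧ t.j ∈ S ∧ t.k ∈ S) ∧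
      t.x * σ t.i + t.y * σ t.j + t.z * σ t.k = 0))
  | .U t => inferInstanceAs (Decidable ((t.i ∈ S ∧ t.j ∈ S) ∧ t.x * σ t.i + t.y * σ t.j = 0))

/-- the remaining product for a triple -/
noncomputable def rest (f : Fin 13 → V) (S : Finset (Fin 13)) (t : Tr) : R :=
  PP f (((S.erase t.i).erase t.j).erase t.k)

theorem ga_eq (t : Tr) : ga f t = C ((t.x : ℤ) : ℂ) * lin (f t.i) := lin_smul _ _
theorem gb_eq (t : Tr) : gb f t = C ((t.y : ℤ) : ℂ) * lin (f t.j) := lin_smul _ _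

theorem three_mem {S : Finset (Fin 13)} {t : Tr} (ht : okt f t) (hS : t.i ∈ S ∧ t.j ∈ S ∧ t.k ∈ S) :
    t.j ∈ S.erase t.i ∧ t.k ∈ (S.erase t.i).erase t.j := by
  obtain ⟨-, ⟨h1, h2, h3⟩, -⟩ := ht
  refine ⟨Finset.mem_erase.2 ⟨h1.symm, hS.2.1⟩, Finset.mem_erase.2 ⟨h3.symm, ?_⟩⟩
  exact Finset.mem_erase.2 ⟨h2.symm, hS.2.2⟩

theorem PP_three {S : Finset (Fin 13)} {t : Tr} (ht : okt f t) (hS : t.i ∈ S ∧ t.j ∈ S ∧ t.k ∈ S) :
    PP f S = lin (f t.i) * (lin (f t.j) * (lin (f t.k) * rest f S t)) := by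
  obtain ⟨h1, h2⟩ := three_mem ht hS
  rw [PP_erase hS.1, PP_erase h1, PP_erase h2, rest]

theorem ab_mem_T (a b r : R) : (a * (a * b) + b * (a * b)) * r ∈ Tid a b :=
  Ideal.mul_mem_right _ _ (Ideal.add_mem _ (cub1 three_inv) (cub2 three_inv))

/-- the weighted sum modulo the Jacobian component of a triple line -/
theorem ss_T {S : Finset (Fin 13)} {t : Tr} (σ : Fin 13 → ℤ) (ht : okt f t)
    (hS : t.i ∈ S ∧ t.j ∈ S ∧ t.k ∈ S) :
    ∃ m ∈ Tid (ga f t) (gb f t), C ((t.x : ℤ) : ℂ) * C ((t.y : ℤ) : ℂ) * C ((t.z : ℤ) : ℂ) * ss f S σ =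
      C ((t.x * σ t.i + t.y * σ t.j + t.z * σ t.k : ℤ) : ℂ) * (ga f t * gb f t * rest f S t) + m := by
  obtain ⟨h1, h2⟩ := three_mem ht hS
  have hk := okt_rel ht
  have ha := ga_eq (f := f) t
  have hb := gb_eq (f := f) t
  set a := ga f t
  set b := gb f t
  set U := rest f S t with hU
  set s' := ss f (((S.erase t.i).erase t.j).erase t.k) σ with hs'
  refine ⟨(-(C ((t.x : ℤ) : ℂ) * C ((σ t.i : ℤ) : ℂ) * U)) * (b * (b + 2 * a)) +
    (-(C ((t.y : ℤ) : ℂ) * C ((σ t.j : ℤ) : ℂ) * U)) * (a * (a + 2 * b)) +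
    (a * (a * b) + b * (a * b)) * (-s'), ?_, ?_⟩
  · refine Ideal.add_mem _ ?_ (ab_mem_T a b _)
    exact mem_Tid.2 ⟨_, _, add_comm _ _⟩
  · rw [ss_erase σ hS.1, PP_erase h1, PP_erase h2, ss_erase σ h1, PP_erase h2, ss_erase σ h2]
    change C _ * C _ * C _ * (C _ * (lin (f t.j) * (lin (f t.k) * U)) +
      lin (f t.i) * (C _ * (lin (f t.k) * U) + lin (f t.j) * (C _ * U + lin (f t.k) * s'))) = _
    push_cast
    simp only [C_add, C_mul]
    generalize C ((t.x : ℤ) : ℂ) = x at *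
    generalize C ((t.y : ℤ) : ℂ) = y at *
    generalize C ((t.z : ℤ) : ℂ) = z at *
    generalize C ((σ t.i : ℤ) : ℂ) = σi at *
    generalize C ((σ t.j : ℤ) : ℂ) = σj at *
    generalize C ((σ t.k : ℤ) : ℂ) = σk at *
    generalize lin (f t.i) = li at *
    generalize lin (f t.j) = lj at *
    generalize lin (f t.k) = lk at *
    have hk' : z * lk = -(a + b) := by linear_combination hk
    clear_value a b U s'
    subst ha hb
    linear_combination (x * y * U * σi * lj + x * y * U * σj * li + x * y * li * lj * s') * hk'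

theorem unit3 {t : Tr} (ht : okt f t) :
    (C (((t.x : ℤ) : ℂ)⁻¹) * C (((t.y : ℤ) : ℂ)⁻¹) * C (((t.z : ℤ) : ℂ)⁻¹)) *
      (C ((t.x : ℤ) : ℂ) * C ((t.y : ℤ) : ℂ) * C ((t.z : ℤ) : ℂ)) = (1 : R) := by
  obtain ⟨⟨hx, hy, hz⟩, -⟩ := ht
  have h1 := C_ne hx
  have h2 := C_ne hy
  have h3 := C_ne hz
  calc _ = (C (((t.x : ℤ) : ℂ)⁻¹) * C ((t.x : ℤ) : ℂ)) * (C (((t.y : ℤ) : ℂ)⁻¹) * C ((t.y : ℤ) : ℂ)) *
      (C (((t.z : ℤ) : ℂ)⁻¹) * C ((t.z : ℤ) : ℂ)) := by ring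
    _ = 1 := by rw [h1, h2, h3]; ring

theorem mem_of_unit {I : Ideal R} {u w g : R} (h : w * u = 1) (hg : u * g ∈ I) : g ∈ I := by
  have : g = w * (u * g) := by rw [← mul_assoc, h, one_mul]
  rw [this]
  exact Ideal.mul_mem_left _ _ hg

theorem ss_mem {S : Finset (Fin 13)} {σ : Fin 13 → ℤ} {c : Comp} (hc : okc f c)
    (hS : okS S σ c) : ss f S σ ∈ idl f c := by
  cases c with
  | P i j =>
    change _ ∈ Pid (f i) (f j)
    rcases hS with ⟨hi, hj⟩ | ⟨hi, h0⟩ | ⟨hj, h0⟩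
    · rw [ss_erase σ hi, PP_erase (Finset.mem_erase.2 ⟨(show i ≠ j from hc.1).symm, hj⟩)]
      refine Ideal.add_mem _ (Ideal.mul_mem_left _ _ (Ideal.mul_mem_right _ _ (self_mem_right _ _)))
        (Ideal.mul_mem_right _ _ (self_mem_left _ _))
    · rw [ss_erase σ hi, h0]
      simp only [Int.cast_zero, C_0, zero_mul, zero_add]
      exact Ideal.mul_mem_right _ _ (self_mem_left _ _)
    · rw [ss_erase σ hj, h0]
      simp only [Int.cast_zero, C_0, zero_mul, zero_add]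
      exact Ideal.mul_mem_right _ _ (self_mem_right _ _)
  | T t =>
    obtain ⟨hm, h0⟩ := hS
    obtain ⟨m, hm1, hm2⟩ := ss_T σ hc hm
    rw [h0] at hm2
    refine mem_of_unit (unit3 hc) ?_
    rw [hm2, Int.cast_zero, C_0, zero_mul, zero_add]
    exact hm1
  | U t =>
    obtain ⟨⟨hi, hj⟩, h0⟩ := hS
    have hc' : okt f t := hc
    obtain ⟨⟨hx, hy, hz⟩, ⟨hij, -⟩, -⟩ := hc'
    have h1 : t.j ∈ S.erase t.i := Finset.mem_erase.2 ⟨hij.symm, hj⟩
    have ha := ga_eq (f := f) t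
    have hb := gb_eq (f := f) t
    have hu : (C (((t.x : ℤ) : ℂ)⁻¹) * C (((t.y : ℤ) : ℂ)⁻¹)) *
        (C ((t.x : ℤ) : ℂ) * C ((t.y : ℤ) : ℂ)) = (1 : R) := by
      calc _ = (C (((t.x : ℤ) : ℂ)⁻¹) * C ((t.x : ℤ) : ℂ)) *
          (C (((t.y : ℤ) : ℂ)⁻¹) * C ((t.y : ℤ) : ℂ)) := by ring
        _ = 1 := by rw [C_ne hx, C_ne hy]; ring
    refine mem_of_unit hu ?_
    change _ ∈ Uid (ga f t) (gb f t)
    have h0' : C ((t.x : ℤ) : ℂ) * C ((σ t.i : ℤ) : ℂ) + C ((t.y : ℤ) : ℂ) * C ((σ t.j : ℤ) : ℂ) =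
        (0 : R) := by
      rw [← C_mul, ← C_mul, ← C_add]
      have : ((t.x : ℤ) : ℂ) * ((σ t.i : ℤ) : ℂ) + ((t.y : ℤ) : ℂ) * ((σ t.j : ℤ) : ℂ) = 0 := by
        exact_mod_cast h0
      rw [this, C_0]
    rw [mem_Uid]
    refine ⟨-(C ((t.x : ℤ) : ℂ) * C ((σ t.i : ℤ) : ℂ) * PP f ((S.erase t.i).erase t.j)),
      ss f ((S.erase t.i).erase t.j) σ, ?_⟩
    rw [ss_erase σ hi, PP_erase h1, ss_erase σ h1, ha, hb]
    linear_combination (C ((t.x : ℤ) : ℂ) * lin (f t.i) * PP f ((S.erase t.i).erase t.j)) * h0'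

end Pool.Agent.Y186.CM
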