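import Mathlib
import Pool.Agent.Y186.CM.Sect

set_option autoImplicit false

/-!
# Regularity of `s - α, t - β` modulo an ideal

The first part is the corresponding part of the starting file `Pool.Agent.W490.CMA.Steps`, for
the two linear forms of `Pool.Agent.Y186.CM.Base`.
-/

namespace Pool.Agent.Y186.CM

open MvPolynomial
open Pool.Agent.W490.CMA (R V lin det4 cramer Pid A eV algA lin_eV self_mem_left self_mem_right
  pderiv_prod pderiv_lin aeval_lin)

/-- `s - α` is regular modulo `I` and `t - β` is regular modulo `I + (s - α)`, for all `α`, `β` -/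
def Reg (I : Ideal R) : Prop := ∀ α β : ℂ,
  (∀ g, (lin sV - C α) * g ∈ I → g ∈ I) ∧
  (∀ g, (lin tV - C β) * g ∈ I ⊔ Ideal.span {lin sV - C α} → g ∈ I ⊔ Ideal.span {lin sV - C α})

theorem reg_top : Reg ⊤ := by
  intro α β
  simp

theorem mem_sup_span {I : Ideal R} {a g : R} : g ∈ I ⊔ Ideal.span {a} ↔ ∃ i ∈ I, ∃ b, g = i + a * b := by
  rw [Submodule.mem_sup]
  constructor
  · rintro ⟨i, hi, z, hz, rfl⟩
    obtain ⟨b, rfl⟩ := Ideal.mem_span_singleton'.1 hz
    exact ⟨i, hi, b, by ring⟩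
  · rintro ⟨i, hi, b, rfl⟩
    exact ⟨i, hi, a * b, Ideal.mem_span_singleton'.2 ⟨b, by ring⟩, rfl⟩

/-- gluing: `0 → R / I' → R / I → R / K → 0`, where the first map is the multiplication by `e` -/
theorem reg_colon {I I' K : Ideal R} (e : R) (h1 : ∀ a, e * a ∈ I ↔ a ∈ I')
    (h2 : ∀ g, g ∈ K ↔ ∃ i ∈ I, ∃ b, g = i + e * b) (hI' : Reg I') (hK : Reg K) : Reg I := by
  intro α β
  have hle : I ≤ K := fun g hg => (h2 g).2 ⟨g, hg, 0, by ring⟩
  obtain ⟨a1, a2⟩ := hI' α β
  obtain ⟨k1, k2⟩ := hK α β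
  have i1 : ∀ g, (lin sV - C α) * g ∈ I → g ∈ I := by
    intro g hg
    obtain ⟨i, hi, b, rfl⟩ := (h2 g).1 (k1 g (hle hg))
    have h3 : e * ((lin sV - C α) * b) ∈ I := by
      have : e * ((lin sV - C α) * b) = (lin sV - C α) * (i + e * b) - (lin sV - C α) * i := by ring
      rw [this]
      exact Ideal.sub_mem _ hg (Ideal.mul_mem_left _ _ hi)
    have h4 := a1 b ((h1 _).1 h3)
    exact Ideal.add_mem _ hi ((h1 b).2 h4)
  refine ⟨i1, ?_⟩
  intro g hg
  obtain ⟨i0, hi0, c0, hc0⟩ := mem_sup_span.1 hg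
  have h3 : g ∈ K ⊔ Ideal.span {lin sV - C α} := by
    apply k2
    rw [hc0]
    exact mem_sup_span.2 ⟨i0, hle hi0, c0, rfl⟩
  obtain ⟨i, hi, b, rfl⟩ := mem_sup_span.1 h3
  obtain ⟨i', hi', a, rfl⟩ := (h2 i).1 hi
  -- τ e a = i0 + σ c0 - τ i' - τ σ b
  have h5 : (lin sV - C α) * (c0 - (lin tV - C β) * b) ∈ K := by
    have : (lin sV - C α) * (c0 - (lin tV - C β) * b) =
        (lin tV - C β) * i' - i0 + e * ((lin tV - C β) * a) := by linear_combination -hc0
    rw [this]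
    exact Ideal.add_mem _ (Ideal.sub_mem _ (Ideal.mul_mem_left _ _ (hle hi')) (hle hi0))
      ((h2 _).2 ⟨0, Ideal.zero_mem _, (lin tV - C β) * a, by ring⟩)
  obtain ⟨i'', hi'', d, hd⟩ := (h2 _).1 (k1 _ h5)
  have h6 : e * ((lin tV - C β) * a - (lin sV - C α) * d) ∈ I := by
    have : e * ((lin tV - C β) * a - (lin sV - C α) * d) =
        i0 - (lin tV - C β) * i' + (lin sV - C α) * i'' := by
      linear_combination hc0 + (lin sV - C α) * hd
    rw [this]
    exact Ideal.add_mem _ (Ideal.sub_mem _ hi0 (Ideal.mul_mem_left _ _ hi'))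
      (Ideal.mul_mem_left _ _ hi'')
  have h7 : a ∈ I' ⊔ Ideal.span {lin sV - C α} := by
    apply a2
    exact mem_sup_span.2 ⟨_, (h1 _).1 h6, d, by ring⟩
  obtain ⟨j, hj, e', rfl⟩ := mem_sup_span.1 h7
  exact mem_sup_span.2 ⟨i' + e * j, Ideal.add_mem _ hi' ((h1 _).2 hj), e * e' + b, by ring⟩

/-- adding one component `P` (a prime ideal) to `I₀`, if the restriction of `I₀` to the component
is principal, generated by (the restriction of) `f ∈ I₀` -/
theorem reg_line {I₀ P : Ideal R} (hP : P.IsPrime) (f : R) (hf : f ∈ I₀) (hfP : f ∉ P)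
    (h : ∀ g ∈ I₀, ∃ u, g - f * u ∈ P) (h0 : Reg I₀) (hRP : Reg P) : Reg (P ⊓ I₀) := by
  intro α β
  obtain ⟨a1, a2⟩ := h0 α β
  obtain ⟨p1, p2⟩ := hRP α β
  refine ⟨fun g hg => ⟨p1 g hg.1, a1 g hg.2⟩, ?_⟩
  intro g hg
  obtain ⟨i0, hi0, c0, hc0⟩ := mem_sup_span.1 hg
  have h3 : g ∈ I₀ ⊔ Ideal.span {lin sV - C α} := by
    apply a2
    rw [hc0]
    exact mem_sup_span.2 ⟨i0, hi0.2, c0, rfl⟩
  obtain ⟨j, hj, b, rfl⟩ := mem_sup_span.1 h3
  have h4 : c0 - (lin tV - C β) * b ∈ I₀ := by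
    apply a1
    have : (lin sV - C α) * (c0 - (lin tV - C β) * b) = (lin tV - C β) * j - i0 := by
      linear_combination -hc0
    rw [this]
    exact Ideal.sub_mem _ (Ideal.mul_mem_left _ _ hj) hi0.2
  obtain ⟨a, ha⟩ := h j hj
  obtain ⟨d, hd⟩ := h _ h4
  have h5 : f * ((lin tV - C β) * a - (lin sV - C α) * d) ∈ P := by
    have : f * ((lin tV - C β) * a - (lin sV - C α) * d) =
        i0 + (lin sV - C α) * ((c0 - (lin tV - C β) * b) - f * d) - (lin tV - C β) * (j - f * a) := by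
      linear_combination hc0
    rw [this]
    exact Ideal.sub_mem _ (Ideal.add_mem _ hi0.1 (Ideal.mul_mem_left _ _ hd))
      (Ideal.mul_mem_left _ _ ha)
  have h6 := (hP.mem_or_mem h5).resolve_left hfP
  have h7 : a ∈ P ⊔ Ideal.span {lin sV - C α} := by
    apply p2
    exact mem_sup_span.2 ⟨_, h6, d, by ring⟩
  obtain ⟨l, hl, e', rfl⟩ := mem_sup_span.1 h7
  refine mem_sup_span.2 ⟨(j - f * (l + (lin sV - C α) * e')) + f * l, ?_, f * e' + b, by ring⟩
  refine Ideal.add_mem _ ⟨ha, ?_⟩ ⟨Ideal.mul_mem_left _ _ hl, Ideal.mul_mem_right _ _ hf⟩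
  exact Ideal.sub_mem _ hj (Ideal.mul_mem_right _ _ hf)

theorem reg_Pid {p q : V} (h : nd p q) : Reg (Pid p q) := by
  intro α β
  have es : ∀ α : ℂ, eps p q (lin sV - C α) = Polynomial.X - Polynomial.C (Polynomial.C α) := by
    intro α
    rw [map_sub, eps_s h]
    congr 1
    exact algHom_C _ _
  have et : ∀ α : ℂ, eps p q (lin tV - C α) = Polynomial.C (Polynomial.X - Polynomial.C α) := by
    intro α
    rw [map_sub, eps_t h, map_sub]
    congr 1
    exact algHom_C _ _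
  constructor
  · intro g hg
    rw [mem_Pid h, map_mul, es] at hg
    rw [mem_Pid h]
    exact (mul_eq_zero.1 hg).resolve_left (Polynomial.X_sub_C_ne_zero _)
  · intro g hg
    obtain ⟨i, hi, b, hb⟩ := mem_sup_span.1 hg
    rw [mem_Pid h] at hi
    have h1 := congrArg (eps p q) hb
    rw [map_mul, map_add, map_mul, es, et, hi, zero_add] at h1
    have h2 : (eps p q g).IsRoot (Polynomial.C α) := by
      have h3 := congrArg (Polynomial.eval (Polynomial.C α)) h1
      rw [Polynomial.eval_mul, Polynomial.eval_mul] at h3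
      simp only [Polynomial.eval_C, Polynomial.eval_sub, Polynomial.eval_X, sub_self,
        zero_mul] at h3
      exact (mul_eq_zero.1 h3).resolve_left (Polynomial.X_sub_C_ne_zero _)
    obtain ⟨c, hc⟩ := Polynomial.dvd_iff_isRoot.2 h2
    refine mem_sup_span.2 ⟨g - (lin sV - C α) * iota c, ?_, iota c, by ring⟩
    rw [mem_Pid h, map_sub, map_mul, es, eps_iota h, hc, sub_self]

end Pool.Agent.Y186.CM
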