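import Mathlib
import Pool.Agent.Y186.CM.Reg

set_option autoImplicit false

/-!
# Removing one plane
-/

namespace Pool.Agent.Y186.CM

open MvPolynomial
open Pool.Agent.W490.CMA (R V lin det4 cramer Pid A eV algA lin_eV self_mem_left self_mem_right
  pderiv_prod pderiv_lin aeval_lin)

/-- the product of the equations of the planes in a list -/
noncomputable def pl (f : Fin 13 → V) (l : List (Fin 13)) : R := (l.map fun q => lin (f q)).prod

variable {f : Fin 13 → V}

theorem pl_nil : pl f [] = 1 := rfl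
theorem pl_cons (q : Fin 13) (l : List (Fin 13)) : pl f (q :: l) = lin (f q) * pl f l := by
  simp [pl]
theorem pl_append (l l' : List (Fin 13)) : pl f (l ++ l') = pl f l * pl f l' := by
  simp [pl]

theorem pl_eq {l : List (Fin 13)} (hl : l.Nodup) {S : Finset (Fin 13)} (h : ∀ q, q ∈ l ↔ q ∈ S) :
    pl f l = PP f S := by
  have : l.toFinset = S := by
    ext q
    rw [List.mem_toFinset, h]
  rw [← this, PP, List.prod_toFinset _ hl, pl]

theorem pl_notMem {p q : V} (h : nd p q) {l : List (Fin 13)} (hl : ∀ r ∈ l, ¬ inP (f r) p q) :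
    pl f l ∉ Pid p q := by
  have hpr := Pid_prime h
  induction l with
  | nil => exact fun h1 => hpr.ne_top ((Ideal.eq_top_iff_one _).2 h1)
  | cons r l ih =>
    rw [pl_cons]
    intro h1
    rcases hpr.mem_or_mem h1 with h2 | h2
    · exact hl r List.mem_cons_self ((lin_mem_Pid h _).1 h2)
    · exact ih (fun r' hr' => hl r' (List.mem_cons_of_mem _ hr')) h2

theorem reg_Cl {h : Fin 13} (l : List (Fin 13)) (hl : ∀ q ∈ l, nd (f h) (f q)) :
    Reg (Cl (lin (f h)) (pl f l)) := by
  induction l with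
  | nil =>
    have : Cl (lin (f h)) (pl f []) = ⊤ := by
      rw [Ideal.eq_top_iff_one, mem_Cl]
      exact ⟨0, 1, by rw [pl_nil]; ring⟩
    rw [this]
    exact reg_top
  | cons q l ih =>
    have hnd := hl q List.mem_cons_self
    rw [pl_cons]
    exact reg_colon (K := Pid (f h) (f q)) (lin (f q))
      (Cl_mul _ _ _ (prime_lin (nd_left hnd)) (not_dvd hnd)) (Cl_sup _ _ _)
      (ih fun r hr => hl r (List.mem_cons_of_mem _ hr)) (reg_Pid hnd)

/-- validity of a cluster of planes through a line in the plane `h` -/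
def okcl (f : Fin 13 → V) (h : Fin 13) : List (Fin 13) → Prop
  | [q] => nd (f h) (f q)
  | [q, r] => nd (f h) (f q) ∧ nd (f h) (f r) ∧ inP (f r) (f h) (f q)
  | _ => False

instance (f : Fin 13 → V) (h : Fin 13) : (l : List (Fin 13)) → Decidable (okcl f h l)
  | [] => inferInstanceAs (Decidable False)
  | [q] => inferInstanceAs (Decidable (nd (f h) (f q)))
  | [q, r] => inferInstanceAs (Decidable (nd (f h) (f q) ∧ nd (f h) (f r) ∧ inP (f r) (f h) (f q)))
  | _ :: _ :: _ :: _ => inferInstanceAs (Decidable False)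

/-- the first plane of a cluster -/
def hd : List (Fin 13) → Fin 13
  | [] => 0
  | q :: _ => q

theorem okcl_nd {h : Fin 13} {l : List (Fin 13)} (hl : okcl f h l) : nd (f h) (f (hd l)) := by
  match l, hl with
  | [q], hl => exact hl
  | [q, r], hl => exact hl.1

theorem inP_self_left (p q : V) : inP p p q := by
  constructor <;> simp only [det4] <;> ring

theorem inP_self_right (p q : V) : inP q p q := by
  constructor <;> simp only [det4] <;> ring

theorem prim_mono {Q P P' : Ideal R} (h : P ≤ P') (hQ : Prim Q P) : Prim Q P' :=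
  fun u g hu hg => hQ u g (fun h1 => hu (h h1)) hg

theorem prim_cl {h : Fin 13} {l : List (Fin 13)} (hl : okcl f h l) :
    Prim (Cl (lin (f h)) (pl f l)) (Pid (f h) (f (hd l))) := by
  match l, hl with
  | [q], hl =>
    have : Cl (lin (f h)) (pl f [q]) = Pid (f h) (f q) := by
      rw [pl_cons, pl_nil, mul_one]; rfl
    rw [this]
    exact prim_self (Pid_prime hl)
  | [q, r], hl =>
    have : pl f [q, r] = lin (f q) * lin (f r) := by
      rw [pl_cons, pl_cons, pl_nil, mul_one]
    rw [this]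
    exact prim_Cl_mul _ _ _ (prime_lin (nd_left hl.1)) (not_dvd hl.1)
      (prim_self (Pid_prime hl.1))
      (prim_mono (Pid_le hl.1 (inP_self_left _ _) hl.2.2) (prim_self (Pid_prime hl.2.1)))

/-- clusters at different lines of the plane `h` -/
def sepcl (f : Fin 13 → V) (h : Fin 13) (c c' : List (Fin 13)) : Prop :=
  ∀ r ∈ c', ¬ inP (f r) (f h) (f (hd c))

instance (f : Fin 13 → V) (h : Fin 13) (c c' : List (Fin 13)) : Decidable (sepcl f h c c') :=
  inferInstanceAs (Decidable (∀ r ∈ c', _))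

/-- the restriction to a plane is divisible by the product of the clusters -/
theorem trace_core {h : Fin 13} (cls : List (List (Fin 13))) (hok : ∀ c ∈ cls, okcl f h c)
    (hpw : cls.Pairwise (sepcl f h)) (g : R) (hg : ∀ c ∈ cls, g ∈ Cl (lin (f h)) (pl f c)) :
    g ∈ Cl (lin (f h)) (pl f cls.flatten) := by
  induction cls with
  | nil => exact mem_Cl.2 ⟨0, g, by rw [List.flatten_nil, pl_nil]; ring⟩
  | cons c cs ih =>
    rw [List.pairwise_cons] at hpw
    obtain ⟨u, v, huv⟩ := mem_Cl.1 (ih (fun c' hc' => hok c' (List.mem_cons_of_mem _ hc')) hpw.2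
      (fun c' hc' => hg c' (List.mem_cons_of_mem _ hc')))
    have hc := hok c List.mem_cons_self
    have h1 : pl f cs.flatten * v ∈ Cl (lin (f h)) (pl f c) := by
      have : pl f cs.flatten * v = g - lin (f h) * u := by rw [huv]; ring
      rw [this]
      exact Ideal.sub_mem _ (hg c List.mem_cons_self) (mem_Cl.2 ⟨u, 0, by ring⟩)
    have h2 : pl f cs.flatten ∉ Pid (f h) (f (hd c)) := by
      refine pl_notMem (okcl_nd hc) fun r hr => ?_
      obtain ⟨c', hc', hrc'⟩ := List.mem_flatten.1 hr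
      exact hpw.1 c' hc' r hrc'
    obtain ⟨u', v', huv'⟩ := mem_Cl.1 (prim_cl hc _ _ h2 h1)
    rw [List.flatten_cons, pl_append]
    refine mem_Cl.2 ⟨u + pl f cs.flatten * u', v', ?_⟩
    rw [huv, huv']
    ring

theorem Cl_mono {l l' m m' : R} (h1 : l ∣ l') (h2 : m ∣ m') : Cl l' m' ≤ Cl l m := by
  obtain ⟨u, rfl⟩ := h1
  obtain ⟨v, rfl⟩ := h2
  intro g hg
  obtain ⟨a, b, rfl⟩ := mem_Cl.1 hg
  exact mem_Cl.2 ⟨u * a, v * b, by ring⟩

theorem Cl_swap (l m : R) : Cl l m = Cl m l := by
  ext g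
  rw [mem_Cl, mem_Cl]
  exact ⟨fun ⟨a, b, h⟩ => ⟨b, a, by rw [h]; ring⟩, fun ⟨a, b, h⟩ => ⟨b, a, by rw [h]; ring⟩⟩

/-- the cluster of a component in the plane `h` -/
def clus (h : Fin 13) : Comp → Option (List (Fin 13))
  | .P i j => if h = i then some [j] else if h = j then some [i] else none
  | .T t => if h = t.i then some [t.j, t.k] else if h = t.j then some [t.i, t.k]
      else if h = t.k then some [t.i, t.j] else none
  | .U t => if h = t.i then some [t.j] else if h = t.j then some [t.i] else none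

theorem pl_one (q : Fin 13) : pl f [q] = lin (f q) := by rw [pl_cons, pl_nil, mul_one]
theorem pl_two (q r : Fin 13) : pl f [q, r] = lin (f q) * lin (f r) := by
  rw [pl_cons, pl_one]

theorem dvd_ga (t : Tr) : lin (f t.i) ∣ ga f t := ⟨_, (ga_eq t).trans (mul_comm _ _)⟩
theorem dvd_gb (t : Tr) : lin (f t.j) ∣ gb f t := ⟨_, (gb_eq t).trans (mul_comm _ _)⟩
theorem dvd_gc {t : Tr} (ht : okt f t) : lin (f t.k) ∣ ga f t + gb f t :=
  ⟨-C ((t.z : ℤ) : ℂ), by rw [okt_rel ht]; ring⟩

theorem clus_mem {c : Comp} (hc : okc f c) (h : Fin 13) (l : List (Fin 13))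
    (hl : clus h c = some l) (g : R) (hg : g ∈ idl f c) : g ∈ Cl (lin (f h)) (pl f l) := by
  cases c with
  | P i j =>
    change g ∈ Cl (lin (f i)) (lin (f j)) at hg
    simp only [clus] at hl
    split_ifs at hl with h1 h2
    · cases hl
      rw [h1, pl_one]
      exact hg
    · cases hl
      rw [h2, pl_one, Cl_swap]
      exact hg
  | T t =>
    change g ∈ Tid (ga f t) (gb f t) at hg
    have ht : okt f t := hc
    simp only [clus] at hl
    split_ifs at hl with h1 h2 h3
    · cases hl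
      rw [h1, pl_two]
      exact Cl_mono (dvd_ga t) (mul_dvd_mul (dvd_gb t) (dvd_gc ht)) (Tid_le_left _ _ hg)
    · cases hl
      rw [h2, pl_two]
      exact Cl_mono (dvd_gb t) (mul_dvd_mul (dvd_ga t) (dvd_gc ht)) (Tid_le_right _ _ hg)
    · cases hl
      rw [h3, pl_two]
      exact Cl_mono (dvd_gc ht) (mul_dvd_mul (dvd_ga t) (dvd_gb t)) (Tid_le_sum _ _ hg)
  | U t =>
    change g ∈ Uid (ga f t) (gb f t) at hg
    simp only [clus] at hl
    split_ifs at hl with h1 h2
    · cases hl
      rw [h1, pl_one]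
      exact Cl_mono (dvd_ga t) (dvd_gb t) (Uid_le _ _ hg)
    · cases hl
      rw [h2, pl_one, Cl_swap]
      exact Cl_mono (dvd_ga t) (dvd_gb t) (Uid_le _ _ hg)

/-- the intersection of the components of a list -/
noncomputable def II (f : Fin 13 → V) (L : List Comp) : Ideal R := (L.map (idl f)).foldr (· ⊓ ·) ⊤

theorem mem_II (L : List Comp) (g : R) : g ∈ II f L ↔ ∀ c ∈ L, g ∈ idl f c := by
  unfold II
  induction L with
  | nil => simp
  | cons a L ih =>
    simp only [List.map_cons, List.foldr_cons, Ideal.mem_inf, List.mem_cons, forall_eq_or_imp]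
    rw [ih]

/-- validity of the clusters of the plane `h` for the planes in `S` -/
def okClus (f : Fin 13 → V) (S : Finset (Fin 13)) (h : Fin 13) (L : List Comp) : Prop :=
  (∀ c ∈ L.filterMap (clus h), okcl f h c) ∧ (L.filterMap (clus h)).Pairwise (sepcl f h) ∧
    (L.filterMap (clus h)).flatten.Nodup ∧
    (∀ q, q ∈ (L.filterMap (clus h)).flatten ↔ q ∈ S.erase h)

instance (f : Fin 13 → V) (S : Finset (Fin 13)) (h : Fin 13) (L : List Comp) :
    Decidable (okClus f S h L) := inferInstanceAs (Decidable (_ ∧ _ ∧ _ ∧ _))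

theorem trace {S : Finset (Fin 13)} {h : Fin 13} {L : List Comp} (hL : ∀ c ∈ L, okc f c)
    (hcl : okClus f S h L) (g : R) (hg : g ∈ II f L) : g ∈ Cl (lin (f h)) (PP f (S.erase h)) := by
  obtain ⟨h1, h2, h3, h4⟩ := hcl
  rw [← pl_eq h3 h4]
  refine trace_core _ h1 h2 g fun c hc => ?_
  obtain ⟨c', hc', hcc'⟩ := List.mem_filterMap.1 hc
  exact clus_mem (hL c' hc') h c hcc' g ((mem_II L g).1 hg c' hc')

/-- colon ideals by the plane `h` -/
def colonC (h : Fin 13) : Comp → Option Comp
  | .P i j => if h = i ∨ h = j then none else some (.P i j)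
  | .T t => if h = t.k then some (.U t) else some (.T t)
  | .U t => if h = t.i then some (.P t.i t.j) else some (.U t)

/-- the cases in which `colonC` is right -/
def okCol (f : Fin 13 → V) (h : Fin 13) : Comp → Prop
  | .P i j => h = i ∨ h = j ∨ ¬ inP (f h) (f i) (f j)
  | .T t => h = t.k ∨ ¬ inP (f h) (f t.i) (f t.j)
  | .U t => h = t.i ∨ ¬ inP (f h) (f t.i) (f t.j)

instance (f : Fin 13 → V) (h : Fin 13) : (c : Comp) → Decidable (okCol f h c)
  | .P i j => inferInstanceAs (Decidable (h = i ∨ h = j ∨ ¬ inP (f h) (f i) (f j)))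
  | .T t => inferInstanceAs (Decidable (h = t.k ∨ ¬ inP (f h) (f t.i) (f t.j)))
  | .U t => inferInstanceAs (Decidable (h = t.i ∨ ¬ inP (f h) (f t.i) (f t.j)))

theorem colon_prim {h : Fin 13} {c : Comp} (hc : okc f c)
    (h1 : ¬ inP (f h) (f (b1 c)) (f (b2 c))) (a : R) :
    lin (f h) * a ∈ idl f c ↔ a ∈ idl f c :=
  ⟨fun h2 => prim_idl hc _ _ (fun h3 => h1 ((lin_mem_Pid (okc_nd hc) _).1 h3)) h2,
    fun h2 => Ideal.mul_mem_left _ _ h2⟩

theorem colon_mem {h : Fin 13} {c : Comp} (hc : okc f c) (hcol : okCol f h c) (a : R) :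
    lin (f h) * a ∈ idl f c ↔ ∀ c', colonC h c = some c' → a ∈ idl f c' := by
  cases c with
  | P i j =>
    simp only [colonC]
    split_ifs with h1
    · refine ⟨fun _ c' hc' => (by cases hc'), fun _ => ?_⟩
      change _ ∈ Pid (f i) (f j)
      rcases h1 with rfl | rfl
      · exact Ideal.mul_mem_right _ _ (self_mem_left _ _)
      · exact Ideal.mul_mem_right _ _ (self_mem_right _ _)
    · rw [not_or] at h1
      have h2 := (hcol.resolve_left h1.1).resolve_left h1.2
      rw [colon_prim hc h2]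
      exact ⟨fun h3 c' hc' => by cases hc'; exact h3, fun h3 => h3 _ rfl⟩
  | T t =>
    simp only [colonC]
    have ht : okt f t := hc
    obtain ⟨⟨hx, hy, hz⟩, -, -, hnd⟩ := ht
    split_ifs with h1
    · subst h1
      have h2 := nd_smul hnd hx hy
      have p1 := prime_lin (nd_left (nd_add h2))
      have d1 := not_dvd (nd_add h2)
      rw [lin_add] at p1 d1
      have key : (ga f t + gb f t) * a ∈ Tid (ga f t) (gb f t) ↔ a ∈ Uid (ga f t) (gb f t) :=
        Tid_colon three_inv p1 d1 a
      have hrel := okt_rel hc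
      have e : lin (f t.k) * a ∈ idl f (.T t) ↔ a ∈ Uid (ga f t) (gb f t) := by
        rw [← key]
        change _ ∈ Tid (ga f t) (gb f t) ↔ (ga f t + gb f t) * a ∈ _
        rw [hrel]
        constructor
        · intro h3
          have : -(C ((t.z : ℤ) : ℂ) * lin (f t.k)) * a = -C ((t.z : ℤ) : ℂ) * (lin (f t.k) * a) := by
            ring
          rw [this]
          exact Ideal.mul_mem_left _ _ h3
        · intro h3
          refine mem_of_unit (C_ne hz) ?_
          have : C ((t.z : ℤ) : ℂ) * (lin (f t.k) * a) =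
              -1 * (-(C ((t.z : ℤ) : ℂ) * lin (f t.k)) * a) := by ring
          rw [this]
          exact Ideal.mul_mem_left _ _ h3
      rw [e]
      exact ⟨fun h3 c' hc' => by cases hc'; exact h3, fun h3 => h3 _ rfl⟩
    · rw [colon_prim hc (hcol.resolve_left h1)]
      exact ⟨fun h3 c' hc' => by cases hc'; exact h3, fun h3 => h3 _ rfl⟩
  | U t =>
    simp only [colonC]
    have ht : okt f t := hc
    obtain ⟨⟨hx, hy, hz⟩, -, -, hnd⟩ := ht
    split_ifs with h1
    · subst h1
      have h2 := nd_smul hnd hx hy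
      have p1 := prime_lin (nd_left (nd_sub h2))
      have d1 := not_dvd (nd_sub h2)
      rw [lin_sub] at p1 d1
      have key := Uid_colon _ _ p1 d1 a
      have e : lin (f t.i) * a ∈ idl f (.U t) ↔ a ∈ Pid (f t.i) (f t.j) := by
        rw [← Pid_smul _ _ hx hy, Pid_eq, ← key]
        change _ ∈ Uid (ga f t) (gb f t) ↔ ga f t * a ∈ Uid (ga f t) (gb f t)
        constructor
        · intro h3
          rw [ga_eq, mul_assoc]
          rw [ga_eq] at h3
          exact Ideal.mul_mem_left _ _ h3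
        · intro h3
          refine mem_of_unit (C_ne hx) ?_
          rw [← mul_assoc, ← ga_eq]
          exact h3
      rw [e]
      exact ⟨fun h3 c' hc' => by cases hc'; exact h3, fun h3 => h3 _ rfl⟩
    · rw [colon_prim hc (hcol.resolve_left h1)]
      exact ⟨fun h3 c' hc' => by cases hc'; exact h3, fun h3 => h3 _ rfl⟩

/-- the conditions for removing the plane `h` -/
def okStep (f : Fin 13 → V) (S : Finset (Fin 13)) (h : Fin 13) (L : List Comp)
    (σ : Fin 13 → ℤ) : Prop :=
  h ∈ S ∧ σ h ≠ 0 ∧ (∀ c ∈ L, okc f c ∧ okCol f h c ∧ okS S σ c) ∧ okClus f S h L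

instance (f : Fin 13 → V) (S : Finset (Fin 13)) (h : Fin 13) (L : List Comp) (σ : Fin 13 → ℤ) :
    Decidable (okStep f S h L σ) := inferInstanceAs (Decidable (_ ∧ _ ∧ _ ∧ _))

theorem okcl_mem_nd {h : Fin 13} {l : List (Fin 13)} (hl : okcl f h l) (q : Fin 13) (hq : q ∈ l) :
    nd (f h) (f q) := by
  match l, hl with
  | [r], hl =>
    rw [List.mem_singleton] at hq
    subst hq
    exact hl
  | [r, r'], hl =>
    rcases List.mem_cons.1 hq with rfl | hq
    · exact hl.1
    · rw [List.mem_singleton] at hq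
      subst hq
      exact hl.2.1

theorem step {S : Finset (Fin 13)} {h : Fin 13} {L : List Comp} {σ : Fin 13 → ℤ}
    (hok : okStep f S h L σ) (hreg : Reg (II f (L.filterMap (colonC h)))) : Reg (II f L) := by
  obtain ⟨hS, hσ, hL, hcl⟩ := hok
  have hok' : ∀ c ∈ L, okc f c := fun c hc => (hL c hc).1
  have hss : ss f S σ ∈ II f L := by
    rw [mem_II]
    exact fun c hc => ss_mem (hL c hc).1 (hL c hc).2.2
  refine reg_colon (K := Cl (lin (f h)) (PP f (S.erase h))) (lin (f h)) ?_ ?_ hreg ?_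
  · intro a
    rw [mem_II, mem_II]
    constructor
    · intro h1 c' hc'
      obtain ⟨c, hc, hcc'⟩ := List.mem_filterMap.1 hc'
      exact (colon_mem (hL c hc).1 (hL c hc).2.1 a).1 (h1 c hc) c' hcc'
    · intro h1 c hc
      rw [colon_mem (hL c hc).1 (hL c hc).2.1 a]
      intro c' hcc'
      exact h1 c' (List.mem_filterMap.2 ⟨c, hc, hcc'⟩)
  · intro g
    constructor
    · intro hg
      obtain ⟨u, v, rfl⟩ := mem_Cl.1 hg
      refine ⟨C (((σ h : ℤ) : ℂ)⁻¹) * v * ss f S σ, Ideal.mul_mem_left _ _ hss,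
        u - C (((σ h : ℤ) : ℂ)⁻¹) * v * ss f (S.erase h) σ, ?_⟩
      rw [ss_erase σ hS]
      linear_combination (-(v * PP f (S.erase h))) * C_ne hσ
    · rintro ⟨i, hi, b, rfl⟩
      exact Ideal.add_mem _ (trace hok' hcl i hi) (mem_Cl.2 ⟨b, 0, by ring⟩)
  · obtain ⟨h1, h2, h3, h4⟩ := hcl
    rw [← pl_eq h3 h4]
    refine reg_Cl _ fun q hq => ?_
    obtain ⟨c, hc, hqc⟩ := List.mem_flatten.1 hq
    exact okcl_mem_nd (h1 c hc) q hqc

end Pool.Agent.Y186.CM
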