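import Mathlib
import Pool.Agent.Y186.CM.Trace

set_option autoImplicit false

/-!
# Cones, and adding a line
-/

namespace Pool.Agent.Y186.CM

open MvPolynomial
open Pool.Agent.W490.CMA (R V lin det4 cramer Pid A eV algA lin_eV self_mem_left self_mem_right
  pderiv_prod pderiv_lin aeval_lin)

/-- the derivative with respect to the first coordinate -/
noncomputable abbrev dd : Derivation ℂ R R := pderiv 0

theorem dd_mul (p q : R) : dd (p * q) = p * dd q + q * dd p := by
  rw [Derivation.leibniz, smul_eq_mul, smul_eq_mul]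

theorem iter_add (n : ℕ) (p q : R) : dd^[n] (p + q) = dd^[n] p + dd^[n] q := by
  induction n generalizing p q with
  | zero => rfl
  | succ n ih => rw [Function.iterate_succ_apply, Function.iterate_succ_apply,
      Function.iterate_succ_apply, map_add, ih]

theorem iter_zero (n : ℕ) : dd^[n] (0 : R) = 0 := by
  induction n with
  | zero => rfl
  | succ n ih => rw [Function.iterate_succ_apply, map_zero, ih]

theorem iter_le {n m : ℕ} (h : n ≤ m) {p : R} (hp : dd^[n] p = 0) : dd^[m] p = 0 := by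
  obtain ⟨k, rfl⟩ := Nat.exists_eq_add_of_le h
  rw [Nat.add_comm, Function.iterate_add_apply, hp, iter_zero]

theorem iter_mul_X (j : Fin 4) (n : ℕ) (p : R) (hp : dd^[n] p = 0) : dd^[n + 1] (p * X j) = 0 := by
  induction n generalizing p with
  | zero =>
    have : p = 0 := hp
    rw [this, zero_mul, iter_zero]
  | succ n ih =>
    rw [Function.iterate_succ_apply, dd_mul, iter_add]
    have h1 : dd^[n + 1] (X j * dd p) = 0 := by
      rw [mul_comm]
      exact ih (dd p) (by rw [← Function.iterate_succ_apply]; exact hp)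
    rw [h1, add_zero]
    by_cases hj : j = 0
    · subst hj
      rw [show (dd (X 0) : R) = 1 from pderiv_X_self 0, mul_one]
      exact hp
    · rw [show (dd (X j) : R) = 0 from pderiv_X_of_ne hj, mul_zero, iter_zero]

theorem nilp (g : R) : ∃ n, dd^[n] g = 0 := by
  induction g using MvPolynomial.induction_on with
  | C a => exact ⟨1, by rw [Function.iterate_one]; exact pderiv_C⟩
  | add p q hp hq =>
    obtain ⟨n, hn⟩ := hp
    obtain ⟨m, hm⟩ := hq
    exact ⟨max n m, by rw [iter_add, iter_le (le_max_left n m) hn, iter_le (le_max_right n m) hm,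
      add_zero]⟩
  | mul_X p j hp =>
    obtain ⟨n, hn⟩ := hp
    exact ⟨n + 1, iter_mul_X j n p hn⟩

theorem natCast_cancel {J : Ideal R} {k : ℕ} (hk : k ≠ 0) {g : R} (h : (k : R) * g ∈ J) : g ∈ J := by
  have : C ((k : ℂ)⁻¹) * ((k : R)) = 1 := by
    have h1 : (k : R) = C (k : ℂ) := (map_natCast C k).symm
    rw [h1, ← C_mul, inv_mul_cancel₀ (by exact_mod_cast hk), C_1]
  exact mem_of_unit this h

/-- in a `dd`-stable ideal `J`, a polynomial `τ` with derivative `1` is regular modulo `J` -/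
theorem stable_cancel {J : Ideal R} (hJ : ∀ g ∈ J, dd g ∈ J) {τ : R} (hτ : dd τ = 1) (n : ℕ)
    (g : R) (hg : dd^[n] g = 0) (k : ℕ) (hk : τ ^ k * g ∈ J) : g ∈ J := by
  induction n generalizing g k with
  | zero =>
    have : g = 0 := hg
    rw [this]
    exact Ideal.zero_mem _
  | succ n ih =>
    have hd : ∀ m : ℕ, dd (τ ^ (m + 1) * g) = ((m + 1 : ℕ) : R) * (τ ^ m * g) + τ ^ (m + 1) * dd g := by
      intro m
      rw [dd_mul, Derivation.leibniz_pow, hτ]
      simp only [Nat.add_sub_cancel, smul_eq_mul, nsmul_eq_mul]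
      ring
    induction k with
    | zero => simpa using hk
    | succ k ihk =>
      have h1 := hJ _ hk
      rw [hd k] at h1
      have h2 : τ ^ (k + 2) * dd g ∈ J := by
        have : τ ^ (k + 2) * dd g = τ * (((k + 1 : ℕ) : R) * (τ ^ k * g) + τ ^ (k + 1) * dd g) -
            ((k + 1 : ℕ) : R) * (τ ^ (k + 1) * g) := by ring
        rw [this]
        exact Ideal.sub_mem _ (Ideal.mul_mem_left _ _ h1) (Ideal.mul_mem_left _ _ hk)
      have h3 : dd g ∈ J := ih (dd g) (by rw [← Function.iterate_succ_apply]; exact hg) (k + 2) h2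
      have h4 : ((k + 1 : ℕ) : R) * (τ ^ k * g) ∈ J := by
        have : ((k + 1 : ℕ) : R) * (τ ^ k * g) =
            (((k + 1 : ℕ) : R) * (τ ^ k * g) + τ ^ (k + 1) * dd g) - τ ^ (k + 1) * dd g := by ring
        rw [this]
        exact Ideal.sub_mem _ h1 (Ideal.mul_mem_left _ _ h3)
      exact ihk (natCast_cancel (Nat.succ_ne_zero k) h4)

theorem dd_lin (v : V) : dd (lin v) = C ((v 0 : ℤ) : ℂ) := pderiv_lin 0 v

theorem dd_lin_zero {v : V} (h : v 0 = 0) : dd (lin v) = 0 := by
  rw [dd_lin, h, Int.cast_zero, C_0]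

theorem stable_span {a b : R} (ha : dd a = 0) (hb : dd b = 0) (g : R)
    (hg : g ∈ Ideal.span {a, b}) : dd g ∈ Ideal.span {a, b} := by
  obtain ⟨u, v, rfl⟩ := Ideal.mem_span_pair.1 hg
  rw [map_add, dd_mul, dd_mul, ha, hb, mul_zero, mul_zero, zero_add, zero_add]
  exact Ideal.mem_span_pair.2 ⟨dd u, dd v, by ring⟩

theorem stable_idl {f : Fin 13 → V} {c : Comp} (h1 : f (b1 c) 0 = 0) (h2 : f (b2 c) 0 = 0) (g : R)
    (hg : g ∈ idl f c) : dd g ∈ idl f c := by
  have hz : ∀ (x : ℤ) (v : V), v 0 = 0 → dd (lin (x • v)) = 0 := by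
    intro x v hv
    apply dd_lin_zero
    simp [hv]
  have h2' : (dd (2 : R)) = 0 := by
    have : (2 : R) = C (2 : ℂ) := (map_ofNat C 2).symm
    rw [this]
    exact pderiv_C
  cases c with
  | P i j => exact stable_span (dd_lin_zero h1) (dd_lin_zero h2) g hg
  | T t =>
    have e1 : dd (lin (t.x • f t.i)) = 0 := hz t.x _ h1
    have e2 : dd (lin (t.y • f t.j)) = 0 := hz t.y _ h2
    refine stable_span ?_ ?_ g hg
    · change dd (ga f t * (ga f t + 2 * gb f t)) = 0
      rw [dd_mul, map_add, dd_mul, ga, gb, e1, e2, h2']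
      ring
    · change dd (gb f t * (gb f t + 2 * ga f t)) = 0
      rw [dd_mul, map_add, dd_mul, ga, gb, e1, e2, h2']
      ring
  | U t =>
    have e1 : dd (lin (t.x • f t.i)) = 0 := hz t.x _ h1
    have e2 : dd (lin (t.y • f t.j)) = 0 := hz t.y _ h2
    refine stable_span ?_ ?_ g hg
    · change dd (ga f t - gb f t) = 0
      rw [map_sub, ga, gb, e1, e2, sub_zero]
    · change dd (ga f t * gb f t) = 0
      rw [dd_mul, ga, gb, e1, e2]
      ring

theorem s_notMem {p q : V} (h : nd p q) (α : ℂ) : lin sV - C α ∉ Pid p q := by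
  rw [mem_Pid h, map_sub, eps_s h]
  have : eps p q (C α) = Polynomial.C (Polynomial.C α) := algHom_C _ _
  rw [this]
  exact Polynomial.X_sub_C_ne_zero _

/-- first half of regularity -/
theorem reg_first {f : Fin 13 → V} {L : List Comp} (hL : ∀ c ∈ L, okc f c) (α : ℂ) (g : R)
    (hg : (lin sV - C α) * g ∈ II f L) : g ∈ II f L := by
  rw [mem_II] at hg ⊢
  exact fun c hc => prim_idl (hL c hc) _ _ (s_notMem (okc_nd (hL c hc)) α) (hg c hc)

/-- a union of components with a common vertex satisfies the regularity condition -/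
theorem reg_cone {f : Fin 13 → V} {L : List Comp} (hL : ∀ c ∈ L, okc f c)
    (h0 : ∀ c ∈ L, f (b1 c) 0 = 0 ∧ f (b2 c) 0 = 0) : Reg (II f L) := by
  intro α β
  refine ⟨reg_first hL α, ?_⟩
  intro g hg
  set J := II f L ⊔ Ideal.span {lin sV - C α} with hJ
  have hst : ∀ g ∈ J, dd g ∈ J := by
    intro g hg
    obtain ⟨i, hi, b, rfl⟩ := mem_sup_span.1 hg
    have hs : dd (lin sV - C α) = 0 := by
      rw [map_sub, dd_lin_zero (by rfl)]
      simp
    rw [map_add, dd_mul, hs, mul_zero, add_zero]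
    refine mem_sup_span.2 ⟨dd i, ?_, dd b, rfl⟩
    rw [mem_II] at hi ⊢
    exact fun c hc => stable_idl (h0 c hc).1 (h0 c hc).2 i (hi c hc)
  have hτ : dd (lin tV - C β) = 1 := by
    rw [map_sub, dd_lin]
    have h1 : (dd (C β) : R) = 0 := pderiv_C
    have h2 : tV 0 = 1 := rfl
    rw [h1, h2]
    simp
  obtain ⟨n, hn⟩ := nilp g
  exact stable_cancel hst hτ n g hn 1 (by rw [pow_one]; exact hg)

theorem II_cons (f : Fin 13 → V) (c : Comp) (L : List Comp) : II f (c :: L) = idl f c ⊓ II f L := rfl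

theorem II_congr {f : Fin 13 → V} {L L' : List Comp} (h : ∀ c, c ∈ L ↔ c ∈ L') :
    II f L = II f L' := by
  ext g
  rw [mem_II, mem_II]
  exact ⟨fun h1 c hc => h1 c ((h c).2 hc), fun h1 c hc => h1 c ((h c).1 hc)⟩

theorem PP_notMem {f : Fin 13 → V} {p q : V} (h : nd p q) {S : Finset (Fin 13)}
    (hl : ∀ r ∈ S, ¬ inP (f r) p q) : PP f S ∉ Pid p q := by
  have hpr := Pid_prime h
  rw [PP, hpr.prod_mem_iff]
  rintro ⟨r, hr, h1⟩
  exact hl r hr ((lin_mem_Pid h _).1 h1)

/-- conditions for adding the line cut out by the planes `d` and `a` -/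
def okAdd (f : Fin 13 → V) (S : Finset (Fin 13)) (d a : Fin 13) (L : List Comp)
    (σ : Fin 13 → ℤ) : Prop :=
  a ∈ S ∧ σ a ≠ 0 ∧ (∀ c ∈ L, okc f c ∧ okS S σ c) ∧ okClus f S a L ∧ nd (f d) (f a) ∧
    ∀ r ∈ S.erase a, ¬ inP (f r) (f d) (f a)

instance (f : Fin 13 → V) (S : Finset (Fin 13)) (d a : Fin 13) (L : List Comp) (σ : Fin 13 → ℤ) :
    Decidable (okAdd f S d a L σ) := inferInstanceAs (Decidable (_ ∧ _ ∧ _ ∧ _ ∧ _ ∧ _))

theorem add_line {f : Fin 13 → V} {S : Finset (Fin 13)} {d a : Fin 13} {L : List Comp}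
    {σ : Fin 13 → ℤ} (hok : okAdd f S d a L σ) (hreg : Reg (II f L)) :
    Reg (II f (.P d a :: L)) := by
  obtain ⟨ha, hσ, hL, hcl, hnd, hr⟩ := hok
  have hss : ss f S σ ∈ II f L := by
    rw [mem_II]
    exact fun c hc => ss_mem (hL c hc).1 (hL c hc).2
  have hpr := Pid_prime hnd
  rw [II_cons]
  refine reg_line hpr (ss f S σ) hss ?_ ?_ hreg (reg_Pid hnd)
  · intro h1
    have h2 : PP f (S.erase a) ∈ Pid (f d) (f a) := by
      refine mem_of_unit (C_ne hσ) ?_
      have : C ((σ a : ℤ) : ℂ) * PP f (S.erase a) = ss f S σ - lin (f a) * ss f (S.erase a) σ := by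
        rw [ss_erase σ ha]; ring
      rw [this]
      exact Ideal.sub_mem _ h1 (Ideal.mul_mem_right _ _ (self_mem_right _ _))
    exact PP_notMem hnd hr h2
  · intro g hg
    obtain ⟨u, v, rfl⟩ := mem_Cl.1 (trace (fun c hc => (hL c hc).1) hcl g hg)
    refine ⟨C (((σ a : ℤ) : ℂ)⁻¹) * v, ?_⟩
    have : lin (f a) * u + PP f (S.erase a) * v - ss f S σ * (C (((σ a : ℤ) : ℂ)⁻¹) * v) =
        (u - ss f (S.erase a) σ * (C (((σ a : ℤ) : ℂ)⁻¹) * v)) * lin (f a) := by
      rw [ss_erase σ ha]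
      linear_combination (-(v * PP f (S.erase a))) * C_ne hσ
    rw [this]
    exact Ideal.mul_mem_left _ _ (self_mem_right _ _)

end Pool.Agent.Y186.CM
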