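import Mathlib
import Pool.Agent.Y186.CM.Cone

set_option autoImplicit false

/-!
# From the regularity condition to the Cohen-Macaulay property
-/

namespace Pool.Agent.Y186.CM

open MvPolynomial
open Pool.Agent.W490.CMA (R V lin det4 cramer Pid A eV algA lin_eV self_mem_left self_mem_right
  pderiv_prod pderiv_lin aeval_lin)

/-- A commutative ring is Cohen-Macaulay: every localization at a prime ideal has a regular
sequence in the maximal ideal whose length is the Krull dimension -/
def IsCM (S : Type) [CommRing S] : Prop :=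
  ∀ (p : Ideal S) [p.IsPrime], ∃ rs : List (Localization.AtPrime p),
    (∀ r ∈ rs, r ∈ IsLocalRing.maximalIdeal (Localization.AtPrime p)) ∧
    RingTheory.Sequence.IsRegular (Localization.AtPrime p) rs ∧
    (rs.length : WithBot ℕ∞) = ringKrullDim (Localization.AtPrime p)

theorem height_Pid {p q : V} (h : nd p q) : (Pid p q).height = 2 := by
  have hpr := Pid_prime h
  have hp := prime_lin (nd_left h)
  have hpr1 : (Ideal.span {lin p}).IsPrime := (Ideal.span_singleton_prime hp.ne_zero).2 hp
  have hlt1 : (⊥ : Ideal R) < Ideal.span {lin p} := by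
    rw [bot_lt_iff_ne_bot, Ne, Ideal.span_singleton_eq_bot]
    exact hp.ne_zero
  have hlt2 : Ideal.span {lin p} < Pid p q := by
    rw [SetLike.lt_iff_le_and_exists]
    refine ⟨?_, lin q, self_mem_right _ _, ?_⟩
    · rw [Ideal.span_le, Set.singleton_subset_iff]
      exact self_mem_left _ _
    · rw [Ideal.mem_span_singleton]
      exact not_dvd h
  apply le_antisymm
  · have hmin : Pid p q ∈ (Ideal.span (({lin p, lin q} : Finset R) : Set R)).minimalPrimes := by
      have : (Ideal.span (({lin p, lin q} : Finset R) : Set R)) = Pid p q := by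
        rw [Finset.coe_pair]; rfl
      rw [this, Ideal.minimalPrimes_eq_subsingleton_self]
      exact Set.mem_singleton _
    refine le_trans (Ideal.height_le_card_of_mem_minimalPrimes_span_finset hmin) ?_
    exact_mod_cast Finset.card_le_two
  · have h1 := Ideal.height_add_one_le_of_lt_of_isPrime hlt1
    have h2 := Ideal.height_add_one_le_of_lt_of_isPrime hlt2
    calc (2 : ℕ∞) = 0 + 1 + 1 := by norm_num
      _ ≤ (⊥ : Ideal R).height + 1 + 1 := by gcongr; exact zero_le
      _ ≤ (Ideal.span {lin p}).height + 1 := by gcongr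
      _ ≤ _ := h2

theorem Pid_not_lt {p q p' q' : V} (h : nd p q) (h' : nd p' q') : ¬ Pid p q < Pid p' q' := by
  intro hlt
  have := Pid_prime h
  have := Pid_prime h'
  have h1 := Ideal.height_add_one_le_of_lt_of_isPrime hlt
  rw [height_Pid h, height_Pid h'] at h1
  revert h1
  decide

variable {f : Fin 13 → V}

theorem base_le_of_idl {c : Comp} (hc : okc f c) {P : Ideal R} (hP : P.IsPrime)
    (h : idl f c ≤ P) : Pid (f (b1 c)) (f (b2 c)) ≤ P := by
  have h3 : (3 : R) ∉ P := by
    intro h3
    apply hP.ne_top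
    rw [Ideal.eq_top_iff_one, ← three_inv]
    exact Ideal.mul_mem_right _ _ h3
  cases c with
  | P i j => exact h
  | T t =>
    have ht : okt f t := hc
    obtain ⟨⟨hx, hy, hz⟩, -, -, hnd⟩ := ht
    change Tid (ga f t) (gb f t) ≤ P at h
    have m1 : ga f t * (ga f t + 2 * gb f t) ∈ P := h (Ideal.subset_span (by simp))
    have m2 : gb f t * (gb f t + 2 * ga f t) ∈ P := h (Ideal.subset_span (by simp))
    have key : ga f t ∈ P ∧ gb f t ∈ P := by
      rcases hP.mem_or_mem m1 with h1 | h1
      · refine ⟨h1, ?_⟩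
        rcases hP.mem_or_mem m2 with h2 | h2
        · exact h2
        · have : gb f t = (gb f t + 2 * ga f t) - 2 * ga f t := by ring
          rw [this]
          exact Ideal.sub_mem _ h2 (Ideal.mul_mem_left _ _ h1)
      · rcases hP.mem_or_mem m2 with h2 | h2
        · refine ⟨?_, h2⟩
          have : ga f t = (ga f t + 2 * gb f t) - 2 * gb f t := by ring
          rw [this]
          exact Ideal.sub_mem _ h1 (Ideal.mul_mem_left _ _ h2)
        · have h5 : 3 * gb f t ∈ P := by
            have : 3 * gb f t = 2 * (ga f t + 2 * gb f t) - (gb f t + 2 * ga f t) := by ring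
            rw [this]
            exact Ideal.sub_mem _ (Ideal.mul_mem_left _ _ h1) h2
          have h6 := (hP.mem_or_mem h5).resolve_left h3
          refine ⟨?_, h6⟩
          have : ga f t = (ga f t + 2 * gb f t) - 2 * gb f t := by ring
          rw [this]
          exact Ideal.sub_mem _ h1 (Ideal.mul_mem_left _ _ h6)
    change Pid (f t.i) (f t.j) ≤ P
    rw [← Pid_smul _ _ hx hy, Pid, Ideal.span_le]
    rintro x (rfl | hx')
    · exact key.1
    · rw [Set.mem_singleton_iff] at hx'
      subst hx'
      exact key.2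
  | U t =>
    have ht : okt f t := hc
    obtain ⟨⟨hx, hy, hz⟩, -, -, hnd⟩ := ht
    change Uid (ga f t) (gb f t) ≤ P at h
    have m1 : ga f t - gb f t ∈ P := h (Ideal.subset_span (by simp))
    have m2 : ga f t * gb f t ∈ P := h (Ideal.subset_span (by simp))
    have key : ga f t ∈ P ∧ gb f t ∈ P := by
      rcases hP.mem_or_mem m2 with h1 | h1
      · refine ⟨h1, ?_⟩
        have : gb f t = ga f t - (ga f t - gb f t) := by ring
        rw [this]
        exact Ideal.sub_mem _ h1 m1
      · refine ⟨?_, h1⟩
        have : ga f t = (ga f t - gb f t) + gb f t := by ring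
        rw [this]
        exact Ideal.add_mem _ m1 h1
    change Pid (f t.i) (f t.j) ≤ P
    rw [← Pid_smul _ _ hx hy, Pid, Ideal.span_le]
    rintro x (rfl | hx')
    · exact key.1
    · rw [Set.mem_singleton_iff] at hx'
      subst hx'
      exact key.2

theorem exists_le_of_II {L : List Comp} (hL : ∀ c ∈ L, okc f c) {P : Ideal R} (hP : P.IsPrime)
    (h : II f L ≤ P) : ∃ c ∈ L, Pid (f (b1 c)) (f (b2 c)) ≤ P := by
  induction L with
  | nil =>
    exfalso
    have : II f [] = ⊤ := rfl
    rw [this] at h
    exact hP.ne_top (top_le_iff.1 h)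
  | cons a L ih =>
    rw [II_cons, hP.inf_le] at h
    rcases h with h | h
    · exact ⟨a, by simp, base_le_of_idl (hL a (by simp)) hP h⟩
    · obtain ⟨pq, hpq, hle⟩ := ih (fun c hc => hL c (List.mem_cons_of_mem _ hc)) h
      exact ⟨pq, List.mem_cons_of_mem _ hpq, hle⟩

theorem dim_A : ringKrullDim A = 2 := by
  rw [Polynomial.ringKrullDim_of_isNoetherianRing, Polynomial.ringKrullDim_of_isNoetherianRing,
    ringKrullDim_eq_zero_of_field]
  norm_num

theorem dim_Pid {p q : V} (h : nd p q) : ringKrullDim (R ⧸ Pid p q) ≤ 2 := by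
  have hker : RingHom.ker (eps p q).toRingHom = Pid p q := by
    ext g
    rw [mem_Pid h]
    rfl
  have hsurj : Function.Surjective (eps p q).toRingHom := fun x => ⟨iota x, eps_iota h x⟩
  have e := (Ideal.quotEquivOfEq hker.symm).trans (RingHom.quotientKerEquivOfSurjective hsurj)
  rw [ringKrullDim_eq_of_ringEquiv e, dim_A]

theorem dim_II {L : List Comp} (hL : ∀ c ∈ L, okc f c) : ringKrullDim (R ⧸ II f L) ≤ 2 := by
  rw [ringKrullDim_quotient]
  unfold Order.krullDim
  refine iSup_le fun l => ?_
  have h0 : II f L ≤ l.head.1.asIdeal := l.head.2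
  obtain ⟨c, hc, hle⟩ := exists_le_of_II hL l.head.1.2 h0
  have hall : ∀ i, Pid (f (b1 c)) (f (b2 c)) ≤ (l i).1.asIdeal := fun i =>
    le_trans hle (l.head_le i)
  let l' : LTSeries (PrimeSpectrum.zeroLocus (R := R) (Pid (f (b1 c)) (f (b2 c)))) :=
    { length := l.length
      toFun := fun i => ⟨(l i).1, hall i⟩
      step := fun i => l.step i }
  have h1 := dim_Pid (okc_nd (hL c hc))
  rw [ringKrullDim_quotient] at h1
  exact le_trans (Order.LTSeries.length_le_krullDim l') h1

theorem wr_of_reg (I : Ideal R) (h : Reg I) (α β : ℂ) :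
    RingTheory.Sequence.IsWeaklyRegular (R ⧸ I)
      [Ideal.Quotient.mk I (lin sV - C α), Ideal.Quotient.mk I (lin tV - C β)] := by
  obtain ⟨h1, h2⟩ := h α β
  rw [RingTheory.Sequence.isWeaklyRegular_cons_iff, RingTheory.Sequence.isWeaklyRegular_singleton_iff]
  constructor
  · intro a b hab
    obtain ⟨a, rfl⟩ := Ideal.Quotient.mk_surjective a
    obtain ⟨b, rfl⟩ := Ideal.Quotient.mk_surjective b
    have hab' : Ideal.Quotient.mk I ((lin sV - C α) * a) = Ideal.Quotient.mk I ((lin sV - C α) * b) := by
      rw [map_mul, map_mul]; exact hab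
    rw [Ideal.Quotient.eq, ← mul_sub] at hab'
    exact Ideal.Quotient.eq.2 (h1 _ hab')
  · intro a b hab
    obtain ⟨a, rfl⟩ := Submodule.Quotient.mk_surjective _ a
    obtain ⟨b, rfl⟩ := Submodule.Quotient.mk_surjective _ b
    obtain ⟨a, rfl⟩ := Ideal.Quotient.mk_surjective a
    obtain ⟨b, rfl⟩ := Ideal.Quotient.mk_surjective b
    have key : ∀ x y : R, (Submodule.Quotient.mk (Ideal.Quotient.mk I x) :
        QuotSMulTop (Ideal.Quotient.mk I (lin sV - C α)) (R ⧸ I)) =
        Submodule.Quotient.mk (Ideal.Quotient.mk I y) ↔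
        x - y ∈ I ⊔ Ideal.span {lin sV - C α} := by
      intro x y
      rw [Submodule.Quotient.eq, Submodule.mem_smul_pointwise_iff_exists, mem_sup_span]
      constructor
      · rintro ⟨z, -, hz⟩
        obtain ⟨z, rfl⟩ := Ideal.Quotient.mk_surjective z
        have hz' : Ideal.Quotient.mk I ((lin sV - C α) * z) = Ideal.Quotient.mk I (x - y) := by
          rw [map_mul, map_sub (Ideal.Quotient.mk I) x y]; exact hz
        rw [eq_comm, Ideal.Quotient.eq] at hz'
        exact ⟨_, hz', z, by ring⟩
      · rintro ⟨i, hi, b, hb⟩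
        refine ⟨Ideal.Quotient.mk I b, trivial, ?_⟩
        rw [smul_eq_mul, ← map_mul, ← map_sub, eq_comm, Ideal.Quotient.eq, hb]
        simpa using hi
    have hab' : (Submodule.Quotient.mk (Ideal.Quotient.mk I ((lin tV - C β) * a)) :
        QuotSMulTop (Ideal.Quotient.mk I (lin sV - C α)) (R ⧸ I)) =
        Submodule.Quotient.mk (Ideal.Quotient.mk I ((lin tV - C β) * b)) := by
      rw [map_mul, map_mul]; exact hab
    rw [key, ← mul_sub] at hab'
    exact (key a b).2 (h2 _ hab')

theorem isCM_of_reg {L : List Comp} (hL : ∀ c ∈ L, okc f c) (hreg : Reg (II f L)) :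
    IsCM (R ⧸ II f L) := by
  intro p hp
  have hdim := dim_II hL
  have hnoe : IsNoetherianRing (Localization.AtPrime p) :=
    IsLocalization.isNoetherianRing p.primeCompl _ inferInstance
  by_cases h0 : p.height = 0
  · refine ⟨[], by simp, RingTheory.Sequence.IsRegular.nil _ _, ?_⟩
    rw [IsLocalization.AtPrime.ringKrullDim_eq_height p, h0]
    rfl
  have h1' : (1 : ℕ∞) ≤ p.height := Order.one_le_iff_ne_zero.2 h0
  by_cases h1 : p.height ≤ 1
  · have h1e : p.height = 1 := le_antisymm h1 h1'
    -- a regular element of `p`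
    have hnot : ¬ ∃ c ∈ L.toFinset, p.comap (Ideal.Quotient.mk (II f L)) ≤
        Pid (f (b1 c)) (f (b2 c)) := by
      rintro ⟨c, hc, hle⟩
      rw [List.mem_toFinset] at hc
      -- a prime ideal strictly below `p`
      have hne : p ∉ minimalPrimes (R ⧸ II f L) := by
        intro hm
        exact h0 (Ideal.height_eq_zero_iff.2 hm)
      obtain ⟨q, hq, hqp⟩ := Ideal.exists_minimalPrimes_le (J := p) (bot_le)
      have hqpr : q.IsPrime := hq.1.1
      have hlt : q < p := lt_of_le_of_ne hqp (fun h => hne (h ▸ hq))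
      have hIq : II f L ≤ q.comap (Ideal.Quotient.mk (II f L)) := by
        intro x hx
        rw [Ideal.mem_comap, Ideal.Quotient.eq_zero_iff_mem.2 hx]
        exact Ideal.zero_mem _
      obtain ⟨c', hc', hle'⟩ := exists_le_of_II hL (Ideal.comap_isPrime _ q) hIq
      have hlt' : q.comap (Ideal.Quotient.mk (II f L)) < p.comap (Ideal.Quotient.mk (II f L)) := by
        refine lt_of_le_of_ne (Ideal.comap_mono hqp) fun h => ?_
        have := congrArg (Ideal.map (Ideal.Quotient.mk (II f L))) h
        rw [Ideal.map_comap_of_surjective _ Ideal.Quotient.mk_surjective,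
          Ideal.map_comap_of_surjective _ Ideal.Quotient.mk_surjective] at this
        exact hlt.ne this
      exact Pid_not_lt (okc_nd (hL c' hc')) (okc_nd (hL c hc))
        (lt_of_le_of_lt hle' (lt_of_lt_of_le hlt' hle))
    have hnot' : ¬ ((p.comap (Ideal.Quotient.mk (II f L)) : Set R) ⊆
        ⋃ c ∈ (↑L.toFinset : Set Comp), (Pid (f (b1 c)) (f (b2 c)) : Set R)) := by
      intro h
      apply hnot
      exact (Ideal.subset_union_prime (Comp.P 0 0) (Comp.P 0 0) (fun c hc _ _ =>
        Pid_prime (okc_nd (hL c (List.mem_toFinset.1 hc))))).1 h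
    obtain ⟨x, hxp, hx⟩ := Set.not_subset.1 hnot'
    have hx' : ∀ c ∈ L, x ∉ Pid (f (b1 c)) (f (b2 c)) := by
      intro c hc hxc
      apply hx
      simp only [Set.mem_iUnion]
      exact ⟨c, by simpa using hc, hxc⟩
    have hwr : RingTheory.Sequence.IsWeaklyRegular (R ⧸ II f L) [Ideal.Quotient.mk (II f L) x] := by
      rw [RingTheory.Sequence.isWeaklyRegular_singleton_iff]
      intro a b hab
      obtain ⟨a, rfl⟩ := Ideal.Quotient.mk_surjective a
      obtain ⟨b, rfl⟩ := Ideal.Quotient.mk_surjective b
      have hab' : Ideal.Quotient.mk (II f L) (x * a) = Ideal.Quotient.mk (II f L) (x * b) := by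
        rw [map_mul, map_mul]; exact hab
      rw [Ideal.Quotient.eq, ← mul_sub, mem_II] at hab'
      refine Ideal.Quotient.eq.2 ((mem_II L _).2 fun c hc => ?_)
      exact prim_idl (hL c hc) _ _ (hx' c hc) (hab' c hc)
    have hmem : ∀ r ∈ [Ideal.Quotient.mk (II f L) x], r ∈ p := by
      intro r hr
      rw [List.mem_singleton] at hr
      subst hr
      exact hxp
    have hr := hwr.isRegular_of_isLocalization_of_mem (S := Localization.AtPrime p) p hmem
    refine ⟨_, ?_, hr, ?_⟩
    · intro r hr
      obtain ⟨r', hr', rfl⟩ := List.mem_map.1 hr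
      exact (IsLocalization.AtPrime.to_map_mem_maximal_iff (Localization.AtPrime p) p r').2 (hmem r' hr')
    · rw [IsLocalization.AtPrime.ringKrullDim_eq_height p, h1e]
      rfl
  · have h2 : (2 : ℕ∞) ≤ p.height := by
      rw [not_le] at h1
      have := Order.add_one_le_of_lt h1
      norm_num at this
      exact this
    have h3 : p.height ≤ 2 := by
      have := le_trans (Ideal.height_le_ringKrullDim_of_isPrime (I := p)) hdim
      exact WithBot.coe_le_coe.1 this
    have h4 : p.height = 2 := le_antisymm h3 h2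
    have hmax : p.IsMaximal := by
      obtain ⟨M, hM, hpM⟩ := Ideal.exists_le_maximal p hp.ne_top
      rcases eq_or_lt_of_le hpM with rfl | hlt
      · exact hM
      · exfalso
        have h5 := Ideal.height_add_one_le_of_lt_of_isPrime hlt
        have h6 : M.height ≤ 2 := by
          have := le_trans (Ideal.height_le_ringKrullDim_of_isPrime (I := M)) hdim
          exact WithBot.coe_le_coe.1 this
        rw [h4] at h5
        have h7 := le_trans h5 h6
        revert h7
        decide
    have hmax' : (p.comap (Ideal.Quotient.mk (II f L))).IsMaximal :=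
      Ideal.comap_isMaximal_of_surjective _ Ideal.Quotient.mk_surjective
    obtain ⟨x, hx⟩ := MvPolynomial.isMaximal_iff_eq_vanishingIdeal_singleton.1 hmax'
    have hσ : ∀ (v : V), Ideal.Quotient.mk (II f L) (lin v - C (aeval x (lin v))) ∈ p := by
      intro v
      rw [← Ideal.mem_comap, hx, mem_vanishingIdeal_iff]
      intro y hy
      rw [Set.mem_singleton_iff] at hy
      subst hy
      simp
    have hmem : ∀ r ∈ [Ideal.Quotient.mk (II f L) (lin sV - C (aeval x (lin sV))),
        Ideal.Quotient.mk (II f L) (lin tV - C (aeval x (lin tV)))], r ∈ p := by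
      intro r hr
      simp only [List.mem_cons, List.not_mem_nil, or_false] at hr
      rcases hr with rfl | rfl
      · exact hσ sV
      · exact hσ tV
    have hr := (wr_of_reg (II f L) hreg (aeval x (lin sV)) (aeval x (lin tV))).isRegular_of_isLocalization_of_mem
      (S := Localization.AtPrime p) p hmem
    refine ⟨_, ?_, hr, ?_⟩
    · intro r hr
      obtain ⟨r', hr', rfl⟩ := List.mem_map.1 hr
      exact (IsLocalization.AtPrime.to_map_mem_maximal_iff (Localization.AtPrime p) p r').2 (hmem r' hr')
    · rw [IsLocalization.AtPrime.ringKrullDim_eq_height p, h4]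
      rfl

end Pool.Agent.Y186.CM
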