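import Mathlib
import Pool.Agent.Y186.CM.CMring

set_option autoImplicit false

/-!
# The top-dimensional part of the Jacobian ideal of a product of linear forms
-/

namespace Pool.Agent.Y186.CM

open MvPolynomial
open Pool.Agent.W490.CMA (R V lin det4 cramer Pid A eV algA lin_eV self_mem_left self_mem_right
  pderiv_prod pderiv_lin aeval_lin)

/-- The intersection of the height-two primary components of an ideal `J` all of whose minimal
primes have height at least two: the intersection, over the prime ideals `P` of height two that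
contain `J`, of the preimages of `J S_P` under `S → S_P`. -/
noncomputable def topDim {S : Type} [CommRing S] (J : Ideal S) : Ideal S :=
  ⨅ (P : PrimeSpectrum S) (_ : J ≤ P.asIdeal) (_ : P.asIdeal.height = 2),
    (J.map (algebraMap S (Localization.AtPrime P.asIdeal))).comap
      (algebraMap S (Localization.AtPrime P.asIdeal))

theorem mem_topDim {S : Type} [CommRing S] (J : Ideal S) (g : S) :
    g ∈ topDim J ↔ ∀ P : Ideal S, P.IsPrime → J ≤ P → P.height = 2 → ∃ s, s ∉ P ∧ s * g ∈ J := by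
  unfold topDim
  simp only [Ideal.mem_iInf, Ideal.mem_comap]
  constructor
  · intro h P hP hJ h2
    have h3 := h ⟨P, hP⟩ hJ h2
    rw [IsLocalization.algebraMap_mem_map_algebraMap_iff P.primeCompl] at h3
    obtain ⟨m, hm, hmg⟩ := h3
    exact ⟨m, hm, hmg⟩
  · intro h P hJ h2
    obtain ⟨s, hs, hsg⟩ := h P.asIdeal P.isPrime hJ h2
    rw [IsLocalization.algebraMap_mem_map_algebraMap_iff P.asIdeal.primeCompl]
    exact ⟨s, hs, hsg⟩

/-- the Jacobian ideal of the product of the thirteen linear forms -/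
noncomputable def JJ (f : Fin 13 → V) : Ideal R :=
  Ideal.span (Set.range fun i : Fin 4 => pderiv (R := ℂ) i (∏ a : Fin 13, lin (f a)))

variable {f : Fin 13 → V}

theorem pderiv_eq (i : Fin 4) :
    pderiv (R := ℂ) i (∏ a : Fin 13, lin (f a)) = ss f Finset.univ (fun a => f a i) := by
  rw [pderiv_prod, ss]
  refine Finset.sum_congr rfl fun a _ => ?_
  rw [pderiv_lin, PP, mul_comm]

theorem ss_mem_JJ (i : Fin 4) : ss f Finset.univ (fun a => f a i) ∈ JJ f := by
  rw [← pderiv_eq]
  exact Ideal.subset_span ⟨i, rfl⟩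

/-- weights of a directional derivative -/
def wt (f : Fin 13 → V) (v : V) (a : Fin 13) : ℤ := ∑ k, v k * f a k

theorem ss_wt_mem (v : V) : ss f Finset.univ (wt f v) ∈ JJ f := by
  have : ss f Finset.univ (wt f v) =
      ∑ k, C ((v k : ℤ) : ℂ) * ss f Finset.univ (fun a => f a k) := by
    simp only [ss, Finset.mul_sum]
    rw [Finset.sum_comm]
    refine Finset.sum_congr rfl fun a _ => ?_
    rw [wt]
    push_cast
    rw [map_sum, Finset.sum_mul]
    refine Finset.sum_congr rfl fun k _ => ?_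
    rw [C_mul]
    ring
  rw [this]
  exact Ideal.sum_mem _ fun k _ => Ideal.mul_mem_left _ _ (ss_mem_JJ k)

/-- the conditions on the list of components -/
def okTopC (f : Fin 13 → V) : Comp → Prop
  | .P i j => (i ≠ j ∧ nd (f i) (f j)) ∧ ∀ q, q ≠ i → q ≠ j → ¬ inP (f q) (f i) (f j)
  | .T t => okt f t ∧ ∀ q, q ≠ t.i → q ≠ t.j → q ≠ t.k → ¬ inP (f q) (f t.i) (f t.j)
  | .U _ => False

instance (f : Fin 13 → V) : (c : Comp) → Decidable (okTopC f c)
  | .P i j => inferInstanceAs (Decidable ((i ≠ j ∧ nd (f i) (f j)) ∧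
      ∀ q, q ≠ i → q ≠ j → ¬ inP (f q) (f i) (f j)))
  | .T t => inferInstanceAs (Decidable (okt f t ∧
      ∀ q, q ≠ t.i → q ≠ t.j → q ≠ t.k → ¬ inP (f q) (f t.i) (f t.j)))
  | .U _ => inferInstanceAs (Decidable False)

/-- the conditions on the list of components -/
def okTop (f : Fin 13 → V) (L : List Comp) : Prop :=
  (∀ c ∈ L, okTopC f c) ∧ ∀ i j, i ≠ j → nd (f i) (f j) ∧
    ∃ c ∈ L, inP (f (b1 c)) (f i) (f j) ∧ inP (f (b2 c)) (f i) (f j)

instance (f : Fin 13 → V) (L : List Comp) : Decidable (okTop f L) :=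
  inferInstanceAs (Decidable (_ ∧ _))

theorem okTopC_okc {c : Comp} (h : okTopC f c) : okc f c := by
  cases c with
  | P i j => exact h.1
  | T t => exact h.1
  | U t => exact h.elim

theorem JJ_le {c : Comp} (h : okTopC f c) : JJ f ≤ idl f c := by
  rw [JJ, Ideal.span_le]
  rintro _ ⟨k, rfl⟩
  change pderiv (R := ℂ) k (∏ a : Fin 13, lin (f a)) ∈ idl f c
  rw [pderiv_eq]
  refine ss_mem (okTopC_okc h) ?_
  cases c with
  | P i j => exact Or.inl ⟨Finset.mem_univ _, Finset.mem_univ _⟩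
  | T t => exact ⟨⟨Finset.mem_univ _, Finset.mem_univ _, Finset.mem_univ _⟩, h.1.2.2.1 k⟩
  | U t => exact h.elim

theorem wt_left (p : V) (a : Fin 13) :
    wt f (fun k => det4 sV tV (eV k) p) a = det4 sV tV (f a) p := by
  simp only [wt, Fin.sum_univ_four, det4, eV]
  simp
  ring

theorem wt_right (p : V) (a : Fin 13) :
    wt f (fun k => det4 sV tV p (eV k)) a = det4 sV tV p (f a) := by
  simp only [wt, Fin.sum_univ_four, det4, eV]
  simp
  ring

theorem det4_self (p : V) : det4 sV tV p p = 0 := by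
  simp only [det4]
  ring

/-- the weighted sum at a double line -/
theorem ss_double {S : Finset (Fin 13)} {i j : Fin 13} (hij : i ≠ j) (hi : i ∈ S) (hj : j ∈ S)
    (σ : Fin 13 → ℤ) : ss f S σ =
      C ((σ i : ℤ) : ℂ) * (lin (f j) * PP f ((S.erase i).erase j)) +
      lin (f i) * (C ((σ j : ℤ) : ℂ) * PP f ((S.erase i).erase j) +
        lin (f j) * ss f ((S.erase i).erase j) σ) := by
  have h1 : j ∈ S.erase i := Finset.mem_erase.2 ⟨hij.symm, hj⟩
  rw [ss_erase σ hi, PP_erase h1, ss_erase σ h1]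

theorem add_notMem {P : Ideal R} {u v : R} (hv : v ∈ P) (hu : u ∉ P) : u + v ∉ P := by
  intro h
  apply hu
  have : u = (u + v) - v := by ring
  rw [this]
  exact Ideal.sub_mem _ h hv

theorem C_mul_notMem {P : Ideal R} {x : ℤ} (hx : x ≠ 0) {u : R} (hu : u ∉ P) :
    C ((x : ℤ) : ℂ) * u ∉ P := fun h => hu (mem_of_unit (C_ne hx) h)

/-- the explicit form of the weighted sum at a triple line, for weights that satisfy the
relation -/
theorem ss_triple {S : Finset (Fin 13)} {t : Tr} (σ : Fin 13 → ℤ) (ht : okt f t)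
    (hS : t.i ∈ S ∧ t.j ∈ S ∧ t.k ∈ S)
    (h0 : t.x * σ t.i + t.y * σ t.j + t.z * σ t.k = 0) :
    ∃ s' : R, C ((t.x : ℤ) : ℂ) * C ((t.y : ℤ) : ℂ) * C ((t.z : ℤ) : ℂ) * ss f S σ =
      -((C ((t.y * σ t.j : ℤ) : ℂ) * rest f S t + gb f t * s') * (ga f t * (ga f t + 2 * gb f t)) +
        (C ((t.x * σ t.i : ℤ) : ℂ) * rest f S t + ga f t * s') *
          (gb f t * (gb f t + 2 * ga f t))) := by
  obtain ⟨h1, h2⟩ := three_mem ht hS
  have hk := okt_rel ht
  have ha := ga_eq (f := f) t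
  have hb := gb_eq (f := f) t
  have h3 := three_inv
  have h0' : C ((t.x : ℤ) : ℂ) * C ((σ t.i : ℤ) : ℂ) + C ((t.y : ℤ) : ℂ) * C ((σ t.j : ℤ) : ℂ) +
      C ((t.z : ℤ) : ℂ) * C ((σ t.k : ℤ) : ℂ) = (0 : R) := by
    rw [← C_mul, ← C_mul, ← C_mul, ← C_add, ← C_add]
    have : ((t.x : ℤ) : ℂ) * ((σ t.i : ℤ) : ℂ) + ((t.y : ℤ) : ℂ) * ((σ t.j : ℤ) : ℂ) +
        ((t.z : ℤ) : ℂ) * ((σ t.k : ℤ) : ℂ) = 0 := by exact_mod_cast h0
    rw [this, C_0]
  refine ⟨C (1 / 3 : ℂ) * ss f (((S.erase t.i).erase t.j).erase t.k) σ, ?_⟩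
  rw [ss_erase σ hS.1, PP_erase h1, PP_erase h2, ss_erase σ h1, PP_erase h2, ss_erase σ h2]
  change C _ * C _ * C _ * (C _ * (lin (f t.j) * (lin (f t.k) * rest f S t)) +
      lin (f t.i) * (C _ * (lin (f t.k) * rest f S t) + lin (f t.j) *
        (C _ * rest f S t + lin (f t.k) * ss f (((S.erase t.i).erase t.j).erase t.k) σ))) = _
  push_cast
  simp only [C_mul]
  generalize ss f (((S.erase t.i).erase t.j).erase t.k) σ = s' at *
  generalize rest f S t = U at *
  generalize ga f t = a at *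
  generalize gb f t = b at *
  generalize C ((t.x : ℤ) : ℂ) = x at *
  generalize C ((t.y : ℤ) : ℂ) = y at *
  generalize C ((t.z : ℤ) : ℂ) = z at *
  generalize C ((σ t.i : ℤ) : ℂ) = σi at *
  generalize C ((σ t.j : ℤ) : ℂ) = σj at *
  generalize C ((σ t.k : ℤ) : ℂ) = σk at *
  generalize lin (f t.i) = li at *
  generalize lin (f t.j) = lj at *
  generalize lin (f t.k) = lk at *
  generalize C (1 / 3 : ℂ) = c3 at *
  have hk' : z * lk = -(a + b) := by linear_combination hk
  subst ha hb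
  linear_combination (x * y * U * σi * lj + x * y * U * σj * li + x * y * li * lj * s') * hk' +
    (x * y * li * lj * U) * h0' + (x * li * (y * lj) * (x * li + y * lj) * s') * h3

/-- every element of a component is, up to a factor that does not vanish on the line, in the
Jacobian ideal -/
theorem loc_mem {c : Comp} (h : okTopC f c) (g : R) (hg : g ∈ idl f c) :
    ∃ s, s ∉ Pid (f (b1 c)) (f (b2 c)) ∧ s * g ∈ JJ f := by
  cases c with
  | P i j =>
    obtain ⟨⟨hij, hnd⟩, hq⟩ := h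
    have hpr := Pid_prime hnd
    change g ∈ Pid (f i) (f j) at hg
    change ∃ s, s ∉ Pid (f i) (f j) ∧ s * g ∈ JJ f
    obtain ⟨u, v, rfl⟩ := Ideal.mem_span_pair.1 hg
    set U := PP f ((Finset.univ.erase i).erase j) with hU
    have hUn : U ∉ Pid (f i) (f j) := by
      refine PP_notMem hnd fun r hr => ?_
      have h1 := Finset.mem_erase.1 hr
      exact hq r (Finset.mem_erase.1 h1.2).1 h1.1
    have e1 := ss_wt_mem (f := f) (fun k => det4 sV tV (eV k) (f j))
    have e2 := ss_wt_mem (f := f) (fun k => det4 sV tV (f i) (eV k))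
    rw [ss_double hij (Finset.mem_univ _) (Finset.mem_univ _), wt_left, wt_left, det4_self,
      Int.cast_zero, C_0, zero_mul, zero_add] at e1
    rw [ss_double hij (Finset.mem_univ _) (Finset.mem_univ _), wt_right, wt_right, det4_self,
      Int.cast_zero, C_0, zero_mul, zero_add] at e2
    set s1 := ss f ((Finset.univ.erase i).erase j) (wt f fun k => det4 sV tV (eV k) (f j))
    set s2 := ss f ((Finset.univ.erase i).erase j) (wt f fun k => det4 sV tV (f i) (eV k))
    have n1 : C ((det4 sV tV (f i) (f j) : ℤ) : ℂ) * U + lin (f i) * s1 ∉ Pid (f i) (f j) :=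
      add_notMem (Ideal.mul_mem_right _ _ (self_mem_left _ _)) (C_mul_notMem hnd hUn)
    have n2 : C ((det4 sV tV (f i) (f j) : ℤ) : ℂ) * U + lin (f j) * s2 ∉ Pid (f i) (f j) :=
      add_notMem (Ideal.mul_mem_right _ _ (self_mem_right _ _)) (C_mul_notMem hnd hUn)
    refine ⟨(C ((det4 sV tV (f i) (f j) : ℤ) : ℂ) * U + lin (f i) * s1) *
      (C ((det4 sV tV (f i) (f j) : ℤ) : ℂ) * U + lin (f j) * s2), ?_, ?_⟩
    · intro h1
      rcases hpr.mem_or_mem h1 with h2 | h2
      · exact n1 h2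
      · exact n2 h2
    · have : (C ((det4 sV tV (f i) (f j) : ℤ) : ℂ) * U + lin (f i) * s1) *
          (C ((det4 sV tV (f i) (f j) : ℤ) : ℂ) * U + lin (f j) * s2) *
          (u * lin (f i) + v * lin (f j)) =
          (v * (C ((det4 sV tV (f i) (f j) : ℤ) : ℂ) * U + lin (f j) * s2)) *
            (C ((det4 sV tV (f i) (f j) : ℤ) : ℂ) * (lin (f j) * U) +
              lin (f i) * (lin (f j) * s1)) +
          (u * (C ((det4 sV tV (f i) (f j) : ℤ) : ℂ) * U + lin (f i) * s1)) *
            (lin (f i) * (C ((det4 sV tV (f i) (f j) : ℤ) : ℂ) * U + lin (f j) * s2)) := by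
        ring
      rw [this]
      exact Ideal.add_mem _ (Ideal.mul_mem_left _ _ e1) (Ideal.mul_mem_left _ _ e2)
  | T t =>
    obtain ⟨ht, hq⟩ := h
    have hnd : nd (f t.i) (f t.j) := ht.2.2.2
    obtain ⟨hx, hy, hz⟩ := ht.1
    have hpr := Pid_prime hnd
    change g ∈ Tid (ga f t) (gb f t) at hg
    change ∃ s, s ∉ Pid (f t.i) (f t.j) ∧ s * g ∈ JJ f
    obtain ⟨α, β, rfl⟩ := mem_Tid.1 hg
    set U := rest f Finset.univ t with hU
    have hUn : U ∉ Pid (f t.i) (f t.j) := by
      refine PP_notMem hnd fun r hr => ?_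
      have h1 := Finset.mem_erase.1 hr
      have h2 := Finset.mem_erase.1 h1.2
      exact hq r (Finset.mem_erase.1 h2.2).1 h2.1 h1.1
    have hm : t.i ∈ (Finset.univ : Finset (Fin 13)) ∧ t.j ∈ (Finset.univ : Finset (Fin 13)) ∧
        t.k ∈ (Finset.univ : Finset (Fin 13)) :=
      ⟨Finset.mem_univ _, Finset.mem_univ _, Finset.mem_univ _⟩
    have hwt : ∀ v : V, t.x * wt f v t.i + t.y * wt f v t.j + t.z * wt f v t.k = 0 := by
      intro v
      have h1 := ht.2.2.1
      simp only [wt, Fin.sum_univ_four]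
      linear_combination (v 0) * h1 0 + (v 1) * h1 1 + (v 2) * h1 2 + (v 3) * h1 3
    have e1 := ss_wt_mem (f := f) (fun k => det4 sV tV (eV k) (f t.j))
    have e2 := ss_wt_mem (f := f) (fun k => det4 sV tV (f t.i) (eV k))
    obtain ⟨s1, hs1⟩ := ss_triple (wt f fun k => det4 sV tV (eV k) (f t.j)) ht hm (hwt _)
    obtain ⟨s2, hs2⟩ := ss_triple (wt f fun k => det4 sV tV (f t.i) (eV k)) ht hm (hwt _)
    rw [wt_left, wt_left, det4_self, mul_zero, Int.cast_zero, C_0, zero_mul, zero_add] at hs1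
    rw [wt_right, wt_right, det4_self, mul_zero, Int.cast_zero, C_0, zero_mul, zero_add] at hs2
    have e1' := Ideal.mul_mem_left (JJ f)
      (C ((t.x : ℤ) : ℂ) * C ((t.y : ℤ) : ℂ) * C ((t.z : ℤ) : ℂ)) e1
    have e2' := Ideal.mul_mem_left (JJ f)
      (C ((t.x : ℤ) : ℂ) * C ((t.y : ℤ) : ℂ) * C ((t.z : ℤ) : ℂ)) e2
    rw [hs1] at e1'
    rw [hs2] at e2'
    have hga : ga f t ∈ Pid (f t.i) (f t.j) := by
      rw [ga_eq]; exact Ideal.mul_mem_left _ _ (self_mem_left _ _)
    have hgb : gb f t ∈ Pid (f t.i) (f t.j) := by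
      rw [gb_eq]; exact Ideal.mul_mem_left _ _ (self_mem_right _ _)
    set δ : ℤ := det4 sV tV (f t.i) (f t.j) with hδ
    have n1 : C ((t.x * δ : ℤ) : ℂ) * U + ga f t * s1 ∉ Pid (f t.i) (f t.j) :=
      add_notMem (Ideal.mul_mem_right _ _ hga) (C_mul_notMem (mul_ne_zero hx hnd) hUn)
    have n2 : C ((t.y * δ : ℤ) : ℂ) * U + gb f t * s2 ∉ Pid (f t.i) (f t.j) :=
      add_notMem (Ideal.mul_mem_right _ _ hgb) (C_mul_notMem (mul_ne_zero hy hnd) hUn)
    refine ⟨(C ((t.x * δ : ℤ) : ℂ) * U + ga f t * s1) * (C ((t.y * δ : ℤ) : ℂ) * U + gb f t * s2) +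
      -(gb f t * s1 * (ga f t * s2)), ?_, ?_⟩
    · refine add_notMem ?_ ?_
      · exact Ideal.neg_mem_iff _ |>.2 (Ideal.mul_mem_right _ _ (Ideal.mul_mem_right _ _ hgb))
      · intro h1
        rcases hpr.mem_or_mem h1 with h2 | h2
        · exact n1 h2
        · exact n2 h2
    · generalize C ((t.x * δ : ℤ) : ℂ) * U = A' at *
      generalize C ((t.y * δ : ℤ) : ℂ) * U = B' at *
      generalize ga f t = a at *
      generalize gb f t = b at *
      have : ((A' + a * s1) * (B' + b * s2) + -(b * s1 * (a * s2))) *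
          (α * (a * (a + 2 * b)) + β * (b * (b + 2 * a))) =
          (α * (a * s2) - β * (B' + b * s2)) *
            (-(b * s1 * (a * (a + 2 * b)) + (A' + a * s1) * (b * (b + 2 * a)))) +
          (β * (b * s1) - α * (A' + a * s1)) *
            (-((B' + b * s2) * (a * (a + 2 * b)) + a * s2 * (b * (b + 2 * a)))) := by
        ring
      rw [this]
      exact Ideal.add_mem _ (Ideal.mul_mem_left _ _ e1') (Ideal.mul_mem_left _ _ e2')
  | U t => exact h.elim

theorem euler : ∑ i : Fin 4, X i * ss f Finset.univ (fun a => f a i) = 13 * PP f Finset.univ := by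
  simp only [ss, Finset.mul_sum]
  rw [Finset.sum_comm]
  have : ∀ a ∈ (Finset.univ : Finset (Fin 13)),
      ∑ i : Fin 4, X i * (C ((f a i : ℤ) : ℂ) * PP f (Finset.univ.erase a)) =
        PP f Finset.univ := by
    intro a ha
    rw [PP_erase ha, lin, Finset.sum_mul]
    refine Finset.sum_congr rfl fun i _ => ?_
    ring
  rw [Finset.sum_congr rfl this, Finset.sum_const, Finset.card_univ, Fintype.card_fin]
  simp

theorem exists_pair {L : List Comp} (hL : okTop f L) {P : Ideal R} (hP : P.IsPrime)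
    (hJ : JJ f ≤ P) : ∃ i j, i ≠ j ∧ Pid (f i) (f j) ≤ P := by
  have h13 : (13 : R) ∉ P := by
    intro h
    apply hP.ne_top
    rw [Ideal.eq_top_iff_one]
    have h1 : C ((13 : ℂ)⁻¹) * (13 : R) = 1 := by
      have : (13 : R) = C (13 : ℂ) := (map_ofNat C 13).symm
      rw [this, ← C_mul, inv_mul_cancel₀ (by norm_num), C_1]
    rw [← h1]
    exact Ideal.mul_mem_left _ _ h
  have h1 : 13 * PP f Finset.univ ∈ P := by
    rw [← euler]
    exact Ideal.sum_mem _ fun i _ => Ideal.mul_mem_left _ _ (hJ (ss_mem_JJ i))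
  have h2 := (hP.mem_or_mem h1).resolve_left h13
  rw [PP, hP.prod_mem_iff] at h2
  obtain ⟨a, -, ha⟩ := h2
  obtain ⟨b0, hb0⟩ : ∃ b : Fin 13, a ≠ b := by
    by_cases h : a = 0
    · exact ⟨1, by rw [h]; decide⟩
    · exact ⟨0, h⟩
  obtain ⟨i, hi⟩ := Function.ne_iff.1 (nd_left (hL.2 a b0 hb0).1)
  have hi' : f a i ≠ 0 := hi
  have h3 := hJ (ss_mem_JJ (f := f) i)
  rw [ss_erase _ (Finset.mem_univ a)] at h3
  have h4 : PP f (Finset.univ.erase a) ∈ P := by
    refine mem_of_unit (C_ne hi') ?_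
    have : C ((f a i : ℤ) : ℂ) * PP f (Finset.univ.erase a) =
        (C ((f a i : ℤ) : ℂ) * PP f (Finset.univ.erase a) +
          lin (f a) * ss f (Finset.univ.erase a) (fun a => f a i)) -
        lin (f a) * ss f (Finset.univ.erase a) (fun a => f a i) := by ring
    rw [this]
    exact Ideal.sub_mem _ h3 (Ideal.mul_mem_right _ _ ha)
  rw [PP, hP.prod_mem_iff] at h4
  obtain ⟨b, hb, hbP⟩ := h4
  refine ⟨a, b, (Finset.ne_of_mem_erase hb).symm, ?_⟩
  rw [Pid, Ideal.span_le]
  rintro x (rfl | hx)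
  · exact ha
  · rw [Set.mem_singleton_iff] at hx
    subst hx
    exact hbP

/-- the top-dimensional part of the Jacobian ideal is the intersection of the components -/
theorem topDim_JJ {L : List Comp} (hL : okTop f L) : topDim (JJ f) = II f L := by
  ext g
  rw [mem_topDim, mem_II]
  constructor
  · intro h c hc
    have hc' := hL.1 c hc
    have hcc := okTopC_okc hc'
    have hnd := okc_nd hcc
    obtain ⟨s, hs, hsg⟩ := h _ (Pid_prime hnd) (le_trans (JJ_le hc') (idl_le hcc)) (height_Pid hnd)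
    exact prim_idl hcc s g hs (JJ_le hc' hsg)
  · intro h P hP hJ h2
    obtain ⟨i, j, hij, hle⟩ := exists_pair hL hP hJ
    obtain ⟨hnd, c, hc, hc1, hc2⟩ := hL.2 i j hij
    have hc' := hL.1 c hc
    have hndc := okc_nd (okTopC_okc hc')
    have hle' : Pid (f (b1 c)) (f (b2 c)) ≤ P := le_trans (Pid_le hnd hc1 hc2) hle
    have heq : Pid (f (b1 c)) (f (b2 c)) = P := by
      rcases eq_or_lt_of_le hle' with h3 | h3
      · exact h3
      · exfalso
        have := Pid_prime hndc
        have h4 := Ideal.height_add_one_le_of_lt_of_isPrime h3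
        rw [height_Pid hndc, h2] at h4
        revert h4
        decide
    obtain ⟨s, hs, hsg⟩ := loc_mem hc' g (h c hc)
    rw [heq] at hs
    exact ⟨s, hs, hsg⟩

end Pool.Agent.Y186.CM
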