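import Mathlib
import Pool.Agent.Y186.CM.TopDim

set_option autoImplicit false

/-!
# A criterion for the failure of the Cohen-Macaulay property at the origin
-/

namespace Pool.Agent.Y186.CM

open MvPolynomial
open Pool.Agent.W490.CMA (R V lin det4 cramer Pid A eV algA lin_eV self_mem_left self_mem_right
  pderiv_prod pderiv_lin aeval_lin)

/-- the ideal of the origin -/
noncomputable def m0 : Ideal R := RingHom.ker (constantCoeff : R →+* ℂ)

theorem mem_m0 (g : R) : g ∈ m0 ↔ constantCoeff g = 0 := Iff.rfl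

theorem Pid_le_m0 (p q : V) : Pid p q ≤ m0 := by
  rw [Pid, Ideal.span_le]
  have : ∀ v : V, constantCoeff (lin v) = 0 := by
    intro v
    unfold lin
    simp
  intro x hx
  rcases hx with rfl | hx
  · exact this p
  · rw [Set.mem_singleton_iff] at hx
    subst hx
    exact this q

variable {I : Ideal R}

/-- the point `0` of the affine cone -/
noncomputable def ev0 (hI : I ≤ m0) : R ⧸ I →+* ℂ :=
  Ideal.Quotient.lift I constantCoeff (fun _ ha => hI ha)

/-- restriction to a line -/
noncomputable def evL {p q : V} (h : nd p q) (hI : I ≤ Pid p q) : R ⧸ I →+* A :=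
  Ideal.Quotient.lift I (eps p q).toRingHom (fun a ha => (mem_Pid h a).1 (hI ha))

/-- restriction to a point of a line -/
noncomputable def evP {p q : V} (h : nd p q) (hI : I ≤ Pid p q) : R ⧸ I →+* Polynomial ℂ :=
  (Polynomial.constantCoeff (R := Polynomial ℂ)).comp (evL h hI)

theorem ev0_mk (hI : I ≤ m0) (g : R) : ev0 hI (Ideal.Quotient.mk _ g) = constantCoeff g := rfl
theorem evL_mk {p q : V} (h : nd p q) (hI : I ≤ Pid p q) (g : R) :
    evL h hI (Ideal.Quotient.mk _ g) = eps p q g := rfl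
theorem evP_mk {p q : V} (h : nd p q) (hI : I ≤ Pid p q) (g : R) :
    evP h hI (Ideal.Quotient.mk _ g) = (eps p q g).coeff 0 := rfl

/-- the origin -/
noncomputable def pO (hI : I ≤ m0) : Ideal (R ⧸ I) := RingHom.ker (ev0 hI)

instance (hI : I ≤ m0) : (pO hI).IsPrime := RingHom.ker_isPrime _

theorem coeff_eps (p q : V) (g : R) : ((eps p q g).coeff 0).coeff 0 = constantCoeff g := by
  have : ((Polynomial.constantCoeff (R := ℂ)).comp ((Polynomial.constantCoeff
      (R := Polynomial ℂ)).comp (eps p q).toRingHom)) = (constantCoeff : R →+* ℂ) := by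
    apply MvPolynomial.ringHom_ext
    · intro a
      have : (eps p q).toRingHom (C a) = Polynomial.C (Polynomial.C a) := algHom_C _ _
      simp only [RingHom.comp_apply, this]
      simp
    · intro j
      have h2 : (eps p q).toRingHom (X j) = cf p q (eV j) := by
        have := eps_lin p q (eV j)
        rw [lin_eV] at this
        exact this
      simp only [RingHom.comp_apply, h2, cf]
      simp
  exact congrArg (fun φ : R →+* ℂ => φ g) this

theorem height_pO (hI : I ≤ m0) {p q : V} (h : nd p q) (hle : I ≤ Pid p q) :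
    2 ≤ (pO hI).height := by
  have hP0 : (RingHom.ker (evL h hle)).IsPrime := RingHom.ker_isPrime _
  have hP1 : (RingHom.ker (evP h hle)).IsPrime := RingHom.ker_isPrime _
  have h01 : RingHom.ker (evL h hle) < RingHom.ker (evP h hle) := by
    rw [SetLike.lt_iff_le_and_exists]
    refine ⟨fun x hx => ?_, Ideal.Quotient.mk _ (lin sV), ?_, ?_⟩
    · rw [RingHom.mem_ker] at hx ⊢
      simp [evP, hx]
    · rw [RingHom.mem_ker, evP_mk, eps_s h]; simp
    · rw [RingHom.mem_ker, evL_mk, eps_s h]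
      exact Polynomial.X_ne_zero
  have h12 : RingHom.ker (evP h hle) < pO hI := by
    rw [SetLike.lt_iff_le_and_exists]
    refine ⟨fun x hx => ?_, Ideal.Quotient.mk _ (lin tV), ?_, ?_⟩
    · obtain ⟨x, rfl⟩ := Ideal.Quotient.mk_surjective x
      rw [RingHom.mem_ker, evP_mk] at hx
      change ev0 hI _ = 0
      rw [ev0_mk, ← coeff_eps p q, hx]
      simp
    · change ev0 hI _ = 0
      rw [ev0_mk]
      unfold lin
      simp
    · rw [RingHom.mem_ker, evP_mk, eps_t h]
      simp
  have h1 := Ideal.height_add_one_le_of_lt_of_isPrime h01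
  have h2 := Ideal.height_add_one_le_of_lt_of_isPrime h12
  calc (2 : ℕ∞) = 0 + 1 + 1 := by norm_num
    _ ≤ (RingHom.ker (evL h hle)).height + 1 + 1 := by gcongr; exact zero_le
    _ ≤ (RingHom.ker (evP h hle)).height + 1 := by gcongr
    _ ≤ (pO hI).height := h2

/-- `Z r g` says that `g` represents `r` times a section `z` that is defined outside the origin;
the conditions say that all `r z` with `r` in the ideal of the origin are represented, but `z`
itself is not, even locally -/
structure Sec (I : Ideal R) (Z : R → R → Prop) : Prop where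
  /-- the representatives of zero -/
  z0 : ∀ g, Z 0 g ↔ g ∈ I
  /-- additivity -/
  zadd : ∀ r g r' g', Z r g → Z r' g' → Z (r + r') (g + g')
  /-- linearity -/
  zmul : ∀ a r g, Z r g → Z (a * r) (a * g)
  /-- existence -/
  zex : ∀ r, constantCoeff r = 0 → ∃ g, Z r g
  /-- non-existence -/
  znon : ∀ r g, Z r g → constantCoeff r = 0
  /-- cancellation -/
  zcan : ∀ w r g, constantCoeff w ≠ 0 → Z (w * lin sV * r) (w * lin sV * g) → Z r g

theorem core {Z : R → R → Prop} (hZ : Sec I Z) (hI : I ≤ m0) {S : Type} [CommRing S]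
    [IsLocalRing S] [Algebra (R ⧸ I) S] [IsLocalization.AtPrime S (pO hI)] (x y : S)
    (hxm : x ∈ IsLocalRing.maximalIdeal S) (hym : y ∈ IsLocalRing.maximalIdeal S)
    (hx : IsSMulRegular S x) (hy : IsSMulRegular (QuotSMulTop x S) y) : False := by
  have zsub : ∀ r g r' g', Z r g → Z r' g' → Z (r - r') (g - g') := by
    intro r g r' g' h h'
    have h1 := hZ.zadd _ _ _ _ h (hZ.zmul (-1) _ _ h')
    have e1 : r + -1 * r' = r - r' := by ring
    have e2 : g + -1 * g' = g - g' := by ring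
    rwa [e1, e2] at h1
  have hnum : ∀ z : S, z ∈ IsLocalRing.maximalIdeal S → ∃ (r u : R), constantCoeff r = 0 ∧
      constantCoeff u ≠ 0 ∧ z * algebraMap (R ⧸ I) S (Ideal.Quotient.mk _ u) =
        algebraMap (R ⧸ I) S (Ideal.Quotient.mk _ r) := by
    intro z hz
    obtain ⟨r, u, rfl⟩ := IsLocalization.exists_mk'_eq (pO hI).primeCompl z
    have hr : r ∈ pO hI := (IsLocalization.AtPrime.mk'_mem_maximal_iff S (pO hI) r u).1 hz
    obtain ⟨r, rfl⟩ := Ideal.Quotient.mk_surjective r
    obtain ⟨u, hu⟩ := u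
    obtain ⟨u, rfl⟩ := Ideal.Quotient.mk_surjective u
    exact ⟨r, u, hr, hu, IsLocalization.mk'_spec _ _ _⟩
  have hunit : ∀ u : R, constantCoeff u ≠ 0 →
      IsUnit (algebraMap (R ⧸ I) S (Ideal.Quotient.mk _ u)) := by
    intro u hu
    exact IsLocalization.map_units S (⟨Ideal.Quotient.mk _ u, hu⟩ : (pO hI).primeCompl)
  have hzero : ∀ g : R, algebraMap (R ⧸ I) S (Ideal.Quotient.mk _ g) = 0 →
      ∃ w : R, constantCoeff w ≠ 0 ∧ w * g ∈ I := by
    intro g hg
    obtain ⟨⟨w, hw⟩, hwg⟩ := (IsLocalization.map_eq_zero_iff (pO hI).primeCompl S _).1 hg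
    obtain ⟨w, rfl⟩ := Ideal.Quotient.mk_surjective w
    refine ⟨w, hw, ?_⟩
    rw [← Ideal.Quotient.eq_zero_iff_mem, map_mul]
    exact hwg
  obtain ⟨rx, u, hrx, hu, hxu⟩ := hnum x hxm
  obtain ⟨ry, v, hry, hv, hyv⟩ := hnum y hym
  obtain ⟨a, ha⟩ := hZ.zex rx hrx
  obtain ⟨b, hb⟩ := hZ.zex ry hry
  have hab : ry * a - rx * b ∈ I := by
    rw [← hZ.z0]
    have h1 := zsub _ _ _ _ (hZ.zmul ry _ _ ha) (hZ.zmul rx _ _ hb)
    have e1 : ry * rx - rx * ry = 0 := by ring
    rwa [e1] at h1
  set φ := (algebraMap (R ⧸ I) S).comp (Ideal.Quotient.mk I) with hφ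
  have e1 : φ ry * φ a = φ rx * φ b := by
    rw [← map_mul, ← map_mul, ← sub_eq_zero, ← map_sub]
    change algebraMap (R ⧸ I) S (Ideal.Quotient.mk _ _) = 0
    rw [Ideal.Quotient.eq_zero_iff_mem.2 hab, map_zero]
  have hxu' : x * φ u = φ rx := hxu
  have hyv' : y * φ v = φ ry := hyv
  have e2 : ∃ c : S, φ v * φ a = x * c := by
    have e3 : y * (φ v * φ a) = x * (φ u * φ b) := by
      rw [← mul_assoc, hyv', e1, ← hxu']; ring
    have e4 : y • (Submodule.Quotient.mk (φ v * φ a) : QuotSMulTop x S) = 0 := by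
      rw [← Submodule.Quotient.mk_smul, Submodule.Quotient.mk_eq_zero,
        Submodule.mem_smul_pointwise_iff_exists]
      exact ⟨φ u * φ b, trivial, e3.symm⟩
    have e5 : (Submodule.Quotient.mk (φ v * φ a) : QuotSMulTop x S) = 0 := by
      apply hy
      simp only
      rw [e4, smul_zero]
    rw [Submodule.Quotient.mk_eq_zero, Submodule.mem_smul_pointwise_iff_exists] at e5
    obtain ⟨c, -, hc⟩ := e5
    exact ⟨c, hc.symm⟩
  obtain ⟨c, hc⟩ := e2
  obtain ⟨c0, t, hct⟩ := IsLocalization.exists_mk'_eq (pO hI).primeCompl c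
  obtain ⟨c0, rfl⟩ := Ideal.Quotient.mk_surjective c0
  obtain ⟨t, ht⟩ := t
  obtain ⟨t, rfl⟩ := Ideal.Quotient.mk_surjective t
  have ht' : constantCoeff t ≠ 0 := ht
  have e6 : c * φ t = φ c0 := by
    rw [← hct]
    exact IsLocalization.mk'_spec _ _ _
  have e7 : φ (u * v * t * a - rx * c0) = 0 := by
    rw [map_sub, map_mul, map_mul, map_mul, map_mul]
    linear_combination φ u * φ t * hc + (φ t * c) * hxu' + φ rx * e6
  obtain ⟨w, hw, hwm⟩ := hzero _ e7
  -- `m := w u v t`; `rx * (w c0)` represents `m * rx` times the section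
  have hm : constantCoeff (w * (u * v * t)) ≠ 0 := by
    rw [map_mul, map_mul, map_mul]
    exact mul_ne_zero hw (mul_ne_zero (mul_ne_zero hu hv) ht')
  set m := w * (u * v * t) with hmdef
  have z1 : Z (m * rx) (rx * (w * c0)) := by
    have h1 := zsub _ _ _ _ (hZ.zmul m _ _ ha) ((hZ.z0 _).2 hwm)
    have e1 : m * rx - 0 = m * rx := by ring
    have e2 : m * a - w * (u * v * t * a - rx * c0) = rx * (w * c0) := by rw [hmdef]; ring
    rwa [e1, e2] at h1
  have hs0 : constantCoeff (lin sV) = 0 := by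
    unfold lin
    simp
  obtain ⟨gs, hgs⟩ := hZ.zex (lin sV) hs0
  have h5 : rx * (m * gs - lin sV * (w * c0)) ∈ I := by
    rw [← hZ.z0]
    have h1 := zsub _ _ _ _ (hZ.zmul (m * rx) _ _ hgs) (hZ.zmul (lin sV) _ _ z1)
    have e1 : m * rx * lin sV - lin sV * (m * rx) = 0 := by ring
    have e2 : m * rx * gs - lin sV * (rx * (w * c0)) = rx * (m * gs - lin sV * (w * c0)) := by ring
    rwa [e1, e2] at h1
  have h6 : φ (m * gs - lin sV * (w * c0)) = 0 := by
    have h7 : x * φ (m * gs - lin sV * (w * c0)) = 0 := by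
      have h8 : φ u * (x * φ (m * gs - lin sV * (w * c0))) = 0 := by
        rw [← mul_assoc, mul_comm (φ u), hxu', ← map_mul]
        change algebraMap (R ⧸ I) S (Ideal.Quotient.mk _ _) = 0
        rw [Ideal.Quotient.eq_zero_iff_mem.2 h5, map_zero]
      exact (hunit u hu).mul_right_eq_zero.1 h8
    apply hx
    simp only [smul_eq_mul]
    rw [h7, mul_zero]
  obtain ⟨w', hw', hwm'⟩ := hzero _ h6
  have z2 : Z (w' * lin sV * m) (w' * lin sV * (w * c0)) := by
    have h1 := zsub _ _ _ _ (hZ.zmul (w' * m) _ _ hgs) ((hZ.z0 _).2 hwm')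
    have e1 : w' * m * lin sV - 0 = w' * lin sV * m := by ring
    have e2 : w' * m * gs - w' * (m * gs - lin sV * (w * c0)) = w' * lin sV * (w * c0) := by ring
    rwa [e1, e2] at h1
  exact hm (hZ.znon _ _ (hZ.zcan w' _ _ hw' z2))

theorem not_isCM_of_sec {Z : R → R → Prop} (hZ : Sec I Z) {p q : V} (h : nd p q)
    (hle : I ≤ Pid p q) : ¬ IsCM (R ⧸ I) := by
  intro hCM
  have hI : I ≤ m0 := le_trans hle (Pid_le_m0 p q)
  obtain ⟨rs, hmax, hreg, hlen⟩ := hCM (pO hI)
  have h2 : 2 ≤ rs.length := by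
    have hlen' := hlen.trans (IsLocalization.AtPrime.ringKrullDim_eq_height (pO hI) _)
    have h' : ((2 : ℕ∞) : WithBot ℕ∞) ≤ (rs.length : WithBot ℕ∞) := by
      rw [hlen']
      exact WithBot.coe_le_coe.2 (height_pO hI h hle)
    have h'' : ((2 : ℕ) : WithBot ℕ∞) ≤ ((rs.length : ℕ) : WithBot ℕ∞) := h'
    exact_mod_cast h''
  match rs, h2, hmax, hreg with
  | x :: y :: l, _, hmax, hreg =>
    rw [RingTheory.Sequence.isRegular_cons_iff, RingTheory.Sequence.isRegular_cons_iff] at hreg
    obtain ⟨hx, hy, -⟩ := hreg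
    exact core hZ hI x y (hmax x (by simp)) (hmax y (by simp)) hx hy

end Pool.Agent.Y186.CM
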