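import Mathlib
import Pool.Agent.Y186.CM.Depth

set_option autoImplicit false

/-!
# The general arrangement: the top-dimensional part is not Cohen-Macaulay
-/

namespace Pool.Agent.Y186.CM

open MvPolynomial
open Pool.Agent.W490.CMA (R V lin det4 cramer Pid A eV algA lin_eV self_mem_left self_mem_right
  pderiv_prod pderiv_lin aeval_lin)

/-! ### the class at a triple line -/

/-- the product of the equations of all planes except the third plane of the triple -/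
noncomputable def eta (f : Fin 13 → V) (t : Tr) : R :=
  lin (f t.i) * lin (f t.j) * rest f Finset.univ t

variable {f : Fin 13 → V}

theorem lin_ab_mem {t : Tr} (ht : okt f t) {h : Fin 13} (hh : h = t.i ∨ h = t.j ∨ h = t.k) (u : R) :
    lin (f h) * (ga f t * gb f t * u) ∈ Tid (ga f t) (gb f t) := by
  obtain ⟨hx, hy, hz⟩ := ht.1
  have c1 : ga f t * (ga f t * gb f t) ∈ Tid (ga f t) (gb f t) := cub1 three_inv
  have c2 : gb f t * (ga f t * gb f t) ∈ Tid (ga f t) (gb f t) := cub2 three_inv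
  rcases hh with rfl | rfl | rfl
  · refine mem_of_unit (C_ne hx) ?_
    have : C ((t.x : ℤ) : ℂ) * (lin (f t.i) * (ga f t * gb f t * u)) =
        u * (ga f t * (ga f t * gb f t)) := by
      have := ga_eq (f := f) t
      linear_combination (-(ga f t * gb f t * u)) * this
    rw [this]
    exact Ideal.mul_mem_left _ _ c1
  · refine mem_of_unit (C_ne hy) ?_
    have : C ((t.y : ℤ) : ℂ) * (lin (f t.j) * (ga f t * gb f t * u)) =
        u * (gb f t * (ga f t * gb f t)) := by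
      have := gb_eq (f := f) t
      linear_combination (-(ga f t * gb f t * u)) * this
    rw [this]
    exact Ideal.mul_mem_left _ _ c2
  · refine mem_of_unit (C_ne hz) ?_
    have : C ((t.z : ℤ) : ℂ) * (lin (f t.k) * (ga f t * gb f t * u)) =
        (-u) * (ga f t * (ga f t * gb f t)) + (-u) * (gb f t * (ga f t * gb f t)) := by
      have := okt_rel ht
      linear_combination (ga f t * gb f t * u) * this
    rw [this]
    exact Ideal.add_mem _ (Ideal.mul_mem_left _ _ c1) (Ideal.mul_mem_left _ _ c2)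

theorem xyz_eta {t : Tr} : C ((t.x : ℤ) : ℂ) * C ((t.y : ℤ) : ℂ) * C ((t.z : ℤ) : ℂ) * eta f t =
    C ((t.z : ℤ) : ℂ) * (ga f t * gb f t * rest f Finset.univ t) := by
  rw [eta, ga_eq, gb_eq]
  ring

theorem lin_eta_mem {t : Tr} (ht : okt f t) {h : Fin 13} (hh : h = t.i ∨ h = t.j ∨ h = t.k) :
    lin (f h) * eta f t ∈ Tid (ga f t) (gb f t) := by
  refine mem_of_unit (unit3 ht) ?_
  have : C ((t.x : ℤ) : ℂ) * C ((t.y : ℤ) : ℂ) * C ((t.z : ℤ) : ℂ) * (lin (f h) * eta f t) =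
      C ((t.z : ℤ) : ℂ) * (lin (f h) * (ga f t * gb f t * rest f Finset.univ t)) := by
    linear_combination (lin (f h)) * xyz_eta (f := f) (t := t)
  rw [this]
  exact Ideal.mul_mem_left _ _ (lin_ab_mem ht hh _)

theorem univ3 (t : Tr) : t.i ∈ (Finset.univ : Finset (Fin 13)) ∧
    t.j ∈ (Finset.univ : Finset (Fin 13)) ∧ t.k ∈ (Finset.univ : Finset (Fin 13)) :=
  ⟨Finset.mem_univ _, Finset.mem_univ _, Finset.mem_univ _⟩

theorem lin_ss_mem {t : Tr} (ht : okt f t) (σ : Fin 13 → ℤ) {h : Fin 13}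
    (hh : h = t.i ∨ h = t.j ∨ h = t.k) :
    lin (f h) * ss f Finset.univ σ ∈ Tid (ga f t) (gb f t) := by
  obtain ⟨m, hm, hm2⟩ := ss_T σ ht (univ3 t)
  refine mem_of_unit (unit3 ht) ?_
  have : C ((t.x : ℤ) : ℂ) * C ((t.y : ℤ) : ℂ) * C ((t.z : ℤ) : ℂ) *
      (lin (f h) * ss f Finset.univ σ) =
      C ((t.x * σ t.i + t.y * σ t.j + t.z * σ t.k : ℤ) : ℂ) *
        (lin (f h) * (ga f t * gb f t * rest f Finset.univ t)) + lin (f h) * m := by
    linear_combination (lin (f h)) * hm2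
  rw [this]
  exact Ideal.add_mem _ (Ideal.mul_mem_left _ _ (lin_ab_mem ht hh _)) (Ideal.mul_mem_left _ _ hm)

theorem ss_sub_eta {t : Tr} (ht : okt f t) (σ : Fin 13 → ℤ)
    (h0 : t.x * σ t.i + t.y * σ t.j + t.z * σ t.k = t.z) :
    ss f Finset.univ σ - eta f t ∈ Tid (ga f t) (gb f t) := by
  obtain ⟨m, hm, hm2⟩ := ss_T σ ht (univ3 t)
  refine mem_of_unit (unit3 ht) ?_
  rw [h0] at hm2
  have : C ((t.x : ℤ) : ℂ) * C ((t.y : ℤ) : ℂ) * C ((t.z : ℤ) : ℂ) *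
      (ss f Finset.univ σ - eta f t) = m := by
    linear_combination hm2 - xyz_eta (f := f) (t := t)
  rw [this]
  exact hm

theorem rest_notMem {t : Tr} (h : okTopC f (.T t)) :
    rest f Finset.univ t ∉ Pid (f t.i) (f t.j) := by
  obtain ⟨ht, hq⟩ := h
  refine PP_notMem ht.2.2.2 fun r hr => ?_
  have h1 := Finset.mem_erase.1 hr
  have h2 := Finset.mem_erase.1 h1.2
  exact hq r (Finset.mem_erase.1 h2.2).1 h2.1 h1.1

/-- the relation between the values at the origin -/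
theorem rel_t {t : Tr} (h : okTopC f (.T t)) (g ρ : R) (u : Fin 13 → R)
    (hg : g - ρ * eta f t ∈ Tid (ga f t) (gb f t))
    (hu : ∀ a, ∃ b, g = lin (f a) * b + PP f (Finset.univ.erase a) * u a) :
    ((t.x : ℤ) : ℂ) * constantCoeff (u t.i) + ((t.y : ℤ) : ℂ) * constantCoeff (u t.j) +
      ((t.z : ℤ) : ℂ) * constantCoeff (u t.k) = ((t.z : ℤ) : ℂ) * constantCoeff ρ := by
  have hU := rest_notMem h
  have ht : okt f t := h.1
  obtain ⟨⟨hx, hy, hz⟩, ⟨hij, hik, hjk⟩, -, hnd⟩ := h.1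
  have hpr := Pid_prime hnd
  have hnd' := nd_smul hnd hx hy
  have p1 := prime_lin (nd_left hnd')
  have p2 := prime_lin (nd_right hnd')
  have p3 := prime_lin (nd_left (nd_add hnd'))
  have d1 := not_dvd hnd'
  have d2 := not_dvd (nd_symm hnd')
  have d3 := not_dvd (nd_add hnd')
  rw [lin_add] at p3 d3
  have hk := okt_rel ht
  have ha := ga_eq (f := f) t
  have hb := gb_eq (f := f) t
  have hsum := Ideal.mul_mem_left (Tid (ga f t) (gb f t))
    (C ((t.x : ℤ) : ℂ) * C ((t.y : ℤ) : ℂ) * C ((t.z : ℤ) : ℂ)) hg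
  obtain ⟨bi, hbi⟩ := hu t.i
  obtain ⟨bj, hbj⟩ := hu t.j
  obtain ⟨bk, hbk⟩ := hu t.k
  have e1 : PP f (Finset.univ.erase t.i) = lin (f t.j) * (lin (f t.k) * rest f Finset.univ t) := by
    rw [PP_erase (Finset.mem_erase.2 ⟨hij.symm, Finset.mem_univ _⟩),
      PP_erase (Finset.mem_erase.2 ⟨hjk.symm, Finset.mem_erase.2 ⟨hik.symm, Finset.mem_univ _⟩⟩)]
    rfl
  have e2 : PP f (Finset.univ.erase t.j) = lin (f t.i) * (lin (f t.k) * rest f Finset.univ t) := by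
    rw [PP_erase (Finset.mem_erase.2 ⟨hij, Finset.mem_univ _⟩),
      PP_erase (Finset.mem_erase.2 ⟨hik.symm, Finset.mem_erase.2 ⟨hjk.symm, Finset.mem_univ _⟩⟩),
      rest, Finset.erase_right_comm (a := t.j) (b := t.i)]
  have e3 : PP f (Finset.univ.erase t.k) = lin (f t.i) * (lin (f t.j) * rest f Finset.univ t) := by
    rw [PP_erase (Finset.mem_erase.2 ⟨hik, Finset.mem_univ _⟩),
      PP_erase (Finset.mem_erase.2 ⟨hij.symm, Finset.mem_erase.2 ⟨hjk, Finset.mem_univ _⟩⟩),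
      rest, Finset.erase_right_comm (a := t.k) (b := t.i),
      Finset.erase_right_comm (a := t.k) (b := t.j)]
  have hη := xyz_eta (f := f) (t := t)
  rw [e1] at hbi
  rw [e2] at hbj
  rw [e3] at hbk
  have key := Tid_rel (a := ga f t) (b := gb f t)
    (A₁ := C ((t.x : ℤ) : ℂ) * rest f Finset.univ t * u t.i)
    (A₂ := C ((t.y : ℤ) : ℂ) * rest f Finset.univ t * u t.j)
    (A₃ := C ((t.z : ℤ) : ℂ) * rest f Finset.univ t * (u t.k - ρ)) p1 p2 p3 d1 d2 d3 hsum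
  set U := rest f Finset.univ t with hUdef
  have key2 := key
    ⟨C ((t.y : ℤ) : ℂ) * C ((t.z : ℤ) : ℂ) * bi - C ((t.z : ℤ) : ℂ) * gb f t * U * ρ, by
      linear_combination (C ((t.x : ℤ) : ℂ) * C ((t.y : ℤ) : ℂ) * C ((t.z : ℤ) : ℂ)) * hbi - ρ * hη -
        (C ((t.y : ℤ) : ℂ) * C ((t.z : ℤ) : ℂ) * bi) * ha -
        (C ((t.x : ℤ) : ℂ) * C ((t.z : ℤ) : ℂ) * lin (f t.k) * U * u t.i) * hb +
        (C ((t.x : ℤ) : ℂ) * gb f t * U * u t.i) * hk⟩
    ⟨C ((t.x : ℤ) : ℂ) * C ((t.z : ℤ) : ℂ) * bj - C ((t.z : ℤ) : ℂ) * ga f t * U * ρ, by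
      linear_combination (C ((t.x : ℤ) : ℂ) * C ((t.y : ℤ) : ℂ) * C ((t.z : ℤ) : ℂ)) * hbj - ρ * hη -
        (C ((t.x : ℤ) : ℂ) * C ((t.z : ℤ) : ℂ) * bj) * hb -
        (C ((t.y : ℤ) : ℂ) * C ((t.z : ℤ) : ℂ) * lin (f t.k) * U * u t.j) * ha +
        (C ((t.y : ℤ) : ℂ) * ga f t * U * u t.j) * hk⟩
    ⟨C ((t.x : ℤ) : ℂ) * C ((t.y : ℤ) : ℂ) * bk, by
      linear_combination (C ((t.x : ℤ) : ℂ) * C ((t.y : ℤ) : ℂ) * C ((t.z : ℤ) : ℂ)) * hbk - ρ * hη -
        (-(C ((t.x : ℤ) : ℂ) * C ((t.y : ℤ) : ℂ) * bk)) * hk -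
        (C ((t.y : ℤ) : ℂ) * C ((t.z : ℤ) : ℂ) * lin (f t.j) * U * u t.k) * ha -
        (C ((t.z : ℤ) : ℂ) * ga f t * U * u t.k) * hb⟩
  have key3 : U * (C ((t.x : ℤ) : ℂ) * u t.i + C ((t.y : ℤ) : ℂ) * u t.j +
      C ((t.z : ℤ) : ℂ) * (u t.k - ρ)) ∈ Pid (f t.i) (f t.j) := by
    rw [← Pid_smul _ _ hx hy]
    have : U * (C ((t.x : ℤ) : ℂ) * u t.i + C ((t.y : ℤ) : ℂ) * u t.j +
        C ((t.z : ℤ) : ℂ) * (u t.k - ρ)) = C ((t.x : ℤ) : ℂ) * U * u t.i +
        C ((t.y : ℤ) : ℂ) * U * u t.j + C ((t.z : ℤ) : ℂ) * U * (u t.k - ρ) := by ring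
    rw [this]
    exact key2
  have key4 := (hpr.mem_or_mem key3).resolve_left hU
  have key5 : constantCoeff (C ((t.x : ℤ) : ℂ) * u t.i + C ((t.y : ℤ) : ℂ) * u t.j +
      C ((t.z : ℤ) : ℂ) * (u t.k - ρ)) = 0 := Pid_le_m0 _ _ key4
  simp only [map_add, map_mul, map_sub, constantCoeff_C] at key5
  linear_combination key5

end Pool.Agent.Y186.CM
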