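import Mathlib
import Pool.Agent.Y186.CM.Rel

set_option autoImplicit false

/-!
# The general arrangement: the top-dimensional part is not Cohen-Macaulay
-/

namespace Pool.Agent.Y186.CM

open MvPolynomial
open Pool.Agent.W490.CMA (R V lin det4 cramer Pid A eV algA lin_eV self_mem_left self_mem_right
  pderiv_prod pderiv_lin aeval_lin)

/-- the planes of the general arrangement -/
def fG : Fin 13 → V := ![![0, 1, 0, 0],
  ![0, 0, 1, 0],
  ![0, 0, 0, 1],
  ![0, -1, -1, -1],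
  ![0, -1, -3, 0],
  ![0, 1, 1, -1],
  ![0, 2, -1, -1],
  ![0, 0, -1, -3],
  ![0, 1, -1, -2],
  ![1, 0, 0, 0],
  ![1, -1, 0, 0],
  ![1, -1, -1, 0],
  ![1, -1, -1, -1]]

/-- its double and triple lines -/
def LG : List Comp := [
  .P 0 2, .P 0 5, .P 0 7, .P 0 8, .P 0 11, .P 0 12,
  .P 1 3, .P 1 5, .P 1 6, .P 1 8, .P 1 9, .P 1 12,
  .P 2 4, .P 2 6, .P 2 8, .P 2 9, .P 2 10, .P 3 4,
  .P 3 7, .P 3 8, .P 3 10, .P 3 11, .P 4 6, .P 4 7,
  .P 4 9, .P 4 10, .P 4 11, .P 4 12, .P 5 6, .P 5 7,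
  .P 5 9, .P 5 10, .P 5 11, .P 5 12, .P 6 9, .P 6 10,
  .P 6 11, .P 6 12, .P 7 9, .P 7 10, .P 7 11, .P 7 12,
  .P 8 9, .P 8 10, .P 8 11, .P 8 12, .P 9 11, .P 10 12,
  .T ⟨0, 1, 4, 1, 3, 1⟩, .T ⟨2, 3, 5, 2, 1, 1⟩, .T ⟨6, 7, 8, 1, 1, -2⟩, .T ⟨0, 3, 6, 3, 1, -1⟩, .T ⟨1, 2, 7, 1, 3, 1⟩, .T ⟨4, 5, 8, 1, 2, -1⟩,
  .T ⟨10, 0, 9, 1, 1, -1⟩, .T ⟨11, 1, 10, 1, 1, -1⟩, .T ⟨11, 2, 12, 1, -1, -1⟩, .T ⟨9, 3, 12, 1, 1, -1⟩]

/-- a triple line -/
def tA : Tr := ⟨0, 1, 4, 1, 3, 1⟩
/-- a triple line -/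
def tB : Tr := ⟨2, 3, 5, 2, 1, 1⟩
/-- a triple line -/
def tC : Tr := ⟨6, 7, 8, 1, 1, -2⟩
/-- a triple line -/
def tD : Tr := ⟨0, 3, 6, 3, 1, -1⟩
/-- a triple line -/
def tE : Tr := ⟨1, 2, 7, 1, 3, 1⟩
/-- a triple line -/
def tF : Tr := ⟨4, 5, 8, 1, 2, -1⟩
/-- a triple line -/
def t1 : Tr := ⟨10, 0, 9, 1, 1, -1⟩
/-- a triple line -/
def t2 : Tr := ⟨11, 1, 10, 1, 1, -1⟩
/-- a triple line -/
def t3 : Tr := ⟨11, 2, 12, 1, -1, -1⟩
/-- a triple line -/
def t4 : Tr := ⟨9, 3, 12, 1, 1, -1⟩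

theorem okTop_LG : okTop fG LG := by decide +kernel

theorem okc_LG : ∀ c ∈ LG, okc fG c := fun c hc => okTopC_okc (okTop_LG.1 c hc)

theorem okClus_LG : ∀ h : Fin 13, okClus fG Finset.univ h LG := by decide +kernel

/-- weights -/
def s3 : Fin 13 → ℤ := ![0, 0, 0, 0, 0, 0, 0, 0, 0, 1, 0, 0, 1]
/-- weights -/
def s4 : Fin 13 → ℤ := ![0, 0, 0, 0, 0, 0, 0, 0, 0, 1, 0, 0, 0]

/-- conditions under which the multiple by `h` of a weighted sum lies in a component -/
def okZ (h : Fin 13) (σ : Fin 13 → ℤ) : Comp → Prop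
  | .P i j => okS Finset.univ σ (.P i j)
  | .T t => okS Finset.univ σ (.T t) ∨ h = t.i ∨ h = t.j ∨ h = t.k
  | .U _ => False

instance (h : Fin 13) (σ : Fin 13 → ℤ) : (c : Comp) → Decidable (okZ h σ c)
  | .P i j => inferInstanceAs (Decidable (okS Finset.univ σ (.P i j)))
  | .T t => inferInstanceAs (Decidable (okS Finset.univ σ (.T t) ∨ h = t.i ∨ h = t.j ∨ h = t.k))
  | .U _ => inferInstanceAs (Decidable False)

theorem okZ_mem {f : Fin 13 → V} {h : Fin 13} {σ : Fin 13 → ℤ} {c : Comp} (hc : okc f c)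
    (hz : okZ h σ c) : lin (f h) * ss f Finset.univ σ ∈ idl f c := by
  cases c with
  | P i j => exact Ideal.mul_mem_left _ _ (ss_mem hc hz)
  | T t =>
    rcases hz with h1 | h1
    · exact Ideal.mul_mem_left _ _ (ss_mem hc h1)
    · exact lin_ss_mem hc σ h1
  | U t => exact hz.elim

/-- `g` represents `r` times the section that is supported on the triple line `t1` -/
def ZG (r g : R) : Prop :=
  (∀ c ∈ LG, c ≠ .T t1 → g ∈ idl fG c) ∧ g - r * eta fG t1 ∈ Tid (ga fG t1) (gb fG t1)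

theorem t1_mem : (Comp.T t1) ∈ LG := by decide +kernel
theorem okt_t1 : okt fG t1 := okc_LG _ t1_mem

theorem okZ3 : ∀ c ∈ LG, c ≠ .T t1 → okZ 11 s3 c := by decide +kernel
theorem okZ4 : ∀ c ∈ LG, c ≠ .T t1 → okZ 12 s4 c := by decide +kernel

theorem ZG_add {r g r' g' : R} (h : ZG r g) (h' : ZG r' g') : ZG (r + r') (g + g') := by
  refine ⟨fun c hc hne => Ideal.add_mem _ (h.1 c hc hne) (h'.1 c hc hne), ?_⟩
  have : g + g' - (r + r') * eta fG t1 = (g - r * eta fG t1) + (g' - r' * eta fG t1) := by ring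
  rw [this]
  exact Ideal.add_mem _ h.2 h'.2

theorem ZG_mul (a : R) {r g : R} (h : ZG r g) : ZG (a * r) (a * g) := by
  refine ⟨fun c hc hne => Ideal.mul_mem_left _ _ (h.1 c hc hne), ?_⟩
  have : a * g - a * r * eta fG t1 = a * (g - r * eta fG t1) := by ring
  rw [this]
  exact Ideal.mul_mem_left _ _ h.2

theorem ZG_zero_eta {h : Fin 13} (hh : h = t1.i ∨ h = t1.j ∨ h = t1.k) : ZG (lin (fG h)) 0 := by
  refine ⟨fun c _ _ => Ideal.zero_mem _, ?_⟩
  have : 0 - lin (fG h) * eta fG t1 = -1 * (lin (fG h) * eta fG t1) := by ring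
  rw [this]
  exact Ideal.mul_mem_left _ _ (lin_eta_mem okt_t1 hh)

theorem ZG_ss {h : Fin 13} {σ : Fin 13 → ℤ} (h1 : ∀ c ∈ LG, c ≠ .T t1 → okZ h σ c)
    (h2 : t1.x * σ t1.i + t1.y * σ t1.j + t1.z * σ t1.k = t1.z) :
    ZG (lin (fG h)) (lin (fG h) * ss fG Finset.univ σ) := by
  refine ⟨fun c hc hne => okZ_mem (okc_LG c hc) (h1 c hc hne), ?_⟩
  have : lin (fG h) * ss fG Finset.univ σ - lin (fG h) * eta fG t1 =
      lin (fG h) * (ss fG Finset.univ σ - eta fG t1) := by ring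
  rw [this]
  exact Ideal.mul_mem_left _ _ (ss_sub_eta okt_t1 σ h2)

/-- the ideal of the multiples of the section that are represented -/
def EZ : Ideal R where
  carrier := {r | ∃ g, ZG r g}
  add_mem' := by
    rintro a b ⟨g, hg⟩ ⟨g', hg'⟩
    exact ⟨_, ZG_add hg hg'⟩
  zero_mem' := ⟨0, by
    have := ZG_mul 0 (ZG_zero_eta (h := t1.i) (Or.inl rfl))
    rwa [zero_mul, zero_mul] at this⟩
  smul_mem' := by
    rintro c a ⟨g, hg⟩
    exact ⟨_, ZG_mul c hg⟩

theorem EZ_9 : lin (fG 9) ∈ EZ := ⟨_, ZG_zero_eta (Or.inr (Or.inr rfl))⟩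
theorem EZ_10 : lin (fG 10) ∈ EZ := ⟨_, ZG_zero_eta (Or.inl rfl)⟩
theorem EZ_11 : lin (fG 11) ∈ EZ := ⟨_, ZG_ss okZ3 (by decide +kernel)⟩
theorem EZ_12 : lin (fG 12) ∈ EZ := ⟨_, ZG_ss okZ4 (by decide +kernel)⟩

theorem X_mem (j : Fin 4) : (X j : R) ∈ EZ := by
  have h9 := EZ_9
  have h10 := EZ_10
  have h11 := EZ_11
  have h12 := EZ_12
  have e : ∀ v w : V, lin v - lin w = lin (v - w) := fun v w => (lin_sub v w).symm
  fin_cases j
  · have : (X 0 : R) = lin (fG 9) := by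
      rw [← lin_eV]
      congr 1
      decide +kernel
    change (X 0 : R) ∈ EZ
    rw [this]
    exact h9
  · have : (X 1 : R) = lin (fG 9) - lin (fG 10) := by
      rw [← lin_eV, e]
      congr 1
      decide +kernel
    change (X 1 : R) ∈ EZ
    rw [this]
    exact Ideal.sub_mem _ h9 h10
  · have : (X 2 : R) = lin (fG 10) - lin (fG 11) := by
      rw [← lin_eV, e]
      congr 1
      decide +kernel
    change (X 2 : R) ∈ EZ
    rw [this]
    exact Ideal.sub_mem _ h10 h11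
  · have : (X 3 : R) = lin (fG 11) - lin (fG 12) := by
      rw [← lin_eV, e]
      congr 1
      decide +kernel
    change (X 3 : R) ∈ EZ
    rw [this]
    exact Ideal.sub_mem _ h11 h12

theorem mem_EZ (r : R) (hr : constantCoeff r = 0) : r ∈ EZ := by
  have key : ∀ r : R, r - C (constantCoeff r) ∈ EZ := by
    intro r
    induction r using MvPolynomial.induction_on with
    | C a => simp
    | add p q hp hq =>
      have : p + q - C (constantCoeff (p + q)) =
          (p - C (constantCoeff p)) + (q - C (constantCoeff q)) := by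
        rw [map_add, C_add]; ring
      rw [this]
      exact Ideal.add_mem _ hp hq
    | mul_X p j _ =>
      have : p * X j - C (constantCoeff (p * X j)) = p * X j := by
        rw [map_mul, constantCoeff_X, mul_zero, C_0, sub_zero]
      rw [this]
      exact Ideal.mul_mem_left _ _ (X_mem j)
  have := key r
  rwa [hr, C_0, sub_zero] at this

/-- the restriction to each plane -/
theorem traceZ {r g : R} (h : ZG r g) (a : Fin 13) :
    ∃ u b, g = lin (fG a) * b + PP fG (Finset.univ.erase a) * u := by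
  obtain ⟨h1, h2, h3, h4⟩ := okClus_LG a
  have key : g ∈ Cl (lin (fG a)) (PP fG (Finset.univ.erase a)) := by
    rw [← pl_eq h3 h4]
    refine trace_core _ h1 h2 g fun c hc => ?_
    obtain ⟨c', hc', hcc'⟩ := List.mem_filterMap.1 hc
    by_cases hne : c' = .T t1
    · subst hne
      have e1 : g - r * eta fG t1 ∈ Cl (lin (fG a)) (pl fG c) :=
        clus_mem (c := .T t1) okt_t1 a c hcc' _ h.2
      have e2 : eta fG t1 ∈ Cl (lin (fG a)) (pl fG c) := by
        simp only [clus] at hcc'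
        split_ifs at hcc' with g1 g2 g3
        · cases hcc'
          rw [g1]
          exact mem_Cl.2 ⟨lin (fG t1.j) * rest fG Finset.univ t1, 0, by rw [eta]; ring⟩
        · cases hcc'
          rw [g2]
          exact mem_Cl.2 ⟨lin (fG t1.i) * rest fG Finset.univ t1, 0, by rw [eta]; ring⟩
        · cases hcc'
          rw [g3, pl_two]
          exact mem_Cl.2 ⟨0, rest fG Finset.univ t1, by rw [eta]; ring⟩
      have : g = (g - r * eta fG t1) + r * eta fG t1 := by ring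
      rw [this]
      exact Ideal.add_mem _ e1 (Ideal.mul_mem_left _ _ e2)
    · exact clus_mem (okc_LG c' hc') a c hcc' g (h.1 c' hc' hne)
  obtain ⟨b, u, hbu⟩ := mem_Cl.1 key
  exact ⟨u, b, hbu⟩

theorem rel_other {t : Tr} (ht : (Comp.T t) ∈ LG) (hne : (Comp.T t) ≠ .T t1) {r g : R}
    (h : ZG r g) (u : Fin 13 → R)
    (hu : ∀ a, ∃ b, g = lin (fG a) * b + PP fG (Finset.univ.erase a) * u a) :
    ((t.x : ℤ) : ℂ) * constantCoeff (u t.i) + ((t.y : ℤ) : ℂ) * constantCoeff (u t.j) +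
      ((t.z : ℤ) : ℂ) * constantCoeff (u t.k) = 0 := by
  have h1 := rel_t (okTop_LG.1 _ ht) g 0 u (by
    rw [zero_mul, sub_zero]
    exact h.1 _ ht hne) hu
  rwa [map_zero, mul_zero] at h1

theorem ZG_non {r g : R} (h : ZG r g) : constantCoeff r = 0 := by
  choose u hu using traceZ h
  have r1 := rel_t (okTop_LG.1 _ t1_mem) g r u h.2 hu
  have rtA := rel_other (t := tA) (by decide +kernel) (by decide +kernel) h u hu
  have rtB := rel_other (t := tB) (by decide +kernel) (by decide +kernel) h u hu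
  have rtC := rel_other (t := tC) (by decide +kernel) (by decide +kernel) h u hu
  have rtD := rel_other (t := tD) (by decide +kernel) (by decide +kernel) h u hu
  have rtE := rel_other (t := tE) (by decide +kernel) (by decide +kernel) h u hu
  have rtF := rel_other (t := tF) (by decide +kernel) (by decide +kernel) h u hu
  have rt2 := rel_other (t := t2) (by decide +kernel) (by decide +kernel) h u hu
  have rt3 := rel_other (t := t3) (by decide +kernel) (by decide +kernel) h u hu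
  have rt4 := rel_other (t := t4) (by decide +kernel) (by decide +kernel) h u hu
  simp only [tA, tB, tC, tD, tE, tF, t1, t2, t3, t4] at r1 rtA rtB rtC rtD rtE rtF rt2 rt3 rt4
  push_cast at r1 rtA rtB rtC rtD rtE rtF rt2 rt3 rt4
  linear_combination (-2/5 : ℂ) * rtA + (-4/5 : ℂ) * rtB + (-1/5 : ℂ) * rtC + (-1/5 : ℂ) * rtD + (1/5 : ℂ) * rtE + (2/5 : ℂ) * rtF + (1 : ℂ) * r1 + (1 : ℂ) * rt2 + (-1 : ℂ) * rt3 + (1 : ℂ) * rt4

theorem secG : Sec (II fG LG) ZG where
  z0 := by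
    intro g
    rw [mem_II]
    constructor
    · rintro ⟨h1, h2⟩ c hc
      by_cases hne : c = .T t1
      · subst hne
        rw [zero_mul, sub_zero] at h2
        exact h2
      · exact h1 c hc hne
    · intro h
      refine ⟨fun c hc _ => h c hc, ?_⟩
      rw [zero_mul, sub_zero]
      exact h _ t1_mem
  zadd := fun r g r' g' => ZG_add
  zmul := fun a r g => ZG_mul a
  zex := fun r hr => mem_EZ r hr
  znon := fun r g h => ZG_non h
  zcan := by
    intro w r g hw h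
    have hn : ∀ c ∈ LG, w * lin sV ∉ Pid (fG (b1 c)) (fG (b2 c)) := by
      intro c hc h1
      have hnd := okc_nd (okc_LG c hc)
      rcases (Pid_prime hnd).mem_or_mem h1 with h2 | h2
      · exact hw (Pid_le_m0 _ _ h2)
      · have := s_notMem hnd 0
        rw [C_0, sub_zero] at this
        exact this h2
    refine ⟨fun c hc hne => prim_idl (okc_LG c hc) _ _ (hn c hc) (h.1 c hc hne), ?_⟩
    have h2 := h.2
    have : w * lin sV * g - w * lin sV * r * eta fG t1 =
        w * lin sV * (g - r * eta fG t1) := by ring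
    rw [this] at h2
    exact prim_idl (okc_LG _ t1_mem) _ _ (hn _ t1_mem) h2

/-- the coordinate ring of the general arrangement is not Cohen-Macaulay -/
theorem not_isCM_LG : ¬ IsCM (R ⧸ II fG LG) := by
  refine not_isCM_of_sec secG (okc_nd (okc_LG _ t1_mem)) ?_
  intro g hg
  exact idl_le (okc_LG _ t1_mem) ((mem_II LG g).1 hg _ t1_mem)

end Pool.Agent.Y186.CM
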