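import Mathlib
import Pool.Agent.Y186.CM.Cone

set_option autoImplicit false

/-!
# The special arrangement: the top-dimensional part is Cohen-Macaulay
-/

namespace Pool.Agent.Y186.CM

open MvPolynomial
open Pool.Agent.W490.CMA (R V lin det4 cramer Pid A eV algA lin_eV self_mem_left self_mem_right
  pderiv_prod pderiv_lin aeval_lin)

/-- the planes of the special arrangement -/
def fS : Fin 13 → V := ![![0, 1, 0, 0],
  ![0, 0, 1, 0],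
  ![0, 0, 0, 1],
  ![0, -1, -1, -1],
  ![0, 3, -1, 0],
  ![0, 1, 1, -1],
  ![0, 2, -1, -1],
  ![0, 0, 1, -2],
  ![0, 2, -2, 1],
  ![1, 0, 0, 0],
  ![1, -1, 0, 0],
  ![1, -1, -1, 0],
  ![1, -1, -1, -1]]

/-- its double and triple lines -/
def LS : List Comp := [
  .P 0 2, .P 0 5, .P 0 7, .P 0 8, .P 0 11, .P 0 12,
  .P 1 3, .P 1 5, .P 1 6, .P 1 8, .P 1 9, .P 1 12,
  .P 2 4, .P 2 6, .P 2 8, .P 2 9, .P 2 10, .P 3 4,
  .P 3 7, .P 3 8, .P 3 10, .P 3 11, .P 4 6, .P 4 7,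
  .P 4 9, .P 4 10, .P 4 11, .P 4 12, .P 5 6, .P 5 7,
  .P 5 9, .P 5 10, .P 5 11, .P 5 12, .P 6 9, .P 6 10,
  .P 6 11, .P 6 12, .P 7 9, .P 7 10, .P 7 11, .P 7 12,
  .P 8 9, .P 8 10, .P 8 11, .P 8 12, .P 9 11, .P 10 12,
  .T ⟨0, 1, 4, 3, -1, -1⟩, .T ⟨2, 3, 5, 2, 1, 1⟩, .T ⟨6, 7, 8, 1, -1, -1⟩, .T ⟨0, 3, 6, 3, 1, -1⟩, .T ⟨1, 2, 7, 1, -2, -1⟩, .T ⟨4, 5, 8, 1, -1, -1⟩,
  .T ⟨10, 0, 9, 1, 1, -1⟩, .T ⟨11, 1, 10, 1, 1, -1⟩, .T ⟨11, 2, 12, 1, -1, -1⟩, .T ⟨9, 3, 12, 1, 1, -1⟩]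

/-- the double and triple lines through the vertex -/
def LB : List Comp := [
  .P 0 2, .P 0 5, .P 0 7, .P 0 8, .P 1 3, .P 1 5,
  .P 1 6, .P 1 8, .P 2 4, .P 2 6, .P 2 8, .P 3 4,
  .P 3 7, .P 3 8, .P 4 6, .P 4 7, .P 5 6, .P 5 7,
  .T ⟨0, 1, 4, 3, -1, -1⟩, .T ⟨2, 3, 5, 2, 1, 1⟩, .T ⟨6, 7, 8, 1, -1, -1⟩, .T ⟨0, 3, 6, 3, 1, -1⟩, .T ⟨1, 2, 7, 1, -2, -1⟩, .T ⟨4, 5, 8, 1, -1, -1⟩]

/-- weights -/
def w1 : Fin 13 → ℤ := ![0, 0, 0, 0, 0, 0, 0, 0, 0, 1, 1, 1, 1]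
/-- weights -/
def w2 : Fin 13 → ℤ := ![1, 0, 0, -1, 3, 1, 2, 0, 2, 1, 0, 0, 0]
/-- weights -/
def w3 : Fin 13 → ℤ := ![1, 0, -1, 0, 3, 2, 3, 2, 1, 0, -1, -1, 0]
/-- weights -/
def w4 : Fin 13 → ℤ := ![0, 1, -1, 0, -1, 2, 0, 3, -3, 0, 0, -1, 0]
/-- weights -/
def u1 : Fin 13 → ℤ := ![1, 0, 0, 0, 3, 0, 3, 0, 3, 0, 0, 0, 0]
/-- weights -/
def u2 : Fin 13 → ℤ := ![0, -1, 0, 0, 1, 0, 0, -1, 1, 0, 0, 0, 0]
/-- weights -/
def u3 : Fin 13 → ℤ := ![0, 0, 1, 0, 0, -2, 0, -2, 2, 0, 0, 0, 0]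
/-- weights -/
def u4 : Fin 13 → ℤ := ![0, 0, 0, 1, 0, -1, 1, 0, 1, 0, 0, 0, 0]

/-- the planes through the vertex -/
def SB : Finset (Fin 13) := {0, 1, 2, 3, 4, 5, 6, 7, 8}
/-- all planes -/
def S0 : Finset (Fin 13) := Finset.univ
/-- all planes but one -/
def S1 : Finset (Fin 13) := {0, 1, 2, 3, 4, 5, 6, 7, 8, 9, 10, 11}
/-- all planes but two -/
def S2 : Finset (Fin 13) := {0, 1, 2, 3, 4, 5, 6, 7, 8, 10, 11}
/-- all planes but three -/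
def S3 : Finset (Fin 13) := {0, 1, 2, 3, 4, 5, 6, 7, 8, 11}

theorem reg_LB : Reg (II fS LB) := reg_cone (by decide +kernel) (by decide +kernel)

theorem reg_add1 : Reg (II fS (.P 10 0 :: LB)) :=
  add_line (S := SB) (σ := u1) (by decide +kernel) reg_LB
theorem reg_add2 : Reg (II fS (.P 11 1 :: .P 10 0 :: LB)) :=
  add_line (S := SB) (σ := u2) (by decide +kernel) reg_add1
theorem reg_add3 : Reg (II fS (.P 11 2 :: .P 11 1 :: .P 10 0 :: LB)) :=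
  add_line (S := SB) (σ := u3) (by decide +kernel) reg_add2
theorem reg_add4 : Reg (II fS (.P 9 3 :: .P 11 2 :: .P 11 1 :: .P 10 0 :: LB)) :=
  add_line (S := SB) (σ := u4) (by decide +kernel) reg_add3

/-- all but one plane -/
def L1 : List Comp := LS.filterMap (colonC 12)
/-- all but two planes -/
def L2 : List Comp := L1.filterMap (colonC 9)
/-- all but three planes -/
def L3 : List Comp := L2.filterMap (colonC 10)
/-- all but four planes -/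
def L4 : List Comp := L3.filterMap (colonC 11)

theorem L4_sub : ∀ c ∈ L4, c ∈ (.P 9 3 :: .P 11 2 :: .P 11 1 :: .P 10 0 :: LB : List Comp) := by
  decide +kernel
theorem sub_L4 : ∀ c ∈ (.P 9 3 :: .P 11 2 :: .P 11 1 :: .P 10 0 :: LB : List Comp), c ∈ L4 := by
  decide +kernel

theorem reg_L4 : Reg (II fS L4) := by
  rw [II_congr (fun c => ⟨L4_sub c, sub_L4 c⟩)]
  exact reg_add4

theorem reg_L3 : Reg (II fS L3) := step (S := S3) (h := 11) (σ := w4) (by decide +kernel) reg_L4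
theorem reg_L2 : Reg (II fS L2) := step (S := S2) (h := 10) (σ := w3) (by decide +kernel) reg_L3
theorem reg_L1 : Reg (II fS L1) := step (S := S1) (h := 9) (σ := w2) (by decide +kernel) reg_L2

/-- the regularity condition for the special arrangement -/
theorem reg_LS : Reg (II fS LS) := step (S := S0) (h := 12) (σ := w1) (by decide +kernel) reg_L1

end Pool.Agent.Y186.CM
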