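import Mathlib
import Pool.Agent.Y186.CM.Spec
import Pool.Agent.Y186.CM.Gen

set_option autoImplicit false

/-!
# The two arrangements have isomorphic lattices
-/

namespace Pool.Agent.Y186.CM

open MvPolynomial
open Pool.Agent.W490.CMA (R V lin det4 cramer Pid A eV algA lin_eV self_mem_left self_mem_right
  pderiv_prod pderiv_lin aeval_lin lattice_iso)

/-- complex coefficients -/
def cast (f : Fin 13 → V) : Fin 13 → Fin 4 → ℂ := fun i j => ((f i j : ℤ) : ℂ)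

theorem det4_cast (a b c d : V) : det4 (fun j => ((a j : ℤ) : ℂ)) (fun j => ((b j : ℤ) : ℂ))
    (fun j => ((c j : ℤ) : ℂ)) (fun j => ((d j : ℤ) : ℂ)) = ((det4 a b c d : ℤ) : ℂ) := by
  simp only [det4]
  push_cast
  ring

theorem same_matroid : ∀ a b c d : Fin 13,
    det4 (fS a) (fS b) (fS c) (fS d) = 0 ↔ det4 (fG a) (fG b) (fG c) (fG d) = 0 := by
  decide +kernel

theorem span_top (u : Fin 13 → Fin 4 → ℂ) (a b c d : Fin 13)
    (h : det4 (u a) (u b) (u c) (u d) ≠ 0) : Submodule.span ℂ (Set.range u) = ⊤ := by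
  rw [eq_top_iff]
  intro v _
  have key : v = (det4 (u a) (u b) (u c) (u d))⁻¹ • (det4 v (u b) (u c) (u d) • u a +
      det4 (u a) v (u c) (u d) • u b + det4 (u a) (u b) v (u d) • u c +
      det4 (u a) (u b) (u c) v • u d) := by
    funext i
    have := cramer (u a) (u b) (u c) (u d) v i
    simp only [Pi.smul_apply, Pi.add_apply, smul_eq_mul]
    field_simp
    linear_combination this
  rw [key]
  have hm : ∀ i, u i ∈ Submodule.span ℂ (Set.range u) := fun i => Submodule.subset_span ⟨i, rfl⟩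
  exact Submodule.smul_mem _ _ (Submodule.add_mem _ (Submodule.add_mem _ (Submodule.add_mem _
    (Submodule.smul_mem _ _ (hm a)) (Submodule.smul_mem _ _ (hm b)))
    (Submodule.smul_mem _ _ (hm c))) (Submodule.smul_mem _ _ (hm d)))

theorem nd_indep {p q : V} (h : nd p q) :
    LinearIndependent ℂ ![(fun j => ((p j : ℤ) : ℂ)), (fun j => ((q j : ℤ) : ℂ))] := by
  rw [LinearIndependent.pair_iff]
  intro s t hst
  have h' : ((det4 sV tV p q : ℤ) : ℂ) ≠ 0 := by exact_mod_cast h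
  have hv : ∀ j, s * ((p j : ℤ) : ℂ) + t * ((q j : ℤ) : ℂ) = 0 := fun j => by
    have := congrFun hst j
    simpa using this
  constructor
  · have : s * ((det4 sV tV p q : ℤ) : ℂ) = 0 := by
      rw [← det4_cast]
      simp only [det4]
      have e0 := hv 0
      have e1 := hv 1
      have e2 := hv 2
      have e3 := hv 3
      generalize ((p 0 : ℤ) : ℂ) = p0 at *
      generalize ((p 1 : ℤ) : ℂ) = p1 at *
      generalize ((p 2 : ℤ) : ℂ) = p2 at *
      generalize ((p 3 : ℤ) : ℂ) = p3 at *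
      generalize ((q 0 : ℤ) : ℂ) = q0 at *
      generalize ((q 1 : ℤ) : ℂ) = q1 at *
      generalize ((q 2 : ℤ) : ℂ) = q2 at *
      generalize ((q 3 : ℤ) : ℂ) = q3 at *
      generalize ((sV 0 : ℤ) : ℂ) = s0
      generalize ((sV 1 : ℤ) : ℂ) = s1
      generalize ((sV 2 : ℤ) : ℂ) = s2
      generalize ((sV 3 : ℤ) : ℂ) = s3
      generalize ((tV 0 : ℤ) : ℂ) = t0
      generalize ((tV 1 : ℤ) : ℂ) = t1
      generalize ((tV 2 : ℤ) : ℂ) = t2
      generalize ((tV 3 : ℤ) : ℂ) = t3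
      linear_combination
        ((s0 * t1 - s1 * t0) * (-q3) * (-1) * e2 + (s0 * t1 - s1 * t0) * (-q2) * e3
        + (s0 * t2 - s2 * t0) * (-q3) * e1 - (s0 * t2 - s2 * t0) * (-q1) * e3
        + (s0 * t3 - s3 * t0) * q2 * e1 - (s0 * t3 - s3 * t0) * q1 * e2
        + (s1 * t2 - s2 * t1) * q3 * e0 - (s1 * t2 - s2 * t1) * q0 * e3
        - (s1 * t3 - s3 * t1) * q2 * e0 + (s1 * t3 - s3 * t1) * q0 * e2
        + (s2 * t3 - s3 * t2) * q1 * e0 - (s2 * t3 - s3 * t2) * q0 * e1)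
    exact (mul_eq_zero.1 this).resolve_right h'
  · have : t * ((det4 sV tV p q : ℤ) : ℂ) = 0 := by
      rw [← det4_cast]
      simp only [det4]
      have e0 := hv 0
      have e1 := hv 1
      have e2 := hv 2
      have e3 := hv 3
      generalize ((p 0 : ℤ) : ℂ) = p0 at *
      generalize ((p 1 : ℤ) : ℂ) = p1 at *
      generalize ((p 2 : ℤ) : ℂ) = p2 at *
      generalize ((p 3 : ℤ) : ℂ) = p3 at *
      generalize ((q 0 : ℤ) : ℂ) = q0 at *
      generalize ((q 1 : ℤ) : ℂ) = q1 at *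
      generalize ((q 2 : ℤ) : ℂ) = q2 at *
      generalize ((q 3 : ℤ) : ℂ) = q3 at *
      generalize ((sV 0 : ℤ) : ℂ) = s0
      generalize ((sV 1 : ℤ) : ℂ) = s1
      generalize ((sV 2 : ℤ) : ℂ) = s2
      generalize ((sV 3 : ℤ) : ℂ) = s3
      generalize ((tV 0 : ℤ) : ℂ) = t0
      generalize ((tV 1 : ℤ) : ℂ) = t1
      generalize ((tV 2 : ℤ) : ℂ) = t2
      generalize ((tV 3 : ℤ) : ℂ) = t3
      linear_combination
        ((s0 * t1 - s1 * t0) * p2 * e3 - (s0 * t1 - s1 * t0) * p3 * e2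
        - (s0 * t2 - s2 * t0) * p1 * e3 + (s0 * t2 - s2 * t0) * p3 * e1
        + (s0 * t3 - s3 * t0) * p1 * e2 - (s0 * t3 - s3 * t0) * p2 * e1
        + (s1 * t2 - s2 * t1) * p0 * e3 - (s1 * t2 - s2 * t1) * p3 * e0
        - (s1 * t3 - s3 * t1) * p0 * e2 + (s1 * t3 - s3 * t1) * p2 * e0
        + (s2 * t3 - s3 * t2) * p0 * e1 - (s2 * t3 - s3 * t2) * p1 * e0)
    exact (mul_eq_zero.1 this).resolve_right h'

theorem okTop_LS : okTop fS LS := by decide +kernel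

theorem okc_LS : ∀ c ∈ LS, okc fS c := fun c hc => okTopC_okc (okTop_LS.1 c hc)

theorem isCM_S : IsCM (R ⧸ topDim (JJ fS)) := by
  rw [topDim_JJ okTop_LS]
  exact isCM_of_reg okc_LS reg_LS

theorem not_isCM_G : ¬ IsCM (R ⧸ topDim (JJ fG)) := by
  rw [topDim_JJ okTop_LG]
  exact not_isCM_LG

theorem spanS : Submodule.span ℂ (Set.range (cast fS)) = ⊤ := by
  refine span_top _ 0 1 2 9 ?_
  have h : det4 (fS 0) (fS 1) (fS 2) (fS 9) ≠ 0 := by decide +kernel
  have e := det4_cast (fS 0) (fS 1) (fS 2) (fS 9)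
  change det4 (fun j => ((fS 0 j : ℤ) : ℂ)) (fun j => ((fS 1 j : ℤ) : ℂ))
    (fun j => ((fS 2 j : ℤ) : ℂ)) (fun j => ((fS 9 j : ℤ) : ℂ)) ≠ 0
  rw [e]
  exact_mod_cast h

theorem spanG : Submodule.span ℂ (Set.range (cast fG)) = ⊤ := by
  refine span_top _ 0 1 2 9 ?_
  have h : det4 (fG 0) (fG 1) (fG 2) (fG 9) ≠ 0 := by decide +kernel
  have e := det4_cast (fG 0) (fG 1) (fG 2) (fG 9)
  change det4 (fun j => ((fG 0 j : ℤ) : ℂ)) (fun j => ((fG 1 j : ℤ) : ℂ))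
    (fun j => ((fG 2 j : ℤ) : ℂ)) (fun j => ((fG 9 j : ℤ) : ℂ)) ≠ 0
  rw [e]
  exact_mod_cast h

theorem iso : Nonempty (↥{X : Set (Fin 4 → ℂ) | ∃ S : Finset (Fin 13),
      X = {x : Fin 4 → ℂ | ∀ i ∈ S, ∑ j : Fin 4, cast fS i j * x j = 0}} ≃o
    ↥{X : Set (Fin 4 → ℂ) | ∃ S : Finset (Fin 13),
      X = {x : Fin 4 → ℂ | ∀ i ∈ S, ∑ j : Fin 4, cast fG i j * x j = 0}}) := by
  refine lattice_iso (cast fS) (cast fG) spanS spanG ?_
  intro a b c d
  have e1 := det4_cast (fS a) (fS b) (fS c) (fS d)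
  have e2 := det4_cast (fG a) (fG b) (fG c) (fG d)
  change det4 (fun j => ((fS a j : ℤ) : ℂ)) (fun j => ((fS b j : ℤ) : ℂ))
    (fun j => ((fS c j : ℤ) : ℂ)) (fun j => ((fS d j : ℤ) : ℂ)) = 0 ↔
    det4 (fun j => ((fG a j : ℤ) : ℂ)) (fun j => ((fG b j : ℤ) : ℂ))
    (fun j => ((fG c j : ℤ) : ℂ)) (fun j => ((fG d j : ℤ) : ℂ)) = 0
  rw [e1, e2]
  have := same_matroid a b c d
  exact_mod_cast this

theorem cast_ne {f : Fin 13 → V} {L : List Comp} (h : okTop f L) (a : Fin 13) : cast f a ≠ 0 := by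
  intro h0
  obtain ⟨b, hb⟩ : ∃ b : Fin 13, a ≠ b := by
    by_cases h : a = 0
    · exact ⟨1, by rw [h]; decide⟩
    · exact ⟨0, h⟩
  apply nd_left (h.2 a b hb).1
  funext j
  have := congrFun h0 j
  have h1 : ((f a j : ℤ) : ℂ) = 0 := this
  exact_mod_cast h1

end Pool.Agent.Y186.CM
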